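import Pool.Agent.H68MT.Core

set_option linter.unusedSectionVars false

/-! Choice of the parameters; the theorem. -/

namespace Pool.Agent.H68MT

open Finset Classical Filter Topology
open Pool.Agent.H592R2

noncomputable section

lemma ev_div (A ε : ℝ) (hε : 0 < ε) : ∀ᶠ w : ℕ in atTop, A / (w : ℝ) < ε := by
  have h : Tendsto (fun w : ℕ => A / (w : ℝ)) atTop (𝓝 0) :=
    tendsto_const_div_atTop_nhds_zero_nat A
  exact h.eventually (gt_mem_nhds hε)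

lemma ev_pow_mul (A ρ ε : ℝ) (m : ℕ) (h0 : 0 ≤ ρ) (h1 : ρ < 1) (hε : 0 < ε) :
    ∀ᶠ w : ℕ in atTop, A * ((w : ℝ) ^ m * ρ ^ w) < ε := by
  have h := (tendsto_pow_const_mul_const_pow_of_lt_one m h0 h1).const_mul A
  rw [mul_zero] at h
  exact h.eventually (gt_mem_nhds hε)

lemma ev_exp (A ε : ℝ) (m : ℕ) (hε : 0 < ε) :
    ∀ᶠ w : ℕ in atTop, A * ((w : ℝ) ^ m * Real.exp (-(w : ℝ))) < ε := by
  have h := ((Real.tendsto_pow_mul_exp_neg_atTop_nhds_zero m).comp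
    (tendsto_natCast_atTop_atTop (R := ℝ))).const_mul A
  rw [mul_zero] at h
  exact h.eventually (gt_mem_nhds hε)

lemma exp_bound {x a s w : ℕ} (hx : 1 ≤ x) (h : x ^ a * w ≤ s) :
    (1 - (1 / (x : ℝ)) ^ a) ^ s ≤ Real.exp (-(w : ℝ)) := by
  have hx1 : (1 : ℝ) ≤ x := by exact_mod_cast hx
  have hx0 : (0 : ℝ) < x := by linarith
  have hp : (1 / (x : ℝ)) ^ a ≤ 1 :=
    pow_le_one₀ (by positivity) (by rw [div_le_one hx0]; exact hx1)
  calc (1 - (1 / (x : ℝ)) ^ a) ^ s ≤ Real.exp (-((1 / (x : ℝ)) ^ a)) ^ s := by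
        apply pow_le_pow_left₀ (by linarith)
        have := Real.add_one_le_exp (-((1 / (x : ℝ)) ^ a))
        linarith
    _ = Real.exp (-((s : ℝ) * (1 / (x : ℝ)) ^ a)) := by
        rw [← Real.exp_nat_mul]
        congr 1
        ring
    _ ≤ Real.exp (-(w : ℝ)) := by
        apply Real.exp_le_exp.mpr
        have h1 : ((x : ℝ) ^ a * w) ≤ s := by exact_mod_cast h
        have h2 : (w : ℝ) ≤ (s : ℝ) * (1 / (x : ℝ)) ^ a := by
          rw [one_div_pow, mul_one_div, le_div_iff₀ (by positivity)]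
          linarith
        linarith

lemma aux1 {A K W V : ℝ} (hW : W ≠ 0) (hV : V ≠ 0) : A * W * (K / (W * V)) = A * K / V := by
  field_simp

lemma aux2 {P Q W V : ℝ} (hW : W ≠ 0) (hV : V ≠ 0) :
    P * (Q * W * (1 / (W * V))) = Q * P / V := by
  field_simp

theorem no_mono (m d : ℕ) (h : ℕ → ℕ) (hh : ∀ K, ∃ k, K ≤ h k) : ¬ MonotoneReduction m d h := by
  rintro ⟨c, f, g, hR⟩
  obtain ⟨u, hu⟩ : ∃ u, u = 2 * c + 1 := ⟨_, rfl⟩
  obtain ⟨k, hk⟩ := hh (2 * (u * u) + 3)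
  obtain ⟨H, hH⟩ : ∃ H, H = h k := ⟨_, rfl⟩
  obtain ⟨G, hG⟩ : ∃ G, G = g k := ⟨_, rfl⟩
  obtain ⟨q, hq⟩ : ∃ q, q = G + (2 * m + 1) := ⟨_, rfl⟩
  obtain ⟨κ, hκ⟩ : ∃ κ, κ = 2 * (c * q) + 1 := ⟨_, rfl⟩
  obtain ⟨b0, hb0⟩ : ∃ b0, b0 = 2 * κ + 1 := ⟨_, rfl⟩
  obtain ⟨D, hD⟩ : ∃ D, D = b0 * (u * u) + 1 := ⟨_, rfl⟩
  obtain ⟨A, hA⟩ : ∃ A : ℝ, A = (f k : ℝ) * 2 ^ c := ⟨_, rfl⟩
  obtain ⟨Bc, hBc⟩ : ∃ Bc : ℝ, Bc = (A + 1) ^ (2 * m + 1) := ⟨_, rfl⟩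
  have hA0 : 0 ≤ A := by rw [hA]; positivity
  have hBc0 : 0 ≤ Bc := by rw [hBc]; positivity
  have hu1 : 1 ≤ u := by omega
  have huu : 1 ≤ u * u := Nat.mul_le_mul hu1 hu1
  have hb1 : 1 ≤ b0 := by omega
  have hbu : b0 ≤ b0 * (u * u) := Nat.le_mul_of_pos_right _ huu
  have hDκ : 2 * κ + 1 ≤ D := by omega
  have hD1 : 1 ≤ D := by omega
  have hbH : 2 * D + 1 ≤ b0 * H := by
    rw [hH]
    calc 2 * D + 1 = 2 * (b0 * (u * u)) + 3 := by rw [hD]; ring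
      _ ≤ b0 * (2 * (u * u) + 3) := by nlinarith
      _ ≤ b0 * h k := Nat.mul_le_mul_left _ hk
  obtain ⟨w, hw1, hw2, hw3, hw4, hw5, hw6, hw7⟩ :=
    ((ev_div ((k * k : ℕ) : ℝ) (1 / 3) (by norm_num)).and
    ((ev_div (A * (k : ℝ) ^ u) (1 / 3) (by norm_num)).and
    ((ev_div ((A + 1) ^ q * (m + 1)) (1 / 3) (by norm_num)).and
    ((ev_exp ((m + 2) * Bc) (1 / 4) (2 * D * (c * (2 * m + 1))) (by norm_num)).and
    ((ev_pow_mul (m + 1) (1 / 2) (1 / 4) (2 * D * (H + 2 * m)) (by norm_num) (by norm_num)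
      (by norm_num)).and
    ((eventually_ge_atTop 4).and (eventually_ge_atTop κ))))))).exists
  have hw1' : 1 ≤ w := by omega
  have hwr : (1 : ℝ) ≤ w := by exact_mod_cast hw1'
  have hw4r : (4 : ℝ) ≤ w := by exact_mod_cast hw6
  have hw0 : (0 : ℝ) < w := by linarith
  obtain ⟨n, hn⟩ : ∃ n, n = w ^ (2 * D) := ⟨_, rfl⟩
  obtain ⟨β, hβ⟩ : ∃ β, β = w ^ b0 := ⟨_, rfl⟩
  obtain ⟨s, hs⟩ : ∃ s, s = w ^ D := ⟨_, rfl⟩
  have hn1 : 1 ≤ n := by rw [hn]; exact Nat.one_le_pow _ _ hw1'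
  have hβ1 : 1 ≤ β := by rw [hβ]; exact Nat.one_le_pow _ _ hw1'
  have hnsq : w * w ≤ n := by
    rw [hn, ← pow_two]
    exact Nat.pow_le_pow_right hw1' (by omega)
  have hwn : w ≤ n := le_trans (Nat.le_mul_of_pos_left w hw1') hnsq
  have hnκ : w ≤ n - κ := by
    have : w + w ≤ w * w := by nlinarith
    omega
  have hnr : (n : ℝ) = (w : ℝ) ^ (2 * D) := by rw [hn]; push_cast; rfl
  have hsr : (s : ℝ) = (w : ℝ) ^ D := by rw [hs]; push_cast; rfl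
  have hβr : (β : ℝ) = (w : ℝ) ^ b0 := by rw [hβ]; push_cast; rfl
  have hn1r : (1 : ℝ) ≤ n := by exact_mod_cast hn1
  have hn0 : (0 : ℝ) < n := by linarith
  have hwD : (w : ℝ) ≤ (w : ℝ) ^ D := by
    calc (w : ℝ) = (w : ℝ) ^ 1 := (pow_one _).symm
      _ ≤ _ := pow_le_pow_right₀ hwr hD1
  have : NeZero n := ⟨by omega⟩
  have : NeZero w := ⟨by omega⟩
  have : NeZero β := ⟨by omega⟩
  obtain ⟨S, Nv, L, wt, C, out, hS, hNv, hL, hwt, hred⟩ := hR k n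
  have hpow : ((n : ℝ) + 1) ^ c ≤ 2 ^ c * (n : ℝ) ^ c := by
    rw [← mul_pow]
    exact pow_le_pow_left₀ (by positivity) (by linarith) c
  have hb : ∀ x : ℕ, x ≤ f k * (n + 1) ^ c → (x : ℝ) ≤ A * (n : ℝ) ^ c := by
    intro x hx
    have h1 : (x : ℝ) ≤ (f k : ℝ) * ((n : ℝ) + 1) ^ c := by exact_mod_cast hx
    refine h1.trans ?_
    rw [hA, mul_assoc]
    exact mul_le_mul_of_nonneg_left hpow (Nat.cast_nonneg _)
  have hSr := hb S hS
  have hNr := hb Nv hNv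
  have hLr := hb L hL
  obtain ⟨Y, hY⟩ : ∃ Y : ℝ, Y = (A + 1) * (n : ℝ) ^ c := ⟨_, rfl⟩
  have hnc1 : (1 : ℝ) ≤ (n : ℝ) ^ c := one_le_pow₀ hn1r
  have hY1 : 1 ≤ Y := by rw [hY]; nlinarith
  have hAY : A * (n : ℝ) ^ c ≤ Y := by rw [hY]; nlinarith
  obtain ⟨B, hB⟩ : ∃ B : ℝ, B = Y ^ (2 * m + 1) := ⟨_, rfl⟩
  have hB1 : 1 ≤ B := by rw [hB]; exact one_le_pow₀ hY1
  have hBw : B = Bc * (w : ℝ) ^ (2 * D * (c * (2 * m + 1))) := by
    have e0 : (((w : ℝ) ^ (2 * D)) ^ c) ^ (2 * m + 1) = (w : ℝ) ^ (2 * D * (c * (2 * m + 1))) := by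
      ring
    rw [hB, hY, hBc, mul_pow, hnr, e0]
  have hLY : (L : ℝ) ≤ Y := hLr.trans hAY
  have hSB : (S : ℝ) ≤ B := by
    refine hSr.trans (hAY.trans ?_)
    rw [hB]
    calc Y = Y ^ 1 := (pow_one _).symm
      _ ≤ _ := pow_le_pow_right₀ hY1 (by omega)
  have hnH : (n : ℝ) * (1 / (β : ℝ)) ^ H ≤ 1 / w := by
    rw [hnr, hβr, one_div_pow, ← pow_mul, mul_one_div, div_le_div_iff₀ (by positivity) hw0,
      one_mul, ← pow_succ]
    exact pow_le_pow_right₀ hwr hbH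
  have h1w : 1 / (w : ℝ) ≤ 1 / 4 := one_div_le_one_div_of_le (by norm_num) hw4r
  have hhalf : 1 / (w : ℝ) + (n : ℝ) * (1 / (β : ℝ)) ^ H ≤ 1 / 2 := by linarith
  have hsn : (s : ℝ) / n = 1 / (w : ℝ) ^ D := by
    rw [hsr, hnr, div_eq_div_iff (by positivity) (by positivity), one_mul, ← pow_add]
    congr 1
    ring
  have hinv : ∀ Z : ℝ, 0 ≤ Z → Z / (w : ℝ) ^ D ≤ Z / w := fun Z hZ =>
    div_le_div_of_nonneg_left hZ hw0 hwD
  refine core (k := k) (N := w) (β := β) (s := s) (u := u) (κ := κ) (H := H) (wt := wt)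
    (B := B) (M := (n : ℝ) ^ (2 * m)) C out hu1 hB1 ?_ ?_ ?_ ?_ ?_ ?_
    (fun x => (hred x).1) (fun x hx => hH ▸ (hred x).2 hx)
  · intro i hi
    rw [card_path, Fintype.card_fin]
    push_cast
    calc (L : ℝ) ^ (2 * i) ≤ Y ^ (2 * i) := pow_le_pow_left₀ (Nat.cast_nonneg _) hLY _
      _ ≤ Y ^ (2 * m + 1) := pow_le_pow_right₀ hY1 (by omega)
      _ = B := hB.symm
  · intro i hi
    rw [Fintype.card_prod, card_path, Fintype.card_fin]
    push_cast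
    calc (L : ℝ) ^ (2 * i) * L = (L : ℝ) ^ (2 * i + 1) := by ring
      _ ≤ Y ^ (2 * i + 1) := pow_le_pow_left₀ (Nat.cast_nonneg _) hLY _
      _ ≤ Y ^ (2 * m + 1) := pow_le_pow_right₀ hY1 (by omega)
      _ = B := hB.symm
  · intro i hi
    rw [card_path, Fintype.card_fin]
    push_cast
    exact pow_le_pow_right₀ hn1r (by omega)
  · linarith
  · -- sparse inputs
    have t1 : ((k * k : ℕ) : ℝ) / n < 1 / 3 := by
      refine lt_of_le_of_lt ?_ hw1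
      exact div_le_div_of_nonneg_left (Nat.cast_nonneg _) hw0 (by exact_mod_cast hwn)
    have t2 : (S : ℝ) * (((s * k : ℕ) : ℝ) / n) ^ u < 1 / 3 := by
      have t21 : ((s * k : ℕ) : ℝ) / n = k / (w : ℝ) ^ D := by
        push_cast
        rw [mul_div_right_comm, hsn]
        ring
      rw [t21]
      have t22 : (S : ℝ) * ((k : ℝ) / (w : ℝ) ^ D) ^ u ≤
          A * (n : ℝ) ^ c * ((k : ℝ) / (w : ℝ) ^ D) ^ u :=
        mul_le_mul_of_nonneg_right hSr (by positivity)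
      have t23 : A * (n : ℝ) ^ c * ((k : ℝ) / (w : ℝ) ^ D) ^ u =
          A * (k : ℝ) ^ u / (w : ℝ) ^ D := by
        rw [hnr, ← pow_mul, div_pow, ← pow_mul]
        have e5 : D * u = 2 * D * c + D := by rw [hu]; ring
        rw [e5, pow_add]
        refine aux1 ?_ ?_ <;> positivity
      have t24 := hinv (A * (k : ℝ) ^ u) (by positivity)
      linarith
    have t3 : (Nv : ℝ) ^ wt * ((m + 1) * (B * ((s : ℝ) / n) ^ κ)) < 1 / 3 := by
      have t31 : (Nv : ℝ) ^ wt ≤ Y ^ G := by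
        calc (Nv : ℝ) ^ wt ≤ Y ^ wt := pow_le_pow_left₀ (Nat.cast_nonneg _) (hNr.trans hAY) _
          _ ≤ Y ^ G := pow_le_pow_right₀ hY1 (hG ▸ hwt)
      have t32 : (Nv : ℝ) ^ wt * ((m + 1) * (B * ((s : ℝ) / n) ^ κ)) ≤
          Y ^ G * ((m + 1) * (B * ((s : ℝ) / n) ^ κ)) :=
        mul_le_mul_of_nonneg_right t31 (by positivity)
      have t33 : Y ^ G * ((m + 1) * (B * ((s : ℝ) / n) ^ κ)) =
          (A + 1) ^ q * (m + 1) / (w : ℝ) ^ D := by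
        rw [hsn, hB]
        have e1 : Y ^ G * ((m + 1) * (Y ^ (2 * m + 1) * (1 / (w : ℝ) ^ D) ^ κ)) =
            (m + 1) * (Y ^ q * (1 / (w : ℝ) ^ D) ^ κ) := by
          rw [hq, pow_add]; ring
        rw [e1, hY, mul_pow, hnr, ← pow_mul, ← pow_mul, one_div_pow, ← pow_mul]
        have e2 : D * κ = 2 * D * (c * q) + D := by rw [hκ]; ring
        rw [e2, pow_add]
        refine aux2 ?_ ?_ <;> positivity
      have t34 := hinv ((A + 1) ^ q * (m + 1)) (by positivity)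
      linarith
    linarith
  · -- dense inputs
    have t1 : (m : ℝ) * (B * (1 - (1 / (w : ℝ)) ^ (2 * κ)) ^ s) +
        (S + B) * (1 - (1 / (β : ℝ)) ^ (u * u)) ^ s < 1 / 4 := by
      have t11 : (1 - (1 / (w : ℝ)) ^ (2 * κ)) ^ s ≤ Real.exp (-(w : ℝ)) := by
        apply exp_bound hw1'
        rw [hs, ← pow_succ]
        exact Nat.pow_le_pow_right hw1' hDκ
      have t12 : (1 - (1 / (β : ℝ)) ^ (u * u)) ^ s ≤ Real.exp (-(w : ℝ)) := by
        apply exp_bound hβ1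
        rw [hs, hβ, ← pow_mul, ← pow_succ, hD]
      have hexp0 := Real.exp_pos (-(w : ℝ))
      have t13 : (m : ℝ) * (B * (1 - (1 / (w : ℝ)) ^ (2 * κ)) ^ s) ≤
          m * (B * Real.exp (-(w : ℝ))) :=
        mul_le_mul_of_nonneg_left (mul_le_mul_of_nonneg_left t11 (by linarith))
          (Nat.cast_nonneg _)
      have t14 : ((S : ℝ) + B) * (1 - (1 / (β : ℝ)) ^ (u * u)) ^ s ≤
          (2 * B) * Real.exp (-(w : ℝ)) := by
        refine (mul_le_mul_of_nonneg_left t12 (by positivity)).trans ?_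
        exact mul_le_mul_of_nonneg_right (by linarith) hexp0.le
      have t15 : (m : ℝ) * (B * Real.exp (-(w : ℝ))) + (2 * B) * Real.exp (-(w : ℝ)) =
          (m + 2) * Bc * ((w : ℝ) ^ (2 * D * (c * (2 * m + 1))) * Real.exp (-(w : ℝ))) := by
        rw [hBw]; ring
      linarith
    have t2 : (m : ℝ) * ((n : ℝ) ^ (2 * m) * (1 / (w : ℝ)) ^ (n - κ)) +
        (n : ℝ) ^ H * ((n : ℝ) ^ (2 * m) *
          (1 / (w : ℝ) + (n : ℝ) * (1 / (β : ℝ)) ^ H) ^ (n - κ)) < 1 / 4 := by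
      have t21 : (1 / (w : ℝ)) ^ (n - κ) ≤ (1 / 2) ^ w := by
        calc (1 / (w : ℝ)) ^ (n - κ) ≤ (1 / 2) ^ (n - κ) :=
              pow_le_pow_left₀ (by positivity) (by linarith) _
          _ ≤ (1 / 2) ^ w := pow_le_pow_of_le_one (by norm_num) (by norm_num) hnκ
      have t22 : (1 / (w : ℝ) + (n : ℝ) * (1 / (β : ℝ)) ^ H) ^ (n - κ) ≤ (1 / 2) ^ w := by
        calc (1 / (w : ℝ) + (n : ℝ) * (1 / (β : ℝ)) ^ H) ^ (n - κ) ≤ (1 / 2) ^ (n - κ) :=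
              pow_le_pow_left₀ (by positivity) hhalf _
          _ ≤ (1 / 2) ^ w := pow_le_pow_of_le_one (by norm_num) (by norm_num) hnκ
      have t23 : (m : ℝ) * ((n : ℝ) ^ (2 * m) * (1 / (w : ℝ)) ^ (n - κ)) ≤
          m * ((n : ℝ) ^ (H + 2 * m) * (1 / 2) ^ w) := by
        apply mul_le_mul_of_nonneg_left _ (Nat.cast_nonneg _)
        exact mul_le_mul (pow_le_pow_right₀ hn1r (by omega)) t21 (by positivity) (by positivity)
      have t24 : (n : ℝ) ^ H * ((n : ℝ) ^ (2 * m) *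
          (1 / (w : ℝ) + (n : ℝ) * (1 / (β : ℝ)) ^ H) ^ (n - κ)) ≤
          (n : ℝ) ^ (H + 2 * m) * (1 / 2) ^ w := by
        rw [pow_add, mul_assoc]
        apply mul_le_mul_of_nonneg_left _ (by positivity)
        exact mul_le_mul_of_nonneg_left t22 (by positivity)
      have t25 : (m : ℝ) * ((n : ℝ) ^ (H + 2 * m) * (1 / 2) ^ w) +
          (n : ℝ) ^ (H + 2 * m) * (1 / 2) ^ w =
          (m + 1) * ((w : ℝ) ^ (2 * D * (H + 2 * m)) * (1 / 2) ^ w) := by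
        rw [hnr, ← pow_mul]; ring
      linarith
    linarith

end

end Pool.Agent.H68MT
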