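import Pool.Agent.H68MT.Core2
import Pool.Agent.H68MT.Final

set_option linter.unusedSectionVars false

/-! The even levels: choice of the parameters. -/

namespace Pool.Agent.H68MT

open Finset Classical Filter Topology
open Pool.Agent.H592R2

noncomputable section

/-- monotone reductions from formulas with `2 * m + 4` levels to formulas with `2 * m + 3` levels -/
def MonRed2 (m d : ℕ) (h : ℕ → ℕ) : Prop :=
  ∃ (c : ℕ) (f g : ℕ → ℕ), ∀ k n : ℕ, ∃ (S N L w : ℕ)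
    (C : Circuit (E2 n m) S)
    (out : Path (Fin L) (m + 1) → Finset (Fin N × Bool) → Fin S),
    S ≤ f k * (n + 1) ^ c ∧ N ≤ f k * (n + 1) ^ c ∧ L ≤ f k * (n + 1) ^ c ∧ w ≤ g k ∧
    ∀ x : E2 n m → Bool,
      (Sat2 k x → Sat3 d w (fun π cl => C.eval x (out π cl))) ∧
      (Sat3 d w (fun π cl => C.eval x (out π cl)) → Sat2 (h k) x)

theorem no_mono2 (m d : ℕ) (h : ℕ → ℕ) : ¬ MonRed2 m d h := by
  rintro ⟨c, f, g, hR⟩
  obtain ⟨e, he⟩ : ∃ e, e = c * (2 * m + 2) + 2 * c * d := ⟨_, rfl⟩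
  obtain ⟨k, hk⟩ : ∃ k, k = e + 1 := ⟨_, rfl⟩
  obtain ⟨H, hH⟩ : ∃ H, H = h k := ⟨_, rfl⟩
  obtain ⟨G, hG⟩ : ∃ G, G = g k := ⟨_, rfl⟩
  obtain ⟨q, hq⟩ : ∃ q, q = G + (2 * m + 1) := ⟨_, rfl⟩
  obtain ⟨κ, hκ⟩ : ∃ κ, κ = 2 * (c * q) + 1 := ⟨_, rfl⟩
  obtain ⟨D, hD⟩ : ∃ D, D = (2 * κ + 1) + (4 * H + 1) := ⟨_, rfl⟩
  obtain ⟨A, hA⟩ : ∃ A : ℝ, A = (f k : ℝ) * 2 ^ c := ⟨_, rfl⟩
  obtain ⟨Bc, hBc⟩ : ∃ Bc : ℝ, Bc = (A + 1) ^ (2 * m + 1) := ⟨_, rfl⟩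
  obtain ⟨Pc, hPc⟩ : ∃ Pc : ℝ, Pc = (A + 1) ^ (2 * m + 2) := ⟨_, rfl⟩
  obtain ⟨B0, hB0⟩ : ∃ B0 : ℝ, B0 = (3 * (A + 1) ^ 2) ^ d := ⟨_, rfl⟩
  obtain ⟨s, hs⟩ : ∃ s, s = D * (c * (2 * m + 1)) + 1 := ⟨_, rfl⟩
  obtain ⟨Λ, hΛ⟩ : ∃ Λ : ℕ, Λ = (2 * (G + 1) ^ 2 + 1) ^ d := ⟨_, rfl⟩
  obtain ⟨K0, hK0⟩ : ∃ K0 : ℝ, K0 = (s : ℝ) * (k : ℝ) ^ s := ⟨_, rfl⟩
  obtain ⟨ρ, hρ⟩ : ∃ ρ : ℝ, ρ = 1 - (1 / (k : ℝ)) ^ s := ⟨_, rfl⟩
  have hA0 : 0 ≤ A := by rw [hA]; positivity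
  have hBc0 : 0 ≤ Bc := by rw [hBc]; positivity
  have hPc0 : 0 ≤ Pc := by rw [hPc]; positivity
  have hB00 : 0 ≤ B0 := by rw [hB0]; positivity
  have hK00 : 0 ≤ K0 := by rw [hK0]; positivity
  have hk1 : 1 ≤ k := by omega
  have hk0 : (0 : ℝ) < k := by exact_mod_cast hk1
  have hk1r : (1 : ℝ) ≤ k := by exact_mod_cast hk1
  have hs1 : 1 ≤ s := by omega
  have hδ1 : (1 / (k : ℝ)) ^ s ≤ 1 :=
    pow_le_one₀ (by positivity) (by rw [div_le_one hk0]; exact hk1r)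
  have hδ0 : 0 < (1 / (k : ℝ)) ^ s := by positivity
  have hρ0 : 0 ≤ ρ := by rw [hρ]; linarith
  have hρ1 : ρ < 1 := by rw [hρ]; linarith
  have hΛ1 : 1 ≤ Λ := by rw [hΛ]; exact Nat.one_le_pow _ _ (by omega)
  have hDκ : 2 * κ + 1 ≤ D := by omega
  have hD1 : 1 ≤ D := by omega
  obtain ⟨w, hw1, hw2, hw3, hw4, hw5, hw6, hw7, hw8, hw9, hw10, hw11, hw12⟩ :=
    ((ev_div ((k * k : ℕ) : ℝ) (1 / 6) (by norm_num)).and
    ((ev_div ((A + Pc * B0) * K0 ^ k) (1 / 6) (by norm_num)).and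
    ((ev_pow_mul ((A + Pc * B0) * k) ρ (1 / 6) (2 * D * e) hρ0 hρ1 (by norm_num)).and
    ((ev_div ((A + 1) ^ q * (m + 1)) (1 / 3) (by norm_num)).and
    ((ev_exp (m * Bc) (1 / 4) (2 * D * (c * (2 * m + 1))) (by norm_num)).and
    ((ev_div (2 * Bc * (Λ : ℝ) ^ s) (1 / 4) (by norm_num)).and
    ((ev_pow_mul (m + 1) (1 / 2) (1 / 4) (2 * D * (2 * m + 2)) (by norm_num) (by norm_num)
      (by norm_num)).and
    ((ev_exp 1 (1 / 4) (2 * D * (H + (2 * m + 2))) (by norm_num)).and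
    ((eventually_ge_atTop 4).and ((eventually_ge_atTop κ).and
    ((eventually_ge_atTop (s * k)).and (eventually_ge_atTop ⌈K0⌉₊)))))))))))).exists
  have hw1' : 1 ≤ w := by omega
  have hwr : (1 : ℝ) ≤ w := by exact_mod_cast hw1'
  have hw4r : (4 : ℝ) ≤ w := by exact_mod_cast hw9
  have hw0 : (0 : ℝ) < w := by linarith
  obtain ⟨n, hn⟩ : ∃ n, n = w ^ (2 * D) := ⟨_, rfl⟩
  obtain ⟨b, hb'⟩ : ∃ b, b = w ^ 4 := ⟨_, rfl⟩
  obtain ⟨sl, hsl⟩ : ∃ sl, sl = w ^ D := ⟨_, rfl⟩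
  have hn1 : 1 ≤ n := by rw [hn]; exact Nat.one_le_pow _ _ hw1'
  have hb1 : 1 ≤ b := by rw [hb']; exact Nat.one_le_pow _ _ hw1'
  have hnsq : w * w ≤ n := by
    rw [hn, ← pow_two]
    exact Nat.pow_le_pow_right hw1' (by omega)
  have hwn : w ≤ n := le_trans (Nat.le_mul_of_pos_left w hw1') hnsq
  have hnκ : w ≤ n - κ := by
    have : 2 * w ≤ w * w := Nat.mul_le_mul_right _ (by omega)
    omega
  have hwsl : w ≤ sl := by
    rw [hsl]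
    calc w = w ^ 1 := (pow_one w).symm
      _ ≤ w ^ D := Nat.pow_le_pow_right hw1' hD1
  have hnr : (n : ℝ) = (w : ℝ) ^ (2 * D) := by rw [hn]; push_cast; rfl
  have hslr : (sl : ℝ) = (w : ℝ) ^ D := by rw [hsl]; push_cast; rfl
  have hbr : (b : ℝ) = (w : ℝ) ^ 4 := by rw [hb']; push_cast; rfl
  have hn1r : (1 : ℝ) ≤ n := by exact_mod_cast hn1
  have hn0 : (0 : ℝ) < n := by linarith
  have hwnr : (w : ℝ) ≤ n := by exact_mod_cast hwn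
  have hwD : (w : ℝ) ≤ (w : ℝ) ^ D := by
    calc (w : ℝ) = (w : ℝ) ^ 1 := (pow_one _).symm
      _ ≤ _ := pow_le_pow_right₀ hwr hD1
  have : NeZero n := ⟨by omega⟩
  have : NeZero w := ⟨by omega⟩
  have : NeZero b := ⟨by omega⟩
  have : NeZero k := ⟨by omega⟩
  obtain ⟨S, Nv, L, wt, C, out, hS, hNv, hL, hwt, hred⟩ := hR k n
  have hpow : ((n : ℝ) + 1) ^ c ≤ 2 ^ c * (n : ℝ) ^ c := by
    rw [← mul_pow]
    exact pow_le_pow_left₀ (by positivity) (by linarith) c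
  have hb : ∀ x : ℕ, x ≤ f k * (n + 1) ^ c → (x : ℝ) ≤ A * (n : ℝ) ^ c := by
    intro x hx
    have h1 : (x : ℝ) ≤ (f k : ℝ) * ((n : ℝ) + 1) ^ c := by exact_mod_cast hx
    refine h1.trans ?_
    rw [hA, mul_assoc]
    exact mul_le_mul_of_nonneg_left hpow (Nat.cast_nonneg _)
  have hSr := hb S hS
  have hNr := hb Nv hNv
  have hLr := hb L hL
  obtain ⟨Y, hY⟩ : ∃ Y : ℝ, Y = (A + 1) * (n : ℝ) ^ c := ⟨_, rfl⟩
  have hnc1 : (1 : ℝ) ≤ (n : ℝ) ^ c := one_le_pow₀ hn1r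
  have hY' : Y = A * (n : ℝ) ^ c + (n : ℝ) ^ c := by rw [hY]; ring
  have hAn : 0 ≤ A * (n : ℝ) ^ c := mul_nonneg hA0 (by positivity)
  have hY1 : 1 ≤ Y := by
    rw [hY']
    exact hnc1.trans (le_add_of_nonneg_left hAn)
  have hAY : A * (n : ℝ) ^ c ≤ Y := by
    rw [hY']
    exact le_add_of_nonneg_right (by positivity)
  have hN1Y : (Nv : ℝ) + 1 ≤ Y := by
    rw [hY']
    exact add_le_add hNr hnc1
  obtain ⟨B, hB⟩ : ∃ B : ℝ, B = Y ^ (2 * m + 1) := ⟨_, rfl⟩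
  have hB1 : 1 ≤ B := by rw [hB]; exact one_le_pow₀ hY1
  have hBw : B = Bc * (w : ℝ) ^ (2 * D * (c * (2 * m + 1))) := by
    have e0 : (((w : ℝ) ^ (2 * D)) ^ c) ^ (2 * m + 1) = (w : ℝ) ^ (2 * D * (c * (2 * m + 1))) := by
      ring
    rw [hB, hY, hBc, mul_pow, hnr, e0]
  have hLY : (L : ℝ) ≤ Y := hLr.trans hAY
  have hSB : (S : ℝ) ≤ B := by
    refine hSr.trans (hAY.trans ?_)
    rw [hB]
    calc Y = Y ^ 1 := (pow_one _).symm
      _ ≤ _ := pow_le_pow_right₀ hY1 (by omega)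
  have hcodes : (((2 * (Nv + 1) ^ 2 + 1) ^ d : ℕ) : ℝ) ≤ B0 * (n : ℝ) ^ (2 * c * d) := by
    push_cast
    have h1 : ((Nv : ℝ) + 1) ^ 2 ≤ Y ^ 2 := pow_le_pow_left₀ (by positivity) hN1Y 2
    have h2 : (1 : ℝ) ≤ Y ^ 2 := one_le_pow₀ hY1
    calc (2 * ((Nv : ℝ) + 1) ^ 2 + 1) ^ d ≤ (3 * Y ^ 2) ^ d :=
          pow_le_pow_left₀ (by positivity) (by linarith) d
      _ = (3 * (A + 1) ^ 2) ^ d * (n : ℝ) ^ (2 * c * d) := by
          rw [hY, mul_pow (A + 1), ← mul_assoc, mul_pow]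
          congr 1
          rw [← pow_mul, ← pow_mul]
          congr 1
          ring
      _ = B0 * (n : ℝ) ^ (2 * c * d) := by rw [hB0]
  have htot : (S : ℝ) + Y ^ (2 * m + 2) * (((2 * (Nv + 1) ^ 2 + 1) ^ d : ℕ) : ℝ) ≤
      (A + Pc * B0) * (n : ℝ) ^ e := by
    have h1 : (S : ℝ) ≤ A * (n : ℝ) ^ e := by
      refine hSr.trans (mul_le_mul_of_nonneg_left (pow_le_pow_right₀ hn1r ?_) hA0)
      rw [he]
      have h9 : c * 1 ≤ c * (2 * m + 2) := Nat.mul_le_mul_left _ (by omega)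
      omega
    have h2 : Y ^ (2 * m + 2) * (((2 * (Nv + 1) ^ 2 + 1) ^ d : ℕ) : ℝ) ≤
        Y ^ (2 * m + 2) * (B0 * (n : ℝ) ^ (2 * c * d)) :=
      mul_le_mul_of_nonneg_left hcodes (by positivity)
    have h3 : Y ^ (2 * m + 2) * (B0 * (n : ℝ) ^ (2 * c * d)) = Pc * B0 * (n : ℝ) ^ e := by
      rw [hY, mul_pow, ← hPc, he, pow_add, pow_mul]
      ring
    have h4 : (A + Pc * B0) * (n : ℝ) ^ e = A * (n : ℝ) ^ e + Pc * B0 * (n : ℝ) ^ e := by ring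
    linarith
  have hsn : (sl : ℝ) / n = 1 / (w : ℝ) ^ D := by
    rw [hslr, hnr, div_eq_div_iff (by positivity) (by positivity), one_mul, ← pow_add]
    congr 1
    ring
  have hinv : ∀ Z : ℝ, 0 ≤ Z → Z / (w : ℝ) ^ D ≤ Z / w := fun Z hZ =>
    div_le_div_of_nonneg_left hZ hw0 hwD
  have hssl : s ≤ sl := by
    have : s * 1 ≤ s * k := Nat.mul_le_mul_left _ hk1
    omega
  refine core2 (k := k) (N := w) (b := b) (s := s) (sl := sl) (r := w ^ 2) (u := w) (κ := κ)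
    (H := H) (wt := wt) (Λ := Λ) (Mc := (2 * (Nv + 1) ^ 2 + 1) ^ d) (B := B)
    (M := (n : ℝ) ^ (2 * m + 2)) (P := Y ^ (2 * m + 2)) C out hs1 hssl ?_ hΛ1 ?_ ?_ le_rfl hB1
    ?_ ?_ ?_ ?_ ?_ ?_ (fun x => (hred x).1) (fun x hx => hH ▸ (hred x).2 hx)
  · calc s * w * k = (s * k) * w := by ring
      _ ≤ w * w := Nat.mul_le_mul_right _ hw11
      _ = w ^ 2 := by ring
  · rw [← hK0, div_le_one hn0]
    calc K0 ≤ (⌈K0⌉₊ : ℝ) := Nat.le_ceil _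
      _ ≤ w := by exact_mod_cast hw12
      _ ≤ n := hwnr
  · rw [hΛ]
    apply Nat.pow_le_pow_left
    have h3 := Nat.pow_le_pow_left (Nat.add_le_add_right (hG ▸ hwt : wt ≤ G) 1) 2
    exact Nat.add_le_add_right (Nat.mul_le_mul_left 2 h3) 1
  · intro i hi
    rw [card_path, Fintype.card_fin]
    push_cast
    calc (L : ℝ) ^ (2 * i) ≤ Y ^ (2 * i) := pow_le_pow_left₀ (Nat.cast_nonneg _) hLY _
      _ ≤ Y ^ (2 * m + 1) := pow_le_pow_right₀ hY1 (by omega)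
      _ = B := hB.symm
  · intro i hi
    rw [Fintype.card_prod, card_path, Fintype.card_fin]
    push_cast
    calc (L : ℝ) ^ (2 * i) * L = (L : ℝ) ^ (2 * i + 1) := by ring
      _ ≤ Y ^ (2 * i + 1) := pow_le_pow_left₀ (Nat.cast_nonneg _) hLY _
      _ ≤ Y ^ (2 * m + 1) := pow_le_pow_right₀ hY1 (by omega)
      _ = B := hB.symm
  · rw [card_path, Fintype.card_fin]
    push_cast
    calc (L : ℝ) ^ (2 * (m + 1)) ≤ Y ^ (2 * (m + 1)) :=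
          pow_le_pow_left₀ (Nat.cast_nonneg _) hLY _
      _ = Y ^ (2 * m + 2) := by ring
  · intro i hi
    rw [card_path, Fintype.card_fin]
    push_cast
    exact pow_le_pow_right₀ hn1r (by omega)
  · -- sparse inputs
    have t1 : ((k * k : ℕ) : ℝ) / n < 1 / 6 := by
      refine lt_of_le_of_lt ?_ hw1
      exact div_le_div_of_nonneg_left (Nat.cast_nonneg _) hw0 hwnr
    have t2 : ((S : ℝ) + Y ^ (2 * m + 2) * (((2 * (Nv + 1) ^ 2 + 1) ^ d : ℕ) : ℝ)) *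
        (((s : ℝ) * (k : ℝ) ^ s / n) ^ k + k * (1 - (1 / (k : ℝ)) ^ s) ^ w) < 1 / 3 := by
      rw [← hK0, ← hρ]
      have h0 : 0 ≤ (K0 / n) ^ k + k * ρ ^ w := by positivity
      refine lt_of_le_of_lt (mul_le_mul_of_nonneg_right htot h0) ?_
      have h1 : (A + Pc * B0) * (n : ℝ) ^ e * ((K0 / n) ^ k + k * ρ ^ w) =
          (A + Pc * B0) * K0 ^ k / n + (A + Pc * B0) * k * ((n : ℝ) ^ e * ρ ^ w) := by
        rw [div_pow, mul_add]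
        congr 1
        · rw [hk, pow_succ (n : ℝ) e]
          field_simp
        · ring
      rw [h1]
      have h2 : (A + Pc * B0) * K0 ^ k / n ≤ (A + Pc * B0) * K0 ^ k / w :=
        div_le_div_of_nonneg_left (by positivity) hw0 hwnr
      have h3 : (n : ℝ) ^ e = (w : ℝ) ^ (2 * D * e) := by rw [hnr, ← pow_mul]
      rw [h3]
      linarith
    have t3 : (Nv : ℝ) ^ wt * ((m + 1) * (B * ((sl : ℝ) / n) ^ κ)) < 1 / 3 := by
      have t31 : (Nv : ℝ) ^ wt ≤ Y ^ G := by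
        calc (Nv : ℝ) ^ wt ≤ Y ^ wt := pow_le_pow_left₀ (Nat.cast_nonneg _) (hNr.trans hAY) _
          _ ≤ Y ^ G := pow_le_pow_right₀ hY1 (hG ▸ hwt)
      have t32 : (Nv : ℝ) ^ wt * ((m + 1) * (B * ((sl : ℝ) / n) ^ κ)) ≤
          Y ^ G * ((m + 1) * (B * ((sl : ℝ) / n) ^ κ)) :=
        mul_le_mul_of_nonneg_right t31 (by positivity)
      have t33 : Y ^ G * ((m + 1) * (B * ((sl : ℝ) / n) ^ κ)) =
          (A + 1) ^ q * (m + 1) / (w : ℝ) ^ D := by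
        rw [hsn, hB]
        have e1 : Y ^ G * ((m + 1) * (Y ^ (2 * m + 1) * (1 / (w : ℝ) ^ D) ^ κ)) =
            (m + 1) * (Y ^ q * (1 / (w : ℝ) ^ D) ^ κ) := by
          rw [hq, pow_add]; ring
        rw [e1, hY, mul_pow, hnr, ← pow_mul, ← pow_mul, one_div_pow, ← pow_mul]
        have e2 : D * κ = 2 * D * (c * q) + D := by rw [hκ]; ring
        rw [e2, pow_add]
        refine aux2 ?_ ?_ <;> positivity
      have t34 := hinv ((A + 1) ^ q * (m + 1)) (by positivity)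
      linarith
    linarith
  · -- dense inputs
    have hexp0 := Real.exp_pos (-(w : ℝ))
    have t1 : (m : ℝ) * (B * (1 - (1 / (w : ℝ)) ^ (2 * κ)) ^ sl) < 1 / 4 := by
      have t11 : (1 - (1 / (w : ℝ)) ^ (2 * κ)) ^ sl ≤ Real.exp (-(w : ℝ)) := by
        apply exp_bound hw1'
        rw [hsl, ← pow_succ]
        exact Nat.pow_le_pow_right hw1' hDκ
      have t13 : (m : ℝ) * (B * (1 - (1 / (w : ℝ)) ^ (2 * κ)) ^ sl) ≤
          m * (B * Real.exp (-(w : ℝ))) :=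
        mul_le_mul_of_nonneg_left (mul_le_mul_of_nonneg_left t11 (by linarith))
          (Nat.cast_nonneg _)
      have t15 : (m : ℝ) * (B * Real.exp (-(w : ℝ))) =
          m * Bc * ((w : ℝ) ^ (2 * D * (c * (2 * m + 1))) * Real.exp (-(w : ℝ))) := by
        rw [hBw]; ring
      linarith
    have t2 : ((S : ℝ) + B) * (((Λ * w ^ 2 : ℕ) : ℝ) / b) ^ s < 1 / 4 := by
      have h2 : ((Λ * w ^ 2 : ℕ) : ℝ) / b = Λ / (w : ℝ) ^ 2 := by
        rw [hbr]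
        push_cast
        field_simp
      rw [h2]
      have h3 : ((S : ℝ) + B) * (Λ / (w : ℝ) ^ 2) ^ s ≤ 2 * B * (Λ / (w : ℝ) ^ 2) ^ s :=
        mul_le_mul_of_nonneg_right (by linarith) (by positivity)
      have h4 : 2 * B * (Λ / (w : ℝ) ^ 2) ^ s = 2 * Bc * (Λ : ℝ) ^ s / (w : ℝ) ^ 2 := by
        rw [hBw, div_pow, ← pow_mul]
        have h5 : 2 * s = 2 * D * (c * (2 * m + 1)) + 2 := by rw [hs]; ring
        rw [h5, pow_add]
        field_simp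
      have hw2' : (w : ℝ) ≤ (w : ℝ) ^ 2 := by
        calc (w : ℝ) = (w : ℝ) ^ 1 := (pow_one _).symm
          _ ≤ _ := pow_le_pow_right₀ hwr (by norm_num)
      have h6 : 2 * Bc * (Λ : ℝ) ^ s / (w : ℝ) ^ 2 ≤ 2 * Bc * (Λ : ℝ) ^ s / w :=
        div_le_div_of_nonneg_left (by positivity) hw0 hw2'
      linarith
    have t3 : ((m + 1 : ℕ) : ℝ) * ((n : ℝ) ^ (2 * m + 2) * (1 / (w : ℝ)) ^ (n - κ)) < 1 / 4 := by
      have h1w : 1 / (w : ℝ) ≤ 1 / 4 := one_div_le_one_div_of_le (by norm_num) hw4r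
      have t21 : (1 / (w : ℝ)) ^ (n - κ) ≤ (1 / 2) ^ w := by
        calc (1 / (w : ℝ)) ^ (n - κ) ≤ (1 / 2) ^ (n - κ) :=
              pow_le_pow_left₀ (by positivity) (by linarith) _
          _ ≤ (1 / 2) ^ w := pow_le_pow_of_le_one (by norm_num) (by norm_num) hnκ
      have t22 : ((m + 1 : ℕ) : ℝ) * ((n : ℝ) ^ (2 * m + 2) * (1 / (w : ℝ)) ^ (n - κ)) ≤
          (m + 1) * ((n : ℝ) ^ (2 * m + 2) * (1 / 2) ^ w) := by
        push_cast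
        apply mul_le_mul_of_nonneg_left _ (by positivity)
        exact mul_le_mul_of_nonneg_left t21 (by positivity)
      have t25 : ((m : ℝ) + 1) * ((n : ℝ) ^ (2 * m + 2) * (1 / 2) ^ w) =
          (m + 1) * ((w : ℝ) ^ (2 * D * (2 * m + 2)) * (1 / 2) ^ w) := by
        rw [hnr, ← pow_mul]
      linarith
    have t4 : (n : ℝ) ^ H * ((n : ℝ) ^ (2 * m + 2) * (1 - (1 / (b : ℝ)) ^ H) ^ n) < 1 / 4 := by
      have t41 : (1 - (1 / (b : ℝ)) ^ H) ^ n ≤ Real.exp (-(w : ℝ)) := by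
        apply exp_bound hb1
        rw [hn, hb', ← pow_mul, ← pow_succ]
        exact Nat.pow_le_pow_right hw1' (by omega)
      have t42 : (n : ℝ) ^ H * ((n : ℝ) ^ (2 * m + 2) * (1 - (1 / (b : ℝ)) ^ H) ^ n) ≤
          (n : ℝ) ^ H * ((n : ℝ) ^ (2 * m + 2) * Real.exp (-(w : ℝ))) :=
        mul_le_mul_of_nonneg_left (mul_le_mul_of_nonneg_left t41 (by positivity)) (by positivity)
      have t43 : (n : ℝ) ^ H * ((n : ℝ) ^ (2 * m + 2) * Real.exp (-(w : ℝ))) =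
          1 * ((w : ℝ) ^ (2 * D * (H + (2 * m + 2))) * Real.exp (-(w : ℝ))) := by
        rw [one_mul, ← mul_assoc, ← pow_add, hnr, ← pow_mul]
      linarith
    linarith

end

end Pool.Agent.H68MT
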