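import Pool.Agent.H68MT.AllDefs
import Pool.Agent.H68MT.Final2

/-! All levels. -/

namespace Pool.Agent.H68MT.All

open Finset Classical

noncomputable section

section map

variable {E E' : Type} {S : ℕ}

/-- relabelling the input bits of a gate -/
def gmap (φ : E' → E) {i : ℕ} : Gate E' i → Gate E i
  | .input e => .input (φ e)
  | .const v => .const v
  | .and a b => .and a b
  | .or a b => .or a b

/-- relabelling the input bits of a circuit -/
def cmap (φ : E' → E) (C : Circuit E' S) : Circuit E S := fun i => gmap φ (C i)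

lemma eval_cmap (φ : E' → E) (C : Circuit E' S) (x : E → Bool) (i : Fin S) :
    (cmap φ C).eval x i = C.eval (fun e => x (φ e)) i := by
  obtain ⟨i, hi⟩ := i
  induction i using Nat.strong_induction_on with
  | _ i ih =>
    rw [Circuit.eval, Circuit.eval]
    unfold cmap
    rcases hC : C ⟨i, hi⟩ with e | v | ⟨a, b⟩ | ⟨a, b⟩
    · rfl
    · rfl
    · have ha := ih a a.2 (a.2.trans hi)
      have hb := ih b b.2 (b.2.trans hi)
      simp only [gmap]
      exact congrArg₂ _ ha hb
    · have ha := ih a a.2 (a.2.trans hi)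
      have hb := ih b b.2 (b.2.trans hi)
      simp only [gmap]
      exact congrArg₂ _ ha hb

end map

section alt

variable {I : Type}

/-- pairing -/
def toSeq : (j : ℕ) → Path I j → Seq I (2 * j)
  | 0, _ => ()
  | j + 1, w => ((toSeq j w.1, w.2.1), w.2.2)

def ofSeq : (j : ℕ) → Seq I (2 * j) → Path I j
  | 0, _ => ()
  | j + 1, w => (ofSeq j w.1.1, w.1.2, w.2)

lemma alt_one (j : ℕ) (P : Seq I (2 * j + 1) → Prop) :
    Alt (2 * j + 1) P = Alt (2 * j) (fun π => ∀ u, P (π, u)) := by
  have h : Even (2 * j) := even_two_mul j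
  show Alt (2 * j) (fun π => if Even (2 * j) then ∀ u, P (π, u) else ∃ u, P (π, u)) = _
  simp only [h, if_true]

lemma alt_two (j : ℕ) (P : Seq I (2 * (j + 1)) → Prop) :
    Alt (2 * (j + 1)) P = Alt (2 * j) (fun π => ∀ u, ∃ u', P ((π, u), u')) := by
  have h : ¬ Even (2 * j + 1) := by
    rw [Nat.not_even_iff_odd]
    exact odd_two_mul_add_one j
  show Alt (2 * j + 1) (fun π => if Even (2 * j + 1) then ∀ u, P (π, u) else ∃ u, P (π, u)) = _
  simp only [h, if_false]
  rw [alt_one]

lemma alt_of (j : ℕ) (P : Path I j → Prop) :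
    Alt (2 * j) (fun w => P (ofSeq j w)) ↔ val j P := by
  induction j with
  | zero => exact Iff.rfl
  | succ j ih =>
    rw [alt_two]
    exact ih (fun π => ∀ u, ∃ u', P (π, u, u'))

lemma alt_to (j : ℕ) (Q : Seq I (2 * j) → Prop) :
    Alt (2 * j) Q ↔ val j (fun π => Q (toSeq j π)) := by
  induction j with
  | zero => exact Iff.rfl
  | succ j ih =>
    rw [alt_two]
    exact ih (fun π => ∀ u, ∃ u', Q ((π, u), u'))

end alt

lemma source_odd {n m k : ℕ} (x : Ei n m → Bool) :
    Source (l := 2 * (m + 1)) k (fun e => x (ofSeq (m + 1) e.1, e.2)) ↔ Sat1 k x := by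
  unfold Source Sat1
  have h : Even (2 * (m + 1)) := even_two_mul _
  simp only [h, if_true]
  refine exists_congr fun T => and_congr_right fun _ => ?_
  exact alt_of (m + 1) (fun w => ∀ v ∈ T, x (w, v) = true)

lemma source_even {n m k : ℕ} (x : E2 n m → Bool) :
    Source (l := 2 * (m + 1) + 1) k (fun e => x (ofSeq (m + 1) e.1.1, e.1.2, e.2)) ↔ Sat2 k x := by
  unfold Source Sat2
  have h : ¬ Even (2 * (m + 1) + 1) := by
    rw [Nat.not_even_iff_odd]
    exact odd_two_mul_add_one _
  simp only [h, if_false]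
  refine exists_congr fun T => and_congr_right fun _ => ?_
  rw [alt_one]
  exact alt_of (m + 1) (fun w => ∀ c, ∃ v ∈ T, x (w, c, v) = true)

lemma target_odd {N L m d k : ℕ} (occ : Seq (Fin L) (2 * m + 1) → Finset (Fin N × Bool) → Bool) :
    Target d k occ ↔ Sat0 d k (fun π u cl => occ (toSeq m π, u) cl) := by
  unfold Target Sat0
  have h : ¬ Even (2 * m + 1) := by
    rw [Nat.not_even_iff_odd]
    exact odd_two_mul_add_one _
  simp only [h, if_false]
  refine exists_congr fun T => and_congr_right fun _ => ?_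
  rw [alt_one, alt_to]

lemma target_even {N L m d k : ℕ}
    (occ : Seq (Fin L) (2 * (m + 1)) → Finset (Fin N × Bool) → Bool) :
    Target d k occ ↔ Sat3 d k (fun π cl => occ (toSeq (m + 1) π) cl) := by
  unfold Target Sat3
  have h : Even (2 * (m + 1)) := even_two_mul _
  simp only [h, if_true]
  refine exists_congr fun T => and_congr_right fun _ => ?_
  rw [alt_to]
  have hQ : (fun π : Path (Fin L) (m + 1) => ∀ cl : Finset (Fin N × Bool), cl.card ≤ d →
      occ (toSeq (m + 1) π) cl = false → ∃ a ∈ cl, (a.1 ∈ T ↔ a.2 = true)) =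
      (fun π => ∀ cl : Finset (Fin N × Bool), cl.card ≤ d →
      (occ (toSeq (m + 1) π) cl = true ∨ ∃ l ∈ cl, (l.1 ∈ T ↔ l.2 = true))) := by
    funext π
    apply propext
    refine forall_congr' fun cl => forall_congr' fun _ => ?_
    rw [← Bool.not_eq_true, or_iff_not_imp_left]
  rw [hQ]

theorem no_reduction (t d : ℕ) (ht : 1 ≤ t) (h : ℕ → ℕ) (hh : ∀ K, ∃ k, K ≤ h k) :
    ¬ Reduction t d h := by
  rintro ⟨c, f, g, hR⟩
  obtain ⟨m, hm | hm⟩ : ∃ m, t = 2 * m + 1 ∨ t = 2 * (m + 1) := by
    rcases Nat.even_or_odd' t with ⟨m, hm | hm⟩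
    · exact ⟨m - 1, Or.inr (by omega)⟩
    · exact ⟨m, Or.inl hm⟩
  · subst hm
    refine no_mono m d h hh ⟨c, f, g, fun k n => ?_⟩
    obtain ⟨S, N, L, w, C, out, h1, h2, h3, h4, h5⟩ := hR k n
    refine ⟨S, N, L, w, cmap (fun e => (ofSeq (m + 1) e.1, e.2)) C,
      fun π u cl => out (toSeq m π, u) cl, h1, h2, h3, h4, fun x => ?_⟩
    have h6 := h5 (fun e => x (ofSeq (m + 1) e.1, e.2))
    rw [target_odd] at h6
    simp only [eval_cmap]
    rw [← source_odd, ← source_odd (k := h k)]
    exact h6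
  · subst hm
    refine no_mono2 m d h ⟨c, f, g, fun k n => ?_⟩
    obtain ⟨S, N, L, w, C, out, h1, h2, h3, h4, h5⟩ := hR k n
    refine ⟨S, N, L, w, cmap (fun e => (ofSeq (m + 1) e.1.1, e.1.2, e.2)) C,
      fun π cl => out (toSeq (m + 1) π) cl, h1, h2, h3, h4, fun x => ?_⟩
    have h6 := h5 (fun e => x (ofSeq (m + 1) e.1.1, e.1.2, e.2))
    rw [target_even] at h6
    simp only [eval_cmap]
    rw [← source_even, ← source_even (k := h k)]
    exact h6

end

end Pool.Agent.H68MT.All
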