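import Pool.Agent.H68MT.Defs

/-! Weighted satisfiability for alternating formulas with any number of levels, and reductions
computed by monotone circuits. The circuits are defined in `Pool.Agent.H68MT.Defs`. -/

namespace Pool.Agent.H68MT.All

open Finset Classical

noncomputable section

/-- sequences of `l` elements of `I` -/
def Seq (I : Type) : ℕ → Type
  | 0 => Unit
  | l + 1 => Seq I l × I

/-- value of `l` alternating levels of gates, a conjunction on top, where `P` gives the values of
the subformulas below them: for all `u₁` there is `u₂` such that for all `u₃` there is `u₄` such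
that ... `P (u₁, ..., u_l)` -/
def Alt {I : Type} : (l : ℕ) → (Seq I l → Prop) → Prop
  | 0, P => P ()
  | l + 1, P => Alt l (fun π => if Even l then ∀ u, P (π, u) else ∃ u, P (π, u))

/-- `k`-satisfiability of a formula with `l + 1` alternating levels of gates, the topmost being
conjunctions, in the variables `X_v`, `v < n`. All gates above the bottom level have fan-in `n`.
If `l` is even then the bottom gate number `w` is the conjunction of the literals `¬ X_v` with
`x (w, v) = false`, if `l` is odd then it is the disjunction of the literals `X_v` with
`x (w, v) = true`. There is a set `T` of exactly `k` variables such that the assignment whose true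
variables are those in `T` satisfies the formula. -/
def Source {n l : ℕ} (k : ℕ) (x : Seq (Fin n) l × Fin n → Bool) : Prop :=
  ∃ T : Finset (Fin n), T.card = k ∧ Alt l (fun w =>
    if Even l then ∀ v ∈ T, x (w, v) = true else ∃ v ∈ T, x (w, v) = true)

/-- `k`-satisfiability of a formula with `l + 1` alternating levels of gates over clauses of at most
`d` literals, the topmost gates being conjunctions, in the variables `X_v`, `v < N`. All gates above
level `l + 1` have fan-in `L`. The literal `(v, true)` is the variable `X_v` and `(v, false)` is its
negation. If `l` is odd then the gate number `π` of level `l + 1` is the disjunction of the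
conjunctions `cl` of at most `d` literals with `occ π cl = true`, if `l` is even then it is the
conjunction of the disjunctions `cl` of at most `d` literals with `occ π cl = false`. -/
def Target {N L l : ℕ} (d k : ℕ) (occ : Seq (Fin L) l → Finset (Fin N × Bool) → Bool) : Prop :=
  ∃ T : Finset (Fin N), T.card = k ∧ Alt l (fun π =>
    if Even l then ∀ cl : Finset (Fin N × Bool), cl.card ≤ d → occ π cl = false →
      ∃ a ∈ cl, (a.1 ∈ T ↔ a.2 = true)
    else ∃ cl : Finset (Fin N × Bool), cl.card ≤ d ∧ occ π cl = true ∧
      ∀ a ∈ cl, (a.1 ∈ T ↔ a.2 = true))

/-- There is an fpt-reduction, computed by monotone circuits, from weighted satisfiability of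
formulas with `t + 2` levels (`p-WSAT(Γ_{t+2,1})`) to weighted satisfiability of formulas with
`t + 1` levels over clauses of at most `d` literals (`p-WSAT(Γ_{t+1,d})`), for the gap version with
the gap `h`: for all `k` and `n` there are a monotone circuit with at most `f k * (n + 1) ^ c` gates
and a shape of formulas of size at most `f k * (n + 1) ^ c` and a weight at most `g k`, so that the
gates `out` compute from every formula `x` with fan-in `n` a formula which is satisfiable with that
weight if `x` is `k`-satisfiable, and not satisfiable with that weight if `x` is not
`h k`-satisfiable. -/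
def Reduction (t d : ℕ) (h : ℕ → ℕ) : Prop :=
  ∃ (c : ℕ) (f g : ℕ → ℕ), ∀ k n : ℕ, ∃ (S N L w : ℕ)
    (C : Circuit (Seq (Fin n) (t + 1) × Fin n) S)
    (out : Seq (Fin L) t → Finset (Fin N × Bool) → Fin S),
    S ≤ f k * (n + 1) ^ c ∧ N ≤ f k * (n + 1) ^ c ∧ L ≤ f k * (n + 1) ^ c ∧ w ≤ g k ∧
    ∀ x : Seq (Fin n) (t + 1) × Fin n → Bool,
      (Source k x → Target d w (fun π cl => C.eval x (out π cl))) ∧
      (Target d w (fun π cl => C.eval x (out π cl)) → Source (h k) x)

end

end Pool.Agent.H68MT.All
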