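import Pool.Agent.H68MT.Defs

set_option linter.unusedSectionVars false

/-! Approximation of the gates of a monotone circuit by DNFs with small terms. -/

namespace Pool.Agent.H68MT

open Finset Classical

noncomputable section

variable {E : Type} {S : ℕ}

/-- all members of `𝒦` meet `z` -/
def Hit (𝒦 : Set (Finset E)) (z : Finset E) : Prop := ∀ K ∈ 𝒦, ∃ e ∈ K, e ∈ z

/-- some member of `A` is contained in `x` -/
def Acc (A : Set (Finset E)) (x : Finset E) : Prop := ∃ z ∈ A, z ⊆ x

/-- the sets of at most `s` elements that meet all members of `A` -/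
def certs (s : ℕ) (A : Set (Finset E)) : Set (Finset E) :=
  {K | K.card ≤ s ∧ ∀ z ∈ A, ∃ e ∈ K, e ∈ z}

/-- `x` meets all members of `𝒦`, but no subset of size at most `r` does -/
def BadPos (r : ℕ) (𝒦 : Set (Finset E)) (x : Finset E) : Prop :=
  Hit 𝒦 x ∧ ¬ ∃ z ⊆ x, z.card ≤ r ∧ Hit 𝒦 z

/-- `y` contains no member of `A`, but no set of at most `s` elements outside of `y` meets all
members of `A` -/
def BadNeg (s : ℕ) (A : Set (Finset E)) (y : Finset E) : Prop :=
  ¬ Acc A y ∧ ¬ ∃ K ∈ certs s A, ∀ e ∈ K, e ∉ y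

lemma Acc.mono {A : Set (Finset E)} {x y : Finset E} (h : Acc A x) (hxy : x ⊆ y) : Acc A y := by
  obtain ⟨z, hz, hzx⟩ := h
  exact ⟨z, hz, hzx.trans hxy⟩

/-- the DNF attached to a gate -/
def apx (C : Circuit E S) (r s : ℕ) (i : Fin S) : Set (Finset E) :=
  match C i with
  | .input e => {{e}}
  | .const v => if v = true then {∅} else ∅
  | .and a b => {z | z.card ≤ r ∧ Hit (certs s (apx C r s ⟨a, a.2.trans i.2⟩) ∪
      certs s (apx C r s ⟨b, b.2.trans i.2⟩)) z}
  | .or a b => apx C r s ⟨a, a.2.trans i.2⟩ ∪ apx C r s ⟨b, b.2.trans i.2⟩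
termination_by i.val
decreasing_by
  all_goals first
    | exact a.2
    | exact b.2

/-- the event that the gate number `i` introduces an error for a sparse input -/
def PosBad (C : Circuit E S) (r s : ℕ) (x : Finset E) (i : Fin S) : Prop :=
  match C i with
  | .and a b => BadPos r (certs s (apx C r s ⟨a, a.2.trans i.2⟩) ∪
      certs s (apx C r s ⟨b, b.2.trans i.2⟩)) x
  | _ => False

/-- the input with ones `x` -/
def inp (x : Finset E) : E → Bool := fun e => decide (e ∈ x)

lemma inp_iff {x : Finset E} {e : E} : inp x e = true ↔ e ∈ x := by simp [inp]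

lemma apx_card (C : Circuit E S) {r s : ℕ} (hr : 1 ≤ r) (i : Fin S) :
    ∀ z ∈ apx C r s i, z.card ≤ r := by
  obtain ⟨i, hi⟩ := i
  induction i using Nat.strong_induction_on with
  | _ i ih =>
    intro z hz
    rw [apx] at hz
    split at hz
    · rw [Set.mem_singleton_iff] at hz
      subst hz
      simpa using hr
    · split_ifs at hz
      · rw [Set.mem_singleton_iff] at hz
        subst hz
        simp
      · exact absurd hz (Set.notMem_empty z)
    · exact hz.1
    · next a b _ =>
      rcases hz with hz | hz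
      · exact ih a a.2 _ z hz
      · exact ih b b.2 _ z hz

/-- sparse inputs: a gate that is true is accepted by its DNF -/
lemma apx_pos (C : Circuit E S) {r s : ℕ} {x : Finset E} (hx : ∀ i, ¬ PosBad C r s x i)
    (i : Fin S) (h : C.eval (inp x) i = true) : Acc (apx C r s i) x := by
  obtain ⟨i, hi⟩ := i
  induction i using Nat.strong_induction_on with
  | _ i ih =>
    have hxi := hx ⟨i, hi⟩
    rw [PosBad] at hxi
    rw [Circuit.eval] at h
    rw [apx]
    split at h
    · next e heq =>
      rw [heq]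
      refine ⟨{e}, rfl, ?_⟩
      simpa [inp] using h
    · next v heq =>
      rw [heq]
      simp only [h, if_true]
      exact ⟨∅, rfl, by simp⟩
    · next a b heq =>
      rw [heq] at hxi ⊢
      rw [Bool.and_eq_true] at h
      have ha := ih a a.2 _ h.1
      have hb := ih b b.2 _ h.2
      by_contra hcon
      apply hxi
      refine ⟨?_, ?_⟩
      · rintro K (hK | hK)
        · obtain ⟨z, hz, hzx⟩ := ha
          obtain ⟨e, he1, he2⟩ := hK.2 z hz
          exact ⟨e, he1, hzx he2⟩
        · obtain ⟨z, hz, hzx⟩ := hb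
          obtain ⟨e, he1, he2⟩ := hK.2 z hz
          exact ⟨e, he1, hzx he2⟩
      · rintro ⟨z, hz1, hz2, hz3⟩
        exact hcon ⟨z, ⟨hz2, hz3⟩, hz1⟩
    · next a b heq =>
      rw [heq]
      rw [Bool.or_eq_true] at h
      rcases h with h | h
      · obtain ⟨z, hz1, hz2⟩ := ih a a.2 _ h
        exact ⟨z, Or.inl hz1, hz2⟩
      · obtain ⟨z, hz1, hz2⟩ := ih b b.2 _ h
        exact ⟨z, Or.inr hz1, hz2⟩

/-- dense inputs: a gate that is accepted by its DNF is true -/
lemma apx_neg (C : Circuit E S) {r s : ℕ} {y : Finset E}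
    (hy : ∀ i, ¬ BadNeg s (apx C r s i) y) (i : Fin S) (h : Acc (apx C r s i) y) :
    C.eval (inp y) i = true := by
  obtain ⟨i, hi⟩ := i
  induction i using Nat.strong_induction_on with
  | _ i ih =>
    rw [apx] at h
    rw [Circuit.eval]
    split at h
    · next e heq =>
      rw [heq]
      obtain ⟨z, hz, hzy⟩ := h
      rw [Set.mem_singleton_iff] at hz
      subst hz
      simpa [inp] using hzy
    · next v heq =>
      rw [heq]
      by_cases hv : v = true
      · exact hv
      · rw [if_neg hv] at h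
        obtain ⟨z, hz, _⟩ := h
        exact absurd hz (Set.notMem_empty _)
    · next a b heq =>
      rw [heq]
      simp only [Bool.and_eq_true]
      obtain ⟨z, ⟨_, hz⟩, hzy⟩ := h
      constructor
      · apply ih a a.2
        by_contra hcon
        apply hy ⟨a, a.2.trans hi⟩
        refine ⟨hcon, ?_⟩
        rintro ⟨K, hK, hKy⟩
        obtain ⟨e, he1, he2⟩ := hz K (Or.inl hK)
        exact hKy e he1 (hzy he2)
      · apply ih b b.2
        by_contra hcon
        apply hy ⟨b, b.2.trans hi⟩
        refine ⟨hcon, ?_⟩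
        rintro ⟨K, hK, hKy⟩
        obtain ⟨e, he1, he2⟩ := hz K (Or.inr hK)
        exact hKy e he1 (hzy he2)
    · next a b heq =>
      rw [heq]
      simp only [Bool.or_eq_true]
      obtain ⟨z, hz, hzy⟩ := h
      rcases hz with hz | hz
      · exact Or.inl (ih a a.2 _ ⟨z, hz, hzy⟩)
      · exact Or.inr (ih b b.2 _ ⟨z, hz, hzy⟩)

end

end Pool.Agent.H68MT
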