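import Pool.Agent.H68MT.Approx

set_option linter.unusedSectionVars false

/-! Approximation of the gates of a monotone circuit by narrow CNFs. -/

namespace Pool.Agent.H68MT

open Finset Classical

noncomputable section

variable {E : Type} {S : ℕ}

lemma Hit.mono {𝒦 : Set (Finset E)} {z z' : Finset E} (h : Hit 𝒦 z) (hz : z ⊆ z') :
    Hit 𝒦 z' := fun K hK => by
  obtain ⟨e, h1, h2⟩ := h K hK
  exact ⟨e, h1, hz h2⟩

/-- the small sets that satisfy one of two CNFs -/
def orD (r : ℕ) (A B : Set (Finset E)) : Set (Finset E) := {z | z.card ≤ r ∧ (Hit A z ∨ Hit B z)}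

/-- the CNF attached to a gate -/
def apc (C : Circuit E S) (r s : ℕ) (i : Fin S) : Set (Finset E) :=
  match C i with
  | .input e => {{e}}
  | .const v => if v = true then ∅ else {∅}
  | .and a b => apc C r s ⟨a, a.2.trans i.2⟩ ∪ apc C r s ⟨b, b.2.trans i.2⟩
  | .or a b => certs s (orD r (apc C r s ⟨a, a.2.trans i.2⟩) (apc C r s ⟨b, b.2.trans i.2⟩))
termination_by i.val
decreasing_by
  all_goals first
    | exact a.2
    | exact b.2

/-- the event that the gate number `i` introduces an error for a dense input -/
def NegBadC (C : Circuit E S) (r s : ℕ) (y : Finset E) (i : Fin S) : Prop :=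
  match C i with
  | .or a b => BadNeg s (orD r (apc C r s ⟨a, a.2.trans i.2⟩) (apc C r s ⟨b, b.2.trans i.2⟩)) y
  | _ => False

lemma apc_card (C : Circuit E S) {r s : ℕ} (hs : 1 ≤ s) (i : Fin S) :
    ∀ K ∈ apc C r s i, K.card ≤ s := by
  obtain ⟨i, hi⟩ := i
  induction i using Nat.strong_induction_on with
  | _ i ih =>
    intro K hK
    rw [apc] at hK
    split at hK
    · rw [Set.mem_singleton_iff] at hK
      subst hK
      simpa using hs
    · split_ifs at hK
      · exact absurd hK (Set.notMem_empty K)
      · rw [Set.mem_singleton_iff] at hK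
        subst hK
        simp
    · next a b _ =>
      rcases hK with hK | hK
      · exact ih a a.2 _ K hK
      · exact ih b b.2 _ K hK
    · exact hK.1

/-- sparse inputs: a gate that is true satisfies its CNF -/
lemma apc_pos (C : Circuit E S) {r s : ℕ} {x : Finset E} (hx : ∀ i, ¬ BadPos r (apc C r s i) x)
    (i : Fin S) (h : C.eval (inp x) i = true) : Hit (apc C r s i) x := by
  obtain ⟨i, hi⟩ := i
  induction i using Nat.strong_induction_on with
  | _ i ih =>
    have hkey : ∀ j : Fin S, Hit (apc C r s j) x →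
        ∃ z ⊆ x, z.card ≤ r ∧ Hit (apc C r s j) z := by
      intro j hj
      by_contra hcon
      exact hx j ⟨hj, hcon⟩
    rw [Circuit.eval] at h
    rw [apc]
    split at h
    · next e heq =>
      rw [heq]
      intro K hK
      rw [Set.mem_singleton_iff] at hK
      subst hK
      exact ⟨e, Finset.mem_singleton_self e, inp_iff.mp h⟩
    · next v heq =>
      rw [heq]
      simp only [h, if_true]
      intro K hK
      exact absurd hK (Set.notMem_empty K)
    · next a b heq =>
      rw [heq]
      rw [Bool.and_eq_true] at h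
      intro K hK
      rcases hK with hK | hK
      · exact ih a a.2 _ h.1 K hK
      · exact ih b b.2 _ h.2 K hK
    · next a b heq =>
      rw [heq]
      rw [Bool.or_eq_true] at h
      intro K hK
      rcases h with h | h
      · obtain ⟨z, hz1, hz2, hz3⟩ := hkey _ (ih a a.2 _ h)
        obtain ⟨e, he1, he2⟩ := hK.2 z ⟨hz2, Or.inl hz3⟩
        exact ⟨e, he1, hz1 he2⟩
      · obtain ⟨z, hz1, hz2, hz3⟩ := hkey _ (ih b b.2 _ h)
        obtain ⟨e, he1, he2⟩ := hK.2 z ⟨hz2, Or.inr hz3⟩
        exact ⟨e, he1, hz1 he2⟩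

/-- dense inputs: a gate whose CNF is satisfied is true -/
lemma apc_neg (C : Circuit E S) {r s : ℕ} {y : Finset E} (hy : ∀ i, ¬ NegBadC C r s y i)
    (i : Fin S) (h : Hit (apc C r s i) y) : C.eval (inp y) i = true := by
  obtain ⟨i, hi⟩ := i
  induction i using Nat.strong_induction_on with
  | _ i ih =>
    have hyi := hy ⟨i, hi⟩
    rw [NegBadC] at hyi
    rw [apc] at h
    rw [Circuit.eval]
    split at h
    · next e heq =>
      rw [heq]
      obtain ⟨e', he1, he2⟩ := h {e} rfl
      rw [Finset.mem_singleton] at he1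
      subst he1
      exact inp_iff.mpr he2
    · next v heq =>
      rw [heq]
      by_cases hv : v = true
      · exact hv
      · rw [if_neg hv] at h
        obtain ⟨e', he1, _⟩ := h ∅ rfl
        exact absurd he1 (Finset.notMem_empty _)
    · next a b heq =>
      rw [heq]
      simp only [Bool.and_eq_true]
      exact ⟨ih a a.2 _ fun K hK => h K (Or.inl hK), ih b b.2 _ fun K hK => h K (Or.inr hK)⟩
    · next a b heq =>
      rw [heq] at hyi ⊢
      simp only [Bool.or_eq_true]
      have hacc : Acc (orD r (apc C r s ⟨a, a.2.trans hi⟩) (apc C r s ⟨b, b.2.trans hi⟩)) y := by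
        by_contra hcon
        apply hyi
        refine ⟨hcon, ?_⟩
        rintro ⟨K, hK, hKy⟩
        obtain ⟨e, he1, he2⟩ := h K hK
        exact hKy e he1 he2
      obtain ⟨z, ⟨_, hz⟩, hzy⟩ := hacc
      rcases hz with hz | hz
      · exact Or.inl (ih a a.2 _ (hz.mono hzy))
      · exact Or.inr (ih b b.2 _ (hz.mono hzy))

end

end Pool.Agent.H68MT
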