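import Pool.Agent.H68MT.Dense

set_option linter.unusedSectionVars false

/-! The reduction fails for suitable parameters. -/

namespace Pool.Agent.H68MT

open Finset Classical
open Pool.Agent.H592R2

noncomputable section

variable {m d k n N β S Nv L : ℕ} [NeZero n] [NeZero N] [NeZero β]

/-- the DNF of a bottom gate of the target formula, for the assignment `T` -/
def gfam (d : ℕ) (C : Circuit (Ei n m) S)
    (out : Path (Fin L) m → Fin L → Finset (Fin Nv × Bool) → Fin S) (r s : ℕ)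
    (T : Finset (Fin Nv)) (π : Path (Fin L) m) (u : Fin L) : Set (Finset (Ei n m)) :=
  {z | ∃ cl : Finset (Fin Nv × Bool), cl.card ≤ d ∧ (∀ l ∈ cl, (l.1 ∈ T ↔ l.2 = true)) ∧
    z ∈ apx C r s (out π u cl)}

/-- the narrow clauses of nodes attached to it -/
def kfam (d : ℕ) (C : Circuit (Ei n m) S)
    (out : Path (Fin L) m → Fin L → Finset (Fin Nv × Bool) → Fin S) (r s : ℕ)
    (T : Finset (Fin Nv)) (π : Path (Fin L) m) : Set (Finset (Path (Fin n) (m + 1))) :=
  {K' | ∃ u, ∃ K ∈ certs s (gfam d C out r s T π u), K' = K.image Prod.fst}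

lemma kfam_pos {r s : ℕ} {C : Circuit (Ei n m) S}
    {out : Path (Fin L) m → Fin L → Finset (Fin Nv × Bool) → Fin S} {T : Finset (Fin Nv)}
    {ω : Co n m k → Fin n} (hx : ∀ i, ¬ PosBad C r s (xs ω) i)
    (h : val m (fun π => ∀ u, ∃ cl : Finset (Fin Nv × Bool),
      cl.card ≤ d ∧ C.eval (inp (xs ω)) (out π u cl) = true ∧ ∀ l ∈ cl, (l.1 ∈ T ↔ l.2 = true))) :
    FV m (kfam d C out r s T) (Pl (m + 1) Set.univ (fun c => ω (Sum.inl c))) := by
  unfold FV
  refine val_mono m (fun π hπ => ?_) h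
  rintro K' ⟨u, K, hK, rfl⟩
  obtain ⟨cl, hcl1, hcl2, hcl3⟩ := hπ u
  obtain ⟨z, hz1, hz2⟩ := apx_pos C hx _ hcl2
  obtain ⟨e, he1, he2⟩ := hK.2 z ⟨cl, hcl1, hcl3, hz1⟩
  exact ⟨e.1, Finset.mem_image_of_mem _ he1, (mem_xs.mp (hz2 he2)).1⟩

lemma kfam_neg {r s : ℕ} {C : Circuit (Ei n m) S}
    {out : Path (Fin L) m → Fin L → Finset (Fin Nv × Bool) → Fin S} {T : Finset (Fin Nv)}
    {F : Finset (Fin n × Fin n)} {y : NegSp n N (m + 1)} {e : Ei n m → Fin β}
    (h1 : ∀ i, ¬ BadNeg s (apx C r s i) (on e ∪ Wb F y))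
    (h2 : ∀ π u, ¬ BadNeg s (gfam d C out r s T π u) (on e ∪ Wb F y))
    (h : FV m (kfam d C out r s T) (Ok F (m + 1) y)) :
    val m (fun π => ∀ u, ∃ cl : Finset (Fin Nv × Bool),
      cl.card ≤ d ∧ C.eval (inp (on e ∪ Wb F y)) (out π u cl) = true ∧
        ∀ l ∈ cl, (l.1 ∈ T ↔ l.2 = true)) := by
  unfold FV at h
  refine val_mono m (fun π hπ => ?_) h
  intro u
  have h3 : Acc (gfam d C out r s T π u) (on e ∪ Wb F y) := by
    by_contra hcon
    apply h2 π u
    refine ⟨hcon, ?_⟩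
    rintro ⟨K, hK1, hK2⟩
    obtain ⟨w, hw1, hw2⟩ := hπ (K.image Prod.fst) ⟨u, K, hK1, rfl⟩
    obtain ⟨x, hx1, rfl⟩ := Finset.mem_image.mp hw1
    exact hK2 x hx1 (Finset.mem_union_right _ (mem_Wb.mpr hw2))
  obtain ⟨z, ⟨cl, hcl1, hcl2, hcl3⟩, hz⟩ := h3
  exact ⟨cl, hcl1, apx_neg C h1 _ ⟨z, hcl3, hz⟩, hcl2⟩

theorem core {s u κ H wt : ℕ} (C : Circuit (Ei n m) S)
    (out : Path (Fin L) m → Fin L → Finset (Fin Nv × Bool) → Fin S)
    (hu : 1 ≤ u) {B M : ℝ} (hB1 : 1 ≤ B)
    (hc1 : ∀ i ≤ m, (Fintype.card (Path (Fin L) i) : ℝ) ≤ B)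
    (hc2 : ∀ i ≤ m, (Fintype.card (Path (Fin L) i × Fin L) : ℝ) ≤ B)
    (hM : ∀ i ≤ m, (Fintype.card (Path (Fin n) i) : ℝ) ≤ M)
    (hle : 1 / (N : ℝ) + (n : ℝ) * (1 / (β : ℝ)) ^ H ≤ 1)
    (hpos : ((k * k : ℕ) : ℝ) / n + S * (((s * k : ℕ) : ℝ) / n) ^ u +
      (Nv : ℝ) ^ wt * ((m + 1) * (B * ((s : ℝ) / n) ^ κ)) < 1)
    (hneg : m * (B * (1 - (1 / (N : ℝ)) ^ (2 * κ)) ^ s) +
      (S + B) * (1 - (1 / (β : ℝ)) ^ (u * u)) ^ s +
      (m * (M * (1 / (N : ℝ)) ^ (n - κ)) +
      (n : ℝ) ^ H * (M * (1 / (N : ℝ) + (n : ℝ) * (1 / (β : ℝ)) ^ H) ^ (n - κ))) < 1)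
    (h1 : ∀ x : Ei n m → Bool, Sat1 k x → Sat0 d wt (fun π u cl => C.eval x (out π u cl)))
    (h2 : ∀ x : Ei n m → Bool, Sat0 d wt (fun π u cl => C.eval x (out π u cl)) → Sat1 H x) :
    False := by
  have hN0 : (0 : ℝ) < N := by exact_mod_cast NeZero.pos N
  have hβ0 : (0 : ℝ) < β := by exact_mod_cast NeZero.pos β
  have hβ1 : (1 : ℝ) ≤ β := by exact_mod_cast NeZero.one_le
  have hrr : 1 ≤ u * u := Nat.mul_le_mul hu hu
  obtain ⟨δ, hδ⟩ : ∃ δ, δ = (1 - (1 / (N : ℝ)) ^ (2 * κ)) ^ s := ⟨_, rfl⟩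
  obtain ⟨δ0, hδ0⟩ : ∃ δ0, δ0 = (1 - (1 / (β : ℝ)) ^ (u * u)) ^ s := ⟨_, rfl⟩
  have hδ00 : 0 ≤ δ0 := by
    rw [hδ0]
    apply pow_nonneg
    have : (1 / (β : ℝ)) ^ (u * u) ≤ 1 :=
      pow_le_one₀ (by positivity) (by rw [div_le_one hβ0]; exact hβ1)
    linarith
  -- a good sparse input
  obtain ⟨ω, hω⟩ : ∃ ω : Co n m k → Fin n,
      ¬ ((¬ Function.Injective (fun j : Fin k => ω (Sum.inr j))) ∨
      ((∃ i ∈ (Finset.univ : Finset (Fin S)), PosBad C (u * u) s (xs ω) i) ∨
      (∃ T ∈ Finset.powersetCard wt (Finset.univ : Finset (Fin Nv)),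
        Fail N κ (m * (B * δ)) m (kfam d C out (u * u) s T) (fun c => ω (Sum.inl c))))) := by
    apply exists_not_of_avg_lt
    refine lt_of_le_of_lt (avg_mono fun ω => (ind_or_le _ _).trans
      (add_le_add le_rfl ((ind_or_le _ _).trans
        (add_le_add (ind_exists_le _ _) (ind_exists_le _ _))))) ?_
    rw [avg_add, avg_add, avg_sum, avg_sum]
    have e1 := avg_not_inj (m := m) (k := k) (n := n)
    have e2 : ∑ i ∈ (Finset.univ : Finset (Fin S)), avg (fun ω : Co n m k → Fin n =>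
        ind (PosBad C (u * u) s (xs ω) i)) ≤ S * (((s * k : ℕ) : ℝ) / n) ^ u := by
      have e3 : ∀ i ∈ (Finset.univ : Finset (Fin S)), avg (fun ω : Co n m k → Fin n =>
          ind (PosBad C (u * u) s (xs ω) i)) ≤ (((s * k : ℕ) : ℝ) / n) ^ u := by
        intro i _
        unfold PosBad
        split
        · apply avg_badPos
          rintro K (hK | hK)
          · exact hK.1
          · exact hK.1
        · have h0 : (fun ω : Co n m k → Fin n => ind False) = fun _ => (0 : ℝ) := by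
            funext ω
            exact ind_false (fun h => h)
          have h00 : avg (fun _ : Co n m k → Fin n => (0 : ℝ)) = 0 := avg_const 0
          rw [h0, h00]
          positivity
      refine (Finset.sum_le_sum e3).trans_eq ?_
      rw [Finset.sum_const, nsmul_eq_mul, Finset.card_univ, Fintype.card_fin]
    have e4 : ∑ T ∈ Finset.powersetCard wt (Finset.univ : Finset (Fin Nv)),
        avg (fun ω : Co n m k → Fin n => ind (Fail N κ (m * (B * δ)) m
          (kfam d C out (u * u) s T) (fun c => ω (Sum.inl c)))) ≤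
        (Nv : ℝ) ^ wt * ((m + 1) * (B * ((s : ℝ) / n) ^ κ)) := by
      have e5 : ∀ T ∈ Finset.powersetCard wt (Finset.univ : Finset (Fin Nv)),
          avg (fun ω : Co n m k → Fin n => ind (Fail N κ (m * (B * δ)) m
            (kfam d C out (u * u) s T) (fun c => ω (Sum.inl c)))) ≤
          (m + 1) * (B * ((s : ℝ) / n) ^ κ) := by
        intro T _
        have e6 := avg_marg (Equiv.refl (Co n m k) : Co n m k ≃ Cs n (m + 1) ⊕ Fin k)
          (fun ω1 : Cs n (m + 1) → Fin n => ind (Fail N κ (m * (B * δ)) m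
            (kfam d C out (u * u) s T) ω1))
        have e7 : avg (fun ω : Co n m k → Fin n => ind (Fail N κ (m * (B * δ)) m
            (kfam d C out (u * u) s T) (fun c => ω (Sum.inl c)))) =
            avg (fun ω1 : Cs n (m + 1) → Fin n => ind (Fail N κ (m * (B * δ)) m
            (kfam d C out (u * u) s T) ω1)) := e6
        rw [e7]
        refine level hB1 rfl hδ m _ hc1 (fun i hi => hc2 i hi.le) ?_
        rintro π K ⟨u', K0, hK0, rfl⟩
        exact Finset.card_image_le.trans hK0.1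
      refine (Finset.sum_le_sum e5).trans ?_
      rw [Finset.sum_const, nsmul_eq_mul, Finset.card_powersetCard, Finset.card_univ,
        Fintype.card_fin]
      apply mul_le_mul_of_nonneg_right
      · exact_mod_cast Nat.choose_le_pow Nv wt
      · have : 0 ≤ B := by linarith
        positivity
    linarith
  rw [not_or, not_or, not_not] at hω
  obtain ⟨hω1, hω2, hω3⟩ := hω
  push Not at hω2 hω3
  -- a solution of the target formula
  obtain ⟨T, hT1, hT2⟩ := h1 _ (sat_xs hω1)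
  have hFV := kfam_pos (r := u * u) (s := s) (fun i => hω2 i (Finset.mem_univ _)) hT2
  have hnf := hω3 T (Finset.mem_powersetCard.mpr ⟨Finset.subset_univ _, hT1⟩)
  obtain ⟨F, hF1, hF2⟩ : ∃ F : Finset (Fin n × Fin n), F.card ≤ κ ∧
      avg (fun y : NegSp n N (m + 1) => ind (¬ FV m (kfam d C out (u * u) s T)
        (Ok F (m + 1) y))) ≤ m * (B * δ) := by
    by_contra hcon
    exact hnf ⟨hFV, hcon⟩
  -- a good dense input
  obtain ⟨p, hp⟩ : ∃ p : NegSp n N (m + 1) × (Ei n m → Fin β),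
      ¬ ((¬ FV m (kfam d C out (u * u) s T) (Ok F (m + 1) p.1)) ∨
      (((∃ i ∈ (Finset.univ : Finset (Fin S)),
        BadNeg s (apx C (u * u) s i) (on p.2 ∪ Wb F p.1)) ∨
      (∃ q ∈ (Finset.univ : Finset (Path (Fin L) m × Fin L)),
        BadNeg s (gfam d C out (u * u) s T q.1 q.2) (on p.2 ∪ Wb F p.1))) ∨
      (Bd F m p.1.1 ∨ (∃ T2 ∈ Finset.powersetCard H (Finset.univ : Finset (Fin n)),
        LastBad F T2 p.1.2 p.2)))) := by
    have : Nonempty (NegSp n N (m + 1) × (Ei n m → Fin β)) := inferInstance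
    apply exists_not_of_avg_lt
    refine lt_of_le_of_lt (avg_mono fun p => (ind_or_le _ _).trans
      (add_le_add le_rfl ((ind_or_le _ _).trans
        (add_le_add ((ind_or_le _ _).trans (add_le_add (ind_exists_le _ _) (ind_exists_le _ _)))
          ((ind_or_le _ _).trans (add_le_add le_rfl (ind_exists_le _ _))))))) ?_
    rw [avg_add, avg_add, avg_add, avg_add]
    have hpr : ∀ f : NegSp n N (m + 1) → (Ei n m → Fin β) → ℝ,
        avg (fun p : NegSp n N (m + 1) × (Ei n m → Fin β) => f p.1 p.2) =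
        avg (fun y => avg (fun e => f y e)) :=
      fun f => avg_prod (Equiv.refl _) f
    have a1 : avg (fun p : NegSp n N (m + 1) × (Ei n m → Fin β) =>
        ind (¬ FV m (kfam d C out (u * u) s T) (Ok F (m + 1) p.1))) ≤ m * (B * δ) := by
      rw [hpr (fun y _ => ind (¬ FV m (kfam d C out (u * u) s T) (Ok F (m + 1) y)))]
      simp only [avg_const]
      exact hF2
    have a2 : avg (fun p : NegSp n N (m + 1) × (Ei n m → Fin β) =>
        ∑ i ∈ (Finset.univ : Finset (Fin S)),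
          ind (BadNeg s (apx C (u * u) s i) (on p.2 ∪ Wb F p.1))) ≤ S * δ0 := by
      rw [avg_sum]
      have a21 : ∀ i ∈ (Finset.univ : Finset (Fin S)),
          avg (fun p : NegSp n N (m + 1) × (Ei n m → Fin β) =>
            ind (BadNeg s (apx C (u * u) s i) (on p.2 ∪ Wb F p.1))) ≤ δ0 := by
        intro i _
        rw [hpr (fun y e => ind (BadNeg s (apx C (u * u) s i) (on e ∪ Wb F y)))]
        refine avg_le_of_le fun y => ?_
        rw [hδ0]
        apply neg_lemma
        intro z hz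
        exact (Finset.card_le_card Finset.sdiff_subset).trans (apx_card C hrr i z hz)
      refine (Finset.sum_le_sum a21).trans_eq ?_
      rw [Finset.sum_const, nsmul_eq_mul, Finset.card_univ, Fintype.card_fin]
    have a3 : avg (fun p : NegSp n N (m + 1) × (Ei n m → Fin β) =>
        ∑ q ∈ (Finset.univ : Finset (Path (Fin L) m × Fin L)),
          ind (BadNeg s (gfam d C out (u * u) s T q.1 q.2) (on p.2 ∪ Wb F p.1))) ≤ B * δ0 := by
      rw [avg_sum]
      have a31 : ∀ q ∈ (Finset.univ : Finset (Path (Fin L) m × Fin L)),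
          avg (fun p : NegSp n N (m + 1) × (Ei n m → Fin β) =>
            ind (BadNeg s (gfam d C out (u * u) s T q.1 q.2) (on p.2 ∪ Wb F p.1))) ≤ δ0 := by
        intro q _
        rw [hpr (fun y e => ind (BadNeg s (gfam d C out (u * u) s T q.1 q.2)
          (on e ∪ Wb F y)))]
        refine avg_le_of_le fun y => ?_
        rw [hδ0]
        apply neg_lemma
        rintro z ⟨cl, _, _, hz⟩
        exact (Finset.card_le_card Finset.sdiff_subset).trans (apx_card C hrr _ z hz)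
      refine (Finset.sum_le_sum a31).trans ?_
      rw [Finset.sum_const, nsmul_eq_mul, Finset.card_univ]
      exact mul_le_mul_of_nonneg_right (hc2 m le_rfl) hδ00
    have hspl : ∀ f : NegSp n N m → (Cn n m → Fin N) → ℝ,
        avg (fun y : NegSp n N (m + 1) => f y.1 y.2) =
        avg (fun y1 : NegSp n N m => avg (fun y2 : Cn n m → Fin N => f y1 y2)) :=
      fun f => avg_prod (Equiv.refl (NegSp n N (m + 1)) :
        NegSp n N (m + 1) ≃ NegSp n N m × (Cn n m → Fin N)) f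
    have a4 : avg (fun p : NegSp n N (m + 1) × (Ei n m → Fin β) => ind (Bd F m p.1.1)) ≤
        m * (M * (1 / (N : ℝ)) ^ (n - κ)) := by
      rw [hpr (fun y _ => ind (Bd F m y.1))]
      simp only [avg_const]
      rw [hspl (fun y1 _ => ind (Bd F m y1))]
      simp only [avg_const]
      exact avg_Bd hF1 m (fun i hi => hM i hi.le)
    have a5 : avg (fun p : NegSp n N (m + 1) × (Ei n m → Fin β) =>
        ∑ T2 ∈ Finset.powersetCard H (Finset.univ : Finset (Fin n)),
          ind (LastBad F T2 p.1.2 p.2)) ≤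
        (n : ℝ) ^ H * (M * (1 / (N : ℝ) + (n : ℝ) * (1 / (β : ℝ)) ^ H) ^ (n - κ)) := by
      rw [avg_sum]
      have hM0 : 0 ≤ M := le_trans (Nat.cast_nonneg _) (hM m le_rfl)
      have a51 : ∀ T2 ∈ Finset.powersetCard H (Finset.univ : Finset (Fin n)),
          avg (fun p : NegSp n N (m + 1) × (Ei n m → Fin β) => ind (LastBad F T2 p.1.2 p.2)) ≤
          M * (1 / (N : ℝ) + (n : ℝ) * (1 / (β : ℝ)) ^ H) ^ (n - κ) := by
        intro T2 hT2
        have hc := (Finset.mem_powersetCard.mp hT2).2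
        rw [hpr (fun y e => ind (LastBad F T2 y.2 e))]
        rw [hspl (fun _ y2 => avg (fun e : Ei n m → Fin β => ind (LastBad F T2 y2 e)))]
        rw [avg_const, ← hc]
        refine avg_last hF1 (hM m le_rfl) T2 ?_
        rw [hc]
        exact hle
      refine (Finset.sum_le_sum a51).trans ?_
      rw [Finset.sum_const, nsmul_eq_mul, Finset.card_powersetCard, Finset.card_univ,
        Fintype.card_fin]
      apply mul_le_mul_of_nonneg_right
      · exact_mod_cast Nat.choose_le_pow n H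
      · positivity
    rw [← hδ, ← hδ0] at hneg
    have hsum : (S + B) * δ0 = S * δ0 + B * δ0 := by ring
    linarith
  rw [not_or, not_or, not_or, not_or, not_not] at hp
  obtain ⟨hp1, ⟨hp2, hp3⟩, hp4, hp5⟩ := hp
  push Not at hp2 hp3 hp5
  -- the target formula is still satisfiable
  have hsat := kfam_neg (fun i => hp2 i (Finset.mem_univ _))
    (fun π u' => hp3 (π, u') (Finset.mem_univ _)) hp1
  obtain ⟨T2, hT21, hT22⟩ := h2 _ ⟨T, hT1, hsat⟩
  exact dense_unsat (y1 := p.1.1) (y2 := p.1.2) hp4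
    (hp5 T2 (Finset.mem_powersetCard.mpr ⟨Finset.subset_univ _, hT21⟩)) hT22

end

end Pool.Agent.H68MT
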