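import Pool.Agent.H68MT.Dense2
import Pool.Agent.H68MT.ApproxC
import Pool.Agent.H68MN.Codes

set_option linter.unusedSectionVars false

/-! The even levels: the reduction fails for suitable parameters. -/

namespace Pool.Agent.H68MT

open Finset Classical
open Pool.Agent.H592R2
open Pool.Agent.H68MN (ys mem_ys Code famC admJ admJ_card fam_sound fam_cover card_codes)

noncomputable section

/-- `k`-satisfiability of a formula with `2 * m + 3` levels over disjunctions of literals -/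
def Sat3 {N L m : ℕ} (d k : ℕ) (occ : Path (Fin L) (m + 1) → Finset (Fin N × Bool) → Bool) :
    Prop :=
  ∃ T : Finset (Fin N), T.card = k ∧ val (m + 1) (fun π => ∀ cl : Finset (Fin N × Bool),
    cl.card ≤ d → (occ π cl = true ∨ ∃ l ∈ cl, (l.1 ∈ T ↔ l.2 = true)))

variable {m d k n N b S Nv L : ℕ} [NeZero n] [NeZero N] [NeZero b] [NeZero k]

/-- the CNFs of the gates for the clauses covered by `J` -/
def famJ (d : ℕ) (C : Circuit (E2 n m) S)
    (out : Path (Fin L) (m + 1) → Finset (Fin Nv × Bool) → Fin S) (r s : ℕ)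
    (π : Path (Fin L) (m + 1)) (J : Fin d → Option (Code Nv)) : Set (Finset (E2 n m)) :=
  {K | ∃ cl ∈ famC d J, K ∈ apc C r s (out π cl)}

/-- the CNF of a bottom gate of the target formula, for the assignment `T` -/
def famT (d : ℕ) (C : Circuit (E2 n m) S)
    (out : Path (Fin L) (m + 1) → Finset (Fin Nv × Bool) → Fin S) (r s : ℕ)
    (T : Finset (Fin Nv)) (π : Path (Fin L) (m + 1)) : Set (Finset (E2 n m)) :=
  {K | ∃ cl : Finset (Fin Nv × Bool), cl.card ≤ d ∧ (∀ l ∈ cl, ¬ (l.1 ∈ T ↔ l.2 = true)) ∧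
    K ∈ apc C r s (out π cl)}

/-- its small certificates, for some `u'` -/
def dfam (d : ℕ) (C : Circuit (E2 n m) S)
    (out : Path (Fin L) (m + 1) → Finset (Fin Nv × Bool) → Fin S) (r s R : ℕ)
    (T : Finset (Fin Nv)) (π : Path (Fin L) m) (u : Fin L) : Set (Finset (E2 n m)) :=
  {z | z.card ≤ R ∧ ∃ u', Hit (famT d C out r s T (π, u, u')) z}

/-- the narrow clauses of nodes attached to it -/
def kfam2 (d : ℕ) (C : Circuit (E2 n m) S)
    (out : Path (Fin L) (m + 1) → Finset (Fin Nv × Bool) → Fin S) (r s R : ℕ)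
    (T : Finset (Fin Nv)) (π : Path (Fin L) m) : Set (Finset (Path (Fin n) (m + 1))) :=
  {K' | ∃ u, ∃ K ∈ certs s (dfam d C out r s R T π u), K' = K.image Prod.fst}

lemma famT_cert {r s Λ : ℕ} {C : Circuit (E2 n m) S}
    {out : Path (Fin L) (m + 1) → Finset (Fin Nv × Bool) → Fin S} {T : Finset (Fin Nv)}
    {x : Finset (E2 n m)} {π : Path (Fin L) (m + 1)}
    (hΛ : (2 * (T.card + 1) ^ 2 + 1) ^ d ≤ Λ)
    (hx : ∀ i, ¬ BadPos r (apc C r s i) x)
    (hJ : ∀ J : Fin d → Option (Code Nv), ¬ BadPos r (famJ d C out r s π J) x)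
    (h : ∀ cl : Finset (Fin Nv × Bool), cl.card ≤ d →
      (C.eval (inp x) (out π cl) = true ∨ ∃ l ∈ cl, (l.1 ∈ T ↔ l.2 = true))) :
    ∃ z ⊆ x, z.card ≤ Λ * r ∧ Hit (famT d C out r s T π) z := by
  have hcert : ∀ J : Fin d → Option (Code Nv), ∃ z : Finset (E2 n m), z ⊆ x ∧ z.card ≤ r ∧
      (J ∈ admJ d T → Hit (famJ d C out r s π J) z) := by
    intro J
    by_cases hJa : J ∈ admJ d T
    · have h1 : Hit (famJ d C out r s π J) x := by
        rintro K ⟨cl, hcl, hK⟩
        have h2 := fam_sound hJa hcl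
        rcases h cl h2.1 with h3 | ⟨l, hl1, hl2⟩
        · exact apc_pos C hx _ h3 K hK
        · exact absurd hl2 (h2.2 l hl1)
      have h2 : ∃ z ⊆ x, z.card ≤ r ∧ Hit (famJ d C out r s π J) z := by
        by_contra hcon
        exact hJ J ⟨h1, hcon⟩
      obtain ⟨z, hz0, hz1, hz2⟩ := h2
      exact ⟨z, hz0, hz1, fun _ => hz2⟩
    · exact ⟨∅, by simp, by simp, fun h => absurd h hJa⟩
  choose z hz0 hz1 hz2 using hcert
  refine ⟨(admJ d T).biUnion z, ?_, ?_, ?_⟩
  · intro e he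
    obtain ⟨J, _, he3⟩ := Finset.mem_biUnion.mp he
    exact hz0 J he3
  · refine Finset.card_biUnion_le.trans ?_
    refine (Finset.sum_le_sum fun J _ => hz1 J).trans ?_
    rw [Finset.sum_const, smul_eq_mul]
    exact Nat.mul_le_mul_right _ ((admJ_card d T).trans hΛ)
  · rintro K ⟨cl, h1, h2, hK⟩
    obtain ⟨J, hJa, hcl⟩ := fam_cover T h1 h2
    obtain ⟨e, he1, he2⟩ := hz2 J hJa K ⟨cl, hcl, hK⟩
    exact ⟨e, he1, Finset.mem_biUnion.mpr ⟨J, hJa, he2⟩⟩

lemma kfam2_pos {r s Λ : ℕ} {C : Circuit (E2 n m) S}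
    {out : Path (Fin L) (m + 1) → Finset (Fin Nv × Bool) → Fin S} {T : Finset (Fin Nv)}
    {ω : Os n m k} (hΛ : (2 * (T.card + 1) ^ 2 + 1) ^ d ≤ Λ)
    (hx : ∀ i, ¬ BadPos r (apc C r s i) (xsG (mdl n m k) ω))
    (hJ : ∀ π, ∀ J : Fin d → Option (Code Nv),
      ¬ BadPos r (famJ d C out r s π J) (xsG (mdl n m k) ω))
    (h : val (m + 1) (fun π => ∀ cl : Finset (Fin Nv × Bool), cl.card ≤ d →
      (C.eval (inp (xsG (mdl n m k) ω)) (out π cl) = true ∨
        ∃ l ∈ cl, (l.1 ∈ T ↔ l.2 = true)))) :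
    FV m (kfam2 d C out r s (Λ * r) T)
      (Pl (m + 1) Set.univ (fun c => (show Fin n from ω (Sum.inl (Sum.inl c))))) := by
  unfold FV
  have h' : val m (fun π => ∀ u, ∃ u', ∀ cl : Finset (Fin Nv × Bool), cl.card ≤ d →
      (C.eval (inp (xsG (mdl n m k) ω)) (out (π, u, u') cl) = true ∨
        ∃ l ∈ cl, (l.1 ∈ T ↔ l.2 = true))) := h
  refine val_mono m (fun π hπ => ?_) h'
  rintro K' ⟨u, K, hK, rfl⟩
  obtain ⟨u', hu'⟩ := hπ u
  obtain ⟨z, hz1, hz2, hz3⟩ := famT_cert hΛ hx (hJ (π, u, u')) hu'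
  obtain ⟨e, he1, he2⟩ := hK.2 z ⟨hz2, u', hz3⟩
  exact ⟨e.1, Finset.mem_image_of_mem _ he1, (one_iff.mp (Finset.mem_filter.mp (hz1 he2)).2).1⟩

lemma kfam2_neg {r s R : ℕ} {C : Circuit (E2 n m) S}
    {out : Path (Fin L) (m + 1) → Finset (Fin Nv × Bool) → Fin S} {T : Finset (Fin Nv)}
    {F : Finset (Fin n × Fin n)} {y : NegSp n N (m + 1)} {e : E2 n m → Fin b}
    (h1 : ∀ i, ¬ NegBadC C r s (ys e ∪ Wb2 F y) i)
    (h2 : ∀ π u, ¬ BadNeg s (dfam d C out r s R T π u) (ys e ∪ Wb2 F y))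
    (h : FV m (kfam2 d C out r s R T) (Ok F (m + 1) y)) :
    val (m + 1) (fun π => ∀ cl : Finset (Fin Nv × Bool), cl.card ≤ d →
      (C.eval (inp (ys e ∪ Wb2 F y)) (out π cl) = true ∨ ∃ l ∈ cl, (l.1 ∈ T ↔ l.2 = true))) := by
  unfold FV at h
  show val m _
  refine val_mono m (fun π hπ => ?_) h
  intro u
  have h3 : Acc (dfam d C out r s R T π u) (ys e ∪ Wb2 F y) := by
    by_contra hcon
    apply h2 π u
    refine ⟨hcon, ?_⟩
    rintro ⟨K, hK1, hK2⟩
    obtain ⟨w, hw1, hw2⟩ := hπ (K.image Prod.fst) ⟨u, K, hK1, rfl⟩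
    obtain ⟨x, hx1, rfl⟩ := Finset.mem_image.mp hw1
    exact hK2 x hx1 (Finset.mem_union_right _ (mem_Wb2.mpr hw2))
  obtain ⟨z, ⟨_, u', hz⟩, hzy⟩ := h3
  refine ⟨u', fun cl hcl => ?_⟩
  by_cases hsat : ∃ l ∈ cl, (l.1 ∈ T ↔ l.2 = true)
  · exact Or.inr hsat
  · left
    push Not at hsat
    apply apc_neg C h1
    intro K hK
    obtain ⟨e', he1, he2⟩ := hz K ⟨cl, hcl, fun l hl hh => by
      rcases hsat l hl with ⟨h5, h6⟩ | ⟨h5, h6⟩
      · exact h6 (hh.mp h5)
      · exact h5 (hh.mpr h6), hK⟩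
    exact ⟨e', he1, hzy he2⟩

theorem core2 {s sl r u κ H wt Λ Mc : ℕ} (C : Circuit (E2 n m) S)
    (out : Path (Fin L) (m + 1) → Finset (Fin Nv × Bool) → Fin S)
    (hs1 : 1 ≤ s) (hssl : s ≤ sl) (hr : s * u * k ≤ r) (hΛ1 : 1 ≤ Λ)
    (hq : (s : ℝ) * (k : ℝ) ^ s / n ≤ 1)
    (hΛ : (2 * (wt + 1) ^ 2 + 1) ^ d ≤ Λ) (hMc : (2 * (Nv + 1) ^ 2 + 1) ^ d ≤ Mc)
    {B M P : ℝ} (hB1 : 1 ≤ B)
    (hc1 : ∀ i ≤ m, (Fintype.card (Path (Fin L) i) : ℝ) ≤ B)
    (hc2 : ∀ i ≤ m, (Fintype.card (Path (Fin L) i × Fin L) : ℝ) ≤ B)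
    (hP : (Fintype.card (Path (Fin L) (m + 1)) : ℝ) ≤ P)
    (hM : ∀ i ≤ m + 1, (Fintype.card (Path (Fin n) i) : ℝ) ≤ M)
    (hpos : ((k * k : ℕ) : ℝ) / n + ((S : ℝ) + P * Mc) *
        (((s : ℝ) * (k : ℝ) ^ s / n) ^ k + k * (1 - (1 / (k : ℝ)) ^ s) ^ u) +
      (Nv : ℝ) ^ wt * ((m + 1) * (B * ((sl : ℝ) / n) ^ κ)) < 1)
    (hneg : m * (B * (1 - (1 / (N : ℝ)) ^ (2 * κ)) ^ sl) +
      (S + B) * (((Λ * r : ℕ) : ℝ) / b) ^ s +
      (((m + 1 : ℕ) : ℝ) * (M * (1 / (N : ℝ)) ^ (n - κ)) +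
      (n : ℝ) ^ H * (M * (1 - (1 / (b : ℝ)) ^ H) ^ n)) < 1)
    (h1 : ∀ x : E2 n m → Bool, Sat2 k x → Sat3 d wt (fun π cl => C.eval x (out π cl)))
    (h2 : ∀ x : E2 n m → Bool, Sat3 d wt (fun π cl => C.eval x (out π cl)) → Sat2 H x) :
    False := by
  have hN0 : (0 : ℝ) < N := by exact_mod_cast NeZero.pos N
  have hb0 : (0 : ℝ) < b := by exact_mod_cast NeZero.pos b
  have hk0 : (0 : ℝ) < k := by exact_mod_cast NeZero.pos k
  have hk1 : (1 : ℝ) ≤ k := by exact_mod_cast NeZero.pos k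
  have hrr : r ≤ Λ * r := Nat.le_mul_of_pos_left r hΛ1
  have hδ1 : (1 / (k : ℝ)) ^ s ≤ 1 :=
    pow_le_one₀ (by positivity) (by rw [div_le_one hk0]; exact hk1)
  obtain ⟨η, hη⟩ : ∃ η : ℝ, η =
    ((s : ℝ) * (k : ℝ) ^ s / n) ^ k + k * (1 - (1 / (k : ℝ)) ^ s) ^ u := ⟨_, rfl⟩
  have hη0 : 0 ≤ η := by
    rw [hη]
    have : 0 ≤ (1 - (1 / (k : ℝ)) ^ s) ^ u := pow_nonneg (by linarith) _
    positivity
  rw [← hη] at hpos
  obtain ⟨δ, hδ⟩ : ∃ δ, δ = (1 - (1 / (N : ℝ)) ^ (2 * κ)) ^ sl := ⟨_, rfl⟩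
  obtain ⟨δ0, hδ0⟩ : ∃ δ0, δ0 = (((Λ * r : ℕ) : ℝ) / b) ^ s := ⟨_, rfl⟩
  have hδ00 : 0 ≤ δ0 := by rw [hδ0]; positivity
  -- a good sparse input
  obtain ⟨ω, hω⟩ : ∃ ω : Os n m k,
      ¬ ((¬ Function.Injective (fun j : Fin k => (show Fin n from ω (Sum.inl (Sum.inr j))))) ∨
      (((∃ i ∈ (Finset.univ : Finset (Fin S)),
        BadPos r (apc C r s i) (xsG (mdl n m k) ω)) ∨
      (∃ π ∈ (Finset.univ : Finset (Path (Fin L) (m + 1))),
        ∃ J ∈ (Finset.univ : Finset (Fin d → Option (Code Nv))),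
          BadPos r (famJ d C out r s π J) (xsG (mdl n m k) ω))) ∨
      (∃ T ∈ Finset.powersetCard wt (Finset.univ : Finset (Fin Nv)),
        Fail N κ (m * (B * δ)) m (kfam2 d C out r s (Λ * r) T)
          (fun c => (show Fin n from ω (Sum.inl (Sum.inl c))))))) := by
    apply exists_not_of_avg_lt
    refine lt_of_le_of_lt (avg_mono fun ω => (ind_or_le _ _).trans
      (add_le_add le_rfl ((ind_or_le _ _).trans
        (add_le_add ((ind_or_le _ _).trans (add_le_add (ind_exists_le _ _)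
          ((ind_exists_le _ _).trans (Finset.sum_le_sum fun π _ => ind_exists_le _ _))))
          (ind_exists_le _ _))))) ?_
    rw [avg_add, avg_add, avg_add, avg_sum, avg_sum, avg_sum]
    have e1 : avg (fun ω : Os n m k => ind (¬ Function.Injective
        (fun j : Fin k => (show Fin n from ω (Sum.inl (Sum.inr j)))))) ≤
        ((k * k : ℕ) : ℝ) / n := by
      have e11 := avg_marg2 (m := m) (k := k) (n := n)
        (fun ω1 => ind (¬ Function.Injective (fun j : Fin k => ω1 (Sum.inr j))))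
      exact e11.trans_le (avg_not_inj (m := m) (k := k) (n := n))
    have e2 : ∑ i ∈ (Finset.univ : Finset (Fin S)), avg (fun ω : Os n m k =>
        ind (BadPos r (apc C r s i) (xsG (mdl n m k) ω))) ≤ S * η := by
      rw [hη]
      refine (Finset.sum_le_sum fun i _ => posG mdl_inj _ (apc_card C hs1 i) hr hq).trans_eq ?_
      rw [Finset.sum_const, nsmul_eq_mul, Finset.card_univ, Fintype.card_fin]
    have e3 : ∑ π ∈ (Finset.univ : Finset (Path (Fin L) (m + 1))),
        avg (fun ω : Os n m k => ∑ J ∈ (Finset.univ : Finset (Fin d → Option (Code Nv))),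
          ind (BadPos r (famJ d C out r s π J) (xsG (mdl n m k) ω))) ≤ P * (Mc * η) := by
      have e31 : ∀ π ∈ (Finset.univ : Finset (Path (Fin L) (m + 1))),
          avg (fun ω : Os n m k => ∑ J ∈ (Finset.univ : Finset (Fin d → Option (Code Nv))),
          ind (BadPos r (famJ d C out r s π J) (xsG (mdl n m k) ω))) ≤ Mc * η := by
        intro π _
        rw [avg_sum]
        have e32 : ∀ J ∈ (Finset.univ : Finset (Fin d → Option (Code Nv))),
            avg (fun ω : Os n m k => ind (BadPos r (famJ d C out r s π J)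
              (xsG (mdl n m k) ω))) ≤ η := by
          intro J _
          rw [hη]
          refine posG mdl_inj _ ?_ hr hq
          rintro K ⟨cl, _, hK⟩
          exact apc_card C hs1 _ K hK
        refine (Finset.sum_le_sum e32).trans ?_
        rw [Finset.sum_const, nsmul_eq_mul, Finset.card_univ, card_codes]
        exact mul_le_mul_of_nonneg_right (by exact_mod_cast hMc) hη0
      refine (Finset.sum_le_sum e31).trans ?_
      rw [Finset.sum_const, nsmul_eq_mul, Finset.card_univ]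
      exact mul_le_mul_of_nonneg_right hP (by positivity)
    have e4 : ∑ T ∈ Finset.powersetCard wt (Finset.univ : Finset (Fin Nv)),
        avg (fun ω : Os n m k => ind (Fail N κ (m * (B * δ)) m
          (kfam2 d C out r s (Λ * r) T)
          (fun c => (show Fin n from ω (Sum.inl (Sum.inl c)))))) ≤
        (Nv : ℝ) ^ wt * ((m + 1) * (B * ((sl : ℝ) / n) ^ κ)) := by
      have e5 : ∀ T ∈ Finset.powersetCard wt (Finset.univ : Finset (Fin Nv)),
          avg (fun ω : Os n m k => ind (Fail N κ (m * (B * δ)) m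
            (kfam2 d C out r s (Λ * r) T)
            (fun c => (show Fin n from ω (Sum.inl (Sum.inl c)))))) ≤
          (m + 1) * (B * ((sl : ℝ) / n) ^ κ) := by
        intro T _
        have e61 := avg_marg2 (m := m) (k := k) (n := n)
          (fun ω1 => ind (Fail N κ (m * (B * δ)) m
            (kfam2 d C out r s (Λ * r) T) (fun c => ω1 (Sum.inl c))))
        have e62 := avg_marg (Equiv.refl (Co n m k) : Co n m k ≃ Cs n (m + 1) ⊕ Fin k)
          (fun ω1 : Cs n (m + 1) → Fin n => ind (Fail N κ (m * (B * δ)) m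
            (kfam2 d C out r s (Λ * r) T) ω1))
        refine e61.trans_le ((le_of_eq e62).trans ?_)
        refine level hB1 rfl hδ m _ hc1 (fun i hi => hc2 i hi.le) ?_
        rintro π K ⟨u', K0, hK0, rfl⟩
        exact Finset.card_image_le.trans (hK0.1.trans hssl)
      refine (Finset.sum_le_sum e5).trans ?_
      rw [Finset.sum_const, nsmul_eq_mul, Finset.card_powersetCard, Finset.card_univ,
        Fintype.card_fin]
      apply mul_le_mul_of_nonneg_right
      · exact_mod_cast Nat.choose_le_pow Nv wt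
      · have : 0 ≤ B := by linarith
        positivity
    have e7 : ((S : ℝ) + P * Mc) * η = S * η + P * (Mc * η) := by ring
    linarith
  rw [not_or, not_or, not_or, not_not] at hω
  obtain ⟨hω1, ⟨hω2, hω2'⟩, hω3⟩ := hω
  push Not at hω2 hω2' hω3
  -- a solution of the target formula
  obtain ⟨T, hT1, hT2⟩ := h1 _ (sat_xs2 hω1)
  have hFV := kfam2_pos (r := r) (s := s) (Λ := Λ) (by rw [hT1]; exact hΛ)
    (fun i => hω2 i (Finset.mem_univ _))
    (fun π J => hω2' π (Finset.mem_univ _) J (Finset.mem_univ _)) hT2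
  have hnf := hω3 T (Finset.mem_powersetCard.mpr ⟨Finset.subset_univ _, hT1⟩)
  obtain ⟨F, hF1, hF2⟩ : ∃ F : Finset (Fin n × Fin n), F.card ≤ κ ∧
      avg (fun y : NegSp n N (m + 1) => ind (¬ FV m (kfam2 d C out r s (Λ * r) T)
        (Ok F (m + 1) y))) ≤ m * (B * δ) := by
    by_contra hcon
    exact hnf ⟨hFV, hcon⟩
  -- a good dense input
  obtain ⟨p, hp⟩ : ∃ p : NegSp n N (m + 1) × (E2 n m → Fin b),
      ¬ ((¬ FV m (kfam2 d C out r s (Λ * r) T) (Ok F (m + 1) p.1)) ∨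
      (((∃ i ∈ (Finset.univ : Finset (Fin S)),
        NegBadC C r s (ys p.2 ∪ Wb2 F p.1) i) ∨
      (∃ q ∈ (Finset.univ : Finset (Path (Fin L) m × Fin L)),
        BadNeg s (dfam d C out r s (Λ * r) T q.1 q.2) (ys p.2 ∪ Wb2 F p.1))) ∨
      (Bd F (m + 1) p.1 ∨ (∃ T2 ∈ Finset.powersetCard H (Finset.univ : Finset (Fin n)),
        ∃ w ∈ (Finset.univ : Finset (Path (Fin n) (m + 1))), Open T2 p.2 w)))) := by
    have : Nonempty (NegSp n N (m + 1) × (E2 n m → Fin b)) := inferInstance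
    apply exists_not_of_avg_lt
    refine lt_of_le_of_lt (avg_mono fun p => (ind_or_le _ _).trans
      (add_le_add le_rfl ((ind_or_le _ _).trans
        (add_le_add ((ind_or_le _ _).trans (add_le_add (ind_exists_le _ _) (ind_exists_le _ _)))
          ((ind_or_le _ _).trans (add_le_add le_rfl (ind_exists_le _ _))))))) ?_
    rw [avg_add, avg_add, avg_add, avg_add]
    have hpr : ∀ f : NegSp n N (m + 1) → (E2 n m → Fin b) → ℝ,
        avg (fun p : NegSp n N (m + 1) × (E2 n m → Fin b) => f p.1 p.2) =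
        avg (fun y => avg (fun e => f y e)) :=
      fun f => avg_prod (Equiv.refl _) f
    have a1 : avg (fun p : NegSp n N (m + 1) × (E2 n m → Fin b) =>
        ind (¬ FV m (kfam2 d C out r s (Λ * r) T) (Ok F (m + 1) p.1))) ≤ m * (B * δ) := by
      rw [hpr (fun y _ => ind (¬ FV m (kfam2 d C out r s (Λ * r) T) (Ok F (m + 1) y)))]
      simp only [avg_const]
      exact hF2
    have a2 : avg (fun p : NegSp n N (m + 1) × (E2 n m → Fin b) =>
        ∑ i ∈ (Finset.univ : Finset (Fin S)),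
          ind (NegBadC C r s (ys p.2 ∪ Wb2 F p.1) i)) ≤ S * δ0 := by
      rw [avg_sum]
      have a21 : ∀ i ∈ (Finset.univ : Finset (Fin S)),
          avg (fun p : NegSp n N (m + 1) × (E2 n m → Fin b) =>
            ind (NegBadC C r s (ys p.2 ∪ Wb2 F p.1) i)) ≤ δ0 := by
        intro i _
        rw [hpr (fun y e => ind (NegBadC C r s (ys e ∪ Wb2 F y) i))]
        refine avg_le_of_le fun y => ?_
        rw [hδ0]
        unfold NegBadC
        split
        · apply neg_lemma2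
          rintro z ⟨hz, _⟩
          exact hz.trans hrr
        · have h0 : (fun e : E2 n m → Fin b => ind False) = fun _ => (0 : ℝ) := by
            funext ω
            exact ind_false (fun h => h)
          have h00 : avg (fun _ : E2 n m → Fin b => (0 : ℝ)) = 0 := avg_const 0
          rw [h0, h00]
          positivity
      refine (Finset.sum_le_sum a21).trans_eq ?_
      rw [Finset.sum_const, nsmul_eq_mul, Finset.card_univ, Fintype.card_fin]
    have a3 : avg (fun p : NegSp n N (m + 1) × (E2 n m → Fin b) =>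
        ∑ q ∈ (Finset.univ : Finset (Path (Fin L) m × Fin L)),
          ind (BadNeg s (dfam d C out r s (Λ * r) T q.1 q.2) (ys p.2 ∪ Wb2 F p.1))) ≤
        B * δ0 := by
      rw [avg_sum]
      have a31 : ∀ q ∈ (Finset.univ : Finset (Path (Fin L) m × Fin L)),
          avg (fun p : NegSp n N (m + 1) × (E2 n m → Fin b) =>
            ind (BadNeg s (dfam d C out r s (Λ * r) T q.1 q.2) (ys p.2 ∪ Wb2 F p.1))) ≤ δ0 := by
        intro q _
        rw [hpr (fun y e => ind (BadNeg s (dfam d C out r s (Λ * r) T q.1 q.2)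
          (ys e ∪ Wb2 F y)))]
        refine avg_le_of_le fun y => ?_
        rw [hδ0]
        apply neg_lemma2
        rintro z ⟨hz, _⟩
        exact hz
      refine (Finset.sum_le_sum a31).trans ?_
      rw [Finset.sum_const, nsmul_eq_mul, Finset.card_univ]
      exact mul_le_mul_of_nonneg_right (hc2 m le_rfl) hδ00
    have a4 : avg (fun p : NegSp n N (m + 1) × (E2 n m → Fin b) => ind (Bd F (m + 1) p.1)) ≤
        ((m + 1 : ℕ) : ℝ) * (M * (1 / (N : ℝ)) ^ (n - κ)) := by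
      rw [hpr (fun y _ => ind (Bd F (m + 1) y))]
      simp only [avg_const]
      exact avg_Bd hF1 (m + 1) (fun i hi => hM i hi.le)
    have a5 : avg (fun p : NegSp n N (m + 1) × (E2 n m → Fin b) =>
        ∑ T2 ∈ Finset.powersetCard H (Finset.univ : Finset (Fin n)),
          ind (∃ w ∈ (Finset.univ : Finset (Path (Fin n) (m + 1))), Open T2 p.2 w)) ≤
        (n : ℝ) ^ H * (M * (1 - (1 / (b : ℝ)) ^ H) ^ n) := by
      rw [avg_sum]
      have hM0 : 0 ≤ M := le_trans (Nat.cast_nonneg _) (hM m (by omega))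
      have a51 : ∀ T2 ∈ Finset.powersetCard H (Finset.univ : Finset (Fin n)),
          avg (fun p : NegSp n N (m + 1) × (E2 n m → Fin b) =>
            ind (∃ w ∈ (Finset.univ : Finset (Path (Fin n) (m + 1))), Open T2 p.2 w)) ≤
          M * (1 - (1 / (b : ℝ)) ^ H) ^ n := by
        intro T2 hT2
        have hc := (Finset.mem_powersetCard.mp hT2).2
        rw [hpr (fun _ e => ind (∃ w ∈ (Finset.univ : Finset (Path (Fin n) (m + 1))),
          Open T2 e w)), avg_const, ← hc]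
        exact avg_anyOpen (hM (m + 1) le_rfl) T2
      refine (Finset.sum_le_sum a51).trans ?_
      rw [Finset.sum_const, nsmul_eq_mul, Finset.card_powersetCard, Finset.card_univ,
        Fintype.card_fin]
      apply mul_le_mul_of_nonneg_right
      · exact_mod_cast Nat.choose_le_pow n H
      · have hb1 : (1 : ℝ) ≤ b := by exact_mod_cast NeZero.one_le
        have : (1 / (b : ℝ)) ^ H ≤ 1 :=
          pow_le_one₀ (by positivity) (by rw [div_le_one hb0]; exact hb1)
        have : 0 ≤ (1 - (1 / (b : ℝ)) ^ H) ^ n := pow_nonneg (by linarith) _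
        positivity
    rw [← hδ, ← hδ0] at hneg
    have hsum : (S + B) * δ0 = S * δ0 + B * δ0 := by ring
    linarith
  rw [not_or, not_or, not_or, not_or, not_not] at hp
  obtain ⟨hp1, ⟨hp2, hp3⟩, hp4, hp5⟩ := hp
  push Not at hp2 hp3
  -- the target formula is still satisfiable
  have hsat := kfam2_neg (fun i => hp2 i (Finset.mem_univ _))
    (fun π u' => hp3 (π, u') (Finset.mem_univ _)) hp1
  obtain ⟨T2, hT21, hT22⟩ := h2 _ ⟨T, hT1, hsat⟩
  exact dense_unsat2 hp4 (fun hex => hp5 ⟨T2,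
    Finset.mem_powersetCard.mpr ⟨Finset.subset_univ _, hT21⟩, hex⟩) hT22

end

end Pool.Agent.H68MT
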