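import Mathlib

/-! Monotone Boolean circuits, and weighted satisfiability for alternating formulas. -/

namespace Pool.Agent.H68MT

open Finset Classical

noncomputable section

/-- the gate number `i` of a monotone circuit with input bits indexed by `E`: an input bit, a
constant, or the conjunction or disjunction of the values of two gates with smaller numbers -/
inductive Gate (E : Type) (i : ℕ) : Type
  | input (e : E) : Gate E i
  | const (v : Bool) : Gate E i
  | and (a b : Fin i) : Gate E i
  | or (a b : Fin i) : Gate E i

/-- a monotone circuit with `S` gates over the input bits `E` -/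
def Circuit (E : Type) (S : ℕ) : Type := ∀ i : Fin S, Gate E i

/-- the value of the gate number `i` of the circuit on the input `x` -/
def Circuit.eval {E : Type} {S : ℕ} (C : Circuit E S) (x : E → Bool) (i : Fin S) : Bool :=
  match C i with
  | .input e => x e
  | .const v => v
  | .and a b => eval C x ⟨a, a.2.trans i.2⟩ && eval C x ⟨b, b.2.trans i.2⟩
  | .or a b => eval C x ⟨a, a.2.trans i.2⟩ || eval C x ⟨b, b.2.trans i.2⟩
termination_by i.val
decreasing_by
  all_goals first
    | exact a.2
    | exact b.2

/-- sequences of `j` pairs of elements of `I` -/
def Path (I : Type) : ℕ → Type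
  | 0 => Unit
  | j + 1 => Path I j × I × I

/-- value of `2 * j` alternating levels of gates, a conjunction on top, where `P` gives the values
of the subformulas at the bottom: for all `u₁` there is `u₁'` such that for all `u₂` there is `u₂'`
such that ... for all `u_j` there is `u_j'` such that `P (u₁, u₁', u₂, u₂', ..., u_j, u_j')` -/
def val {I : Type} : (j : ℕ) → (Path I j → Prop) → Prop
  | 0, P => P ()
  | j + 1, P => val j (fun π => ∀ u, ∃ u', P (π, u, u'))

/-- `k`-satisfiability of a formula without positive literals that has `2 * m + 1` alternating
levels of gates, the topmost and the bottom ones being conjunctions, in the variables `X_v`,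
`v < n`. All gates above the bottom level have fan-in `n`; the literal `¬ X_v` occurs in the bottom
conjunction number `w` iff `x (w, v) = false`. There is a set `T` of exactly `k` variables such that
the assignment whose true variables are those in `T` satisfies the formula. -/
def Sat1 {n m : ℕ} (k : ℕ) (x : Path (Fin n) m × Fin n → Bool) : Prop :=
  ∃ T : Finset (Fin n), T.card = k ∧ val m (fun w => ∀ v ∈ T, x (w, v) = true)

/-- `k`-satisfiability of a formula with `2 * m + 2` alternating levels of gates, the topmost being
conjunctions, in the variables `X_v`, `v < N`. All gates above the bottom level have fan-in `L`.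
The bottom gate number `(π, u)` is the disjunction of those conjunctions `cl` of at most `d`
literals for which `occ π u cl = true`; the literal `(v, true)` is the variable `X_v` and
`(v, false)` is its negation. -/
def Sat0 {N L m : ℕ} (d k : ℕ) (occ : Path (Fin L) m → Fin L → Finset (Fin N × Bool) → Bool) :
    Prop :=
  ∃ T : Finset (Fin N), T.card = k ∧ val m (fun π => ∀ u, ∃ cl : Finset (Fin N × Bool),
    cl.card ≤ d ∧ occ π u cl = true ∧ ∀ l ∈ cl, (l.1 ∈ T ↔ l.2 = true))

/-- There is an fpt-reduction, computed by monotone circuits, from weighted satisfiability of
formulas with `2 * m + 3` levels (`p-WSAT(Γ_{2m+3,1})`) to weighted satisfiability of formulas with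
`2 * m + 2` levels over conjunctions of at most `d` literals (`p-WSAT(Γ_{2m+2,d})`), for the gap
version with the gap `h`: for all `k` and `n` there are a monotone circuit with at most
`f k * (n + 1) ^ c` gates and a shape of formulas of size at most `f k * (n + 1) ^ c` and a weight
at most `g k`, so that the gates `out` compute from every formula `x` with fan-in `n` a formula
which is satisfiable with that weight if `x` is `k`-satisfiable, and not satisfiable with that
weight if `x` is not `h k`-satisfiable. -/
def MonotoneReduction (m d : ℕ) (h : ℕ → ℕ) : Prop :=
  ∃ (c : ℕ) (f g : ℕ → ℕ), ∀ k n : ℕ, ∃ (S N L w : ℕ)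
    (C : Circuit (Path (Fin n) (m + 1) × Fin n) S)
    (out : Path (Fin L) m → Fin L → Finset (Fin N × Bool) → Fin S),
    S ≤ f k * (n + 1) ^ c ∧ N ≤ f k * (n + 1) ^ c ∧ L ≤ f k * (n + 1) ^ c ∧ w ≤ g k ∧
    ∀ x : Path (Fin n) (m + 1) × Fin n → Bool,
      (Sat1 k x → Sat0 d w (fun π u cl => C.eval x (out π u cl))) ∧
      (Sat0 d w (fun π u cl => C.eval x (out π u cl)) → Sat1 (h k) x)

end

end Pool.Agent.H68MT
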