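import Pool.Agent.H68MT.Sparse

set_option linter.unusedSectionVars false

/-! The dense inputs are not satisfiable. -/

namespace Pool.Agent.H68MT

open Finset Classical
open Pool.Agent.H592R2

noncomputable section

variable {m n N β : ℕ} [NeZero n] [NeZero N] [NeZero β]

/-- input bits below selected nodes -/
def Wb (F : Finset (Fin n × Fin n)) (y : NegSp n N (m + 1)) : Finset (Ei n m) :=
  Finset.univ.filter (fun e => Ok F (m + 1) y e.1)

lemma mem_Wb {F : Finset (Fin n × Fin n)} {y : NegSp n N (m + 1)} {e : Ei n m} :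
    e ∈ Wb F y ↔ Ok F (m + 1) y e.1 := by
  unfold Wb
  rw [Finset.mem_filter]
  simp

/-- first moves touched by `F` -/
def Rw (F : Finset (Fin n × Fin n)) : Finset (Fin n) := F.image Prod.fst

lemma avg_ones {C : Type} [Fintype C] [DecidableEq C] (O : Finset C) :
    avg (fun ω : C → Fin N => ind (∀ c ∈ O, ω c = 0)) = (1 / (N : ℝ)) ^ O.card := by
  have h := avg_zo (N := N) (∅ : Finset C) O (by simp)
  simpa using h

/-- some node has no dead moves -/
def Bd (F : Finset (Fin n × Fin n)) : (i : ℕ) → NegSp n N i → Prop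
  | 0, _ => False
  | i + 1, y => Bd F i y.1 ∨ ∃ w : Path (Fin n) i, ∀ a, a ∉ Rw F → y.2 (Sum.inl (w, a)) = 0

lemma not_val {F : Finset (Fin n × Fin n)} : ∀ (i : ℕ) (y : NegSp n N i)
    (G : Path (Fin n) i → Prop), ¬ Bd F i y → (∀ w, G w → Ok F i y w) → ¬ val i G
  | 0, _, _, _, h, hv => h () hv
  | i + 1, y, G, hB, h, hv => by
      have hB' : ¬ (Bd F i y.1 ∨
        ∃ w : Path (Fin n) i, ∀ a, a ∉ Rw F → y.2 (Sum.inl (w, a)) = 0) := hB
      rw [not_or] at hB'
      refine not_val i y.1 _ hB'.1 (fun w hw => ?_) hv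
      by_contra hcon
      apply hB'.2
      refine ⟨w, fun a ha => ?_⟩
      obtain ⟨b, hb⟩ := hw a
      have h1 := h _ hb
      have h2 : Ok F i y.1 w ∨ (y.2 (Sum.inl (w, a)) = 0 ∧ y.2 (Sum.inr (w, a, b)) = 0) ∨
          (i = 0 ∧ (a, b) ∈ F) := h1
      rcases h2 with h3 | h3 | h3
      · exact absurd h3 hcon
      · exact h3.1
      · exact absurd (Finset.mem_image_of_mem Prod.fst h3.2) ha

/-- the lowest selected level is too dense for the variables in `T` -/
def LastBad (F : Finset (Fin n × Fin n)) (T : Finset (Fin n)) (y2 : Cn n m → Fin N)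
    (e : Ei n m → Fin β) : Prop :=
  ∃ w ∈ (Finset.univ : Finset (Path (Fin n) m)), ∀ a ∈ Finset.univ \ Rw F,
    y2 (Sum.inl (w, a)) = 0 ∨ ∃ b : Fin n, ∀ v ∈ T, e (((w, a, b) : Path (Fin n) (m + 1)), v) = 0

lemma dense_unsat {F : Finset (Fin n × Fin n)} {T : Finset (Fin n)} {y1 : NegSp n N m}
    {y2 : Cn n m → Fin N} {e : Ei n m → Fin β} (h1 : ¬ Bd F m y1) (h2 : ¬ LastBad F T y2 e) :
    ¬ val (m + 1) (fun w => ∀ v ∈ T,
      inp (on e ∪ Wb F ((y1, y2) : NegSp n N (m + 1))) (w, v) = true) := by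
  intro hv
  refine not_val m y1 _ h1 (fun w hw => ?_) hv
  by_contra hcon
  apply h2
  refine ⟨w, Finset.mem_univ _, fun a ha => ?_⟩
  rw [Finset.mem_sdiff] at ha
  obtain ⟨b, hb⟩ := hw a
  by_cases hex : Ok F (m + 1) ((y1, y2) : NegSp n N (m + 1)) ((w, a, b) : Path (Fin n) (m + 1))
  · left
    have h3 : Ok F m y1 w ∨ (y2 (Sum.inl (w, a)) = 0 ∧ y2 (Sum.inr (w, a, b)) = 0) ∨
          (m = 0 ∧ (a, b) ∈ F) := hex
    rcases h3 with h4 | h4 | h4
    · exact absurd h4 hcon
    · exact h4.1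
    · exact absurd (Finset.mem_image_of_mem Prod.fst h4.2) ha.2
  · right
    refine ⟨b, fun v hv => ?_⟩
    have h4 := inp_iff.mp (hb v hv)
    rw [Finset.mem_union, mem_on] at h4
    rcases h4 with h4 | h4
    · exact h4
    · exact absurd (mem_Wb.mp h4) hex

lemma card_rw {F : Finset (Fin n × Fin n)} {κ : ℕ} (hF : F.card ≤ κ) :
    n - κ ≤ (Finset.univ \ Rw F : Finset (Fin n)).card := by
  rw [Finset.card_univ_sdiff, Fintype.card_fin]
  have : (Rw F).card ≤ F.card := Finset.card_image_le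
  omega

lemma avg_Bd {F : Finset (Fin n × Fin n)} {κ : ℕ} (hF : F.card ≤ κ) {M : ℝ} :
    ∀ i : ℕ, (∀ i' < i, (Fintype.card (Path (Fin n) i') : ℝ) ≤ M) →
      avg (fun y : NegSp n N i => ind (Bd F i y)) ≤ i * (M * (1 / (N : ℝ)) ^ (n - κ)) := by
  have hN1 : (1 : ℝ) ≤ N := by exact_mod_cast NeZero.one_le
  have hN0 : (0 : ℝ) < N := by linarith
  intro i
  induction i with
  | zero =>
    intro _
    have h0 : (fun y : NegSp n N 0 => ind (Bd F 0 y)) = fun _ => (0 : ℝ) := by
      funext y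
      exact ind_false (fun h => h)
    rw [h0]
    have h00 : avg (fun _ : NegSp n N 0 => (0 : ℝ)) = 0 := avg_const 0
    rw [h00]
    simp
  | succ i ih =>
    intro hM
    have hprod := avg_prod (Equiv.refl (NegSp n N (i + 1)) :
        NegSp n N (i + 1) ≃ NegSp n N i × (Cn n i → Fin N))
      (fun y1 y2 => ind (Bd F (i + 1) ((y1, y2) : NegSp n N (i + 1))))
    have hprod' : avg (fun y : NegSp n N (i + 1) => ind (Bd F (i + 1) y)) =
        avg (fun y1 : NegSp n N i => avg (fun y2 : Cn n i → Fin N =>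
          ind (Bd F (i + 1) ((y1, y2) : NegSp n N (i + 1))))) := hprod
    rw [hprod']
    have hin : ∀ y1 : NegSp n N i, avg (fun y2 : Cn n i → Fin N =>
        ind (Bd F (i + 1) ((y1, y2) : NegSp n N (i + 1)))) ≤
        ind (Bd F i y1) + M * (1 / (N : ℝ)) ^ (n - κ) := by
      intro y1
      have hpt : ∀ y2 : Cn n i → Fin N, ind (Bd F (i + 1) ((y1, y2) : NegSp n N (i + 1))) ≤
          ind (Bd F i y1) + ∑ w ∈ (Finset.univ : Finset (Path (Fin n) i)),
            ind (∀ c ∈ (Finset.univ \ Rw F).image (fun a => (Sum.inl (w, a) : Cn n i)),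
              y2 c = 0) := by
        intro y2
        refine le_trans (ind_mono ?_) ((ind_or_le _ _).trans
          (add_le_add le_rfl (ind_exists_le Finset.univ _)))
        intro h
        have h' : Bd F i y1 ∨ ∃ w : Path (Fin n) i, ∀ a, a ∉ Rw F → y2 (Sum.inl (w, a)) = 0 := h
        rcases h' with h' | ⟨w, hw⟩
        · exact Or.inl h'
        · right
          refine ⟨w, Finset.mem_univ _, ?_⟩
          intro c hc
          obtain ⟨a, ha, rfl⟩ := Finset.mem_image.mp hc
          exact hw a (Finset.mem_sdiff.mp ha).2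
      refine (avg_mono hpt).trans ?_
      rw [avg_add, avg_const, avg_sum]
      apply add_le_add le_rfl
      have h1 : ∀ w ∈ (Finset.univ : Finset (Path (Fin n) i)),
          avg (fun y2 : Cn n i → Fin N => ind (∀ c ∈ (Finset.univ \ Rw F).image
            (fun a => (Sum.inl (w, a) : Cn n i)), y2 c = 0)) ≤ (1 / (N : ℝ)) ^ (n - κ) := by
        intro w _
        rw [avg_ones, Finset.card_image_of_injective]
        · exact pow_le_pow_of_le_one (by positivity) (by rw [div_le_one hN0]; exact hN1)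
            (card_rw hF)
        · intro a a' h
          have := Sum.inl_injective h
          exact congrArg Prod.snd this
      refine (Finset.sum_le_sum h1).trans ?_
      rw [Finset.sum_const, nsmul_eq_mul, Finset.card_univ]
      exact mul_le_mul_of_nonneg_right (hM i (by omega)) (by positivity)
    refine (avg_mono hin).trans ?_
    rw [avg_add, avg_const]
    have := ih (fun i' hi' => hM i' (by omega))
    push_cast
    linarith

/-- the blocks of `T` -/
lemma avg_blocks (w : Path (Fin n) m) (T : Finset (Fin n)) (U : Finset (Fin n)) :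
    avg (fun e : Ei n m → Fin β => ind (∀ a ∈ U, ∃ b : Fin n, ∀ v ∈ T,
      e (((w, a, b) : Path (Fin n) (m + 1)), v) = 0)) ≤
        ((n : ℝ) * (1 / (β : ℝ)) ^ T.card) ^ U.card := by
  have h1 : ∀ e : Ei n m → Fin β, ind (∀ a ∈ U, ∃ b : Fin n, ∀ v ∈ T,
      e (((w, a, b) : Path (Fin n) (m + 1)), v) = 0) ≤
      ∑ φ ∈ (Finset.univ : Finset (U → Fin n)), ind (∀ c ∈ ((Finset.univ : Finset U) ×ˢ T).image
        (fun q => ((((w, q.1.val, φ q.1) : Path (Fin n) (m + 1)), q.2) : Ei n m)), e c = 0) := by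
    intro e
    refine le_trans (ind_mono ?_) (ind_exists_le Finset.univ _)
    intro h
    choose φ hφ using fun a : U => h a.1 a.2
    refine ⟨φ, Finset.mem_univ _, ?_⟩
    intro c hc
    obtain ⟨q, hq, rfl⟩ := Finset.mem_image.mp hc
    exact hφ q.1 q.2 (Finset.mem_product.mp hq).2
  refine (avg_mono h1).trans ?_
  rw [avg_sum]
  have h2 : ∀ φ : U → Fin n, avg (fun e : Ei n m → Fin β =>
      ind (∀ c ∈ ((Finset.univ : Finset U) ×ˢ T).image
        (fun q => ((((w, q.1.val, φ q.1) : Path (Fin n) (m + 1)), q.2) : Ei n m)), e c = 0)) =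
      (1 / (β : ℝ)) ^ (U.card * T.card) := by
    intro φ
    rw [avg_ones, Finset.card_image_of_injective, Finset.card_product, Finset.card_univ,
      Fintype.card_coe]
    intro q q' h
    have h' : ((((w, q.1.val, φ q.1) : Path (Fin n) (m + 1)), q.2) : Ei n m) =
      (((w, q'.1.val, φ q'.1) : Path (Fin n) (m + 1)), q'.2) := h
    have h3 : ((w, q.1.val, φ q.1) : Path (Fin n) (m + 1)) = (w, q'.1.val, φ q'.1) :=
      congrArg Prod.fst h'
    have h4 := congrArg Prod.snd h' 
    have h5 : (q.1.val, φ q.1) = (q'.1.val, φ q'.1) := congrArg Prod.snd h3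
    have h6 : q.1.val = q'.1.val := congrArg Prod.fst h5
    exact Prod.ext (Subtype.ext h6) h4
  simp only [h2]
  rw [Finset.sum_const, nsmul_eq_mul, Finset.card_univ, Fintype.card_fun, Fintype.card_fin,
    Fintype.card_coe, mul_pow, ← pow_mul, mul_comm T.card]
  push_cast
  exact le_rfl

/-- probability of the event for the lowest level -/
lemma avg_last {F : Finset (Fin n × Fin n)} {κ : ℕ} (hF : F.card ≤ κ) {M : ℝ}
    (hM : (Fintype.card (Path (Fin n) m) : ℝ) ≤ M) (T : Finset (Fin n))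
    (hle : 1 / (N : ℝ) + (n : ℝ) * (1 / (β : ℝ)) ^ T.card ≤ 1) :
    avg (fun y2 : Cn n m → Fin N => avg (fun e : Ei n m → Fin β => ind (LastBad F T y2 e))) ≤
      M * (1 / (N : ℝ) + (n : ℝ) * (1 / (β : ℝ)) ^ T.card) ^ (n - κ) := by
  have hN0 : (0 : ℝ) < N := by exact_mod_cast NeZero.pos N
  have hβ0 : (0 : ℝ) < β := by exact_mod_cast NeZero.pos β
  set Q : Finset (Fin n) := Finset.univ \ Rw F with hQ
  set ν : ℝ := (n : ℝ) * (1 / (β : ℝ)) ^ T.card with hν
  have hν0 : 0 ≤ ν := by positivity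
  have hpt : ∀ (y2 : Cn n m → Fin N) (e : Ei n m → Fin β), ind (LastBad F T y2 e) ≤
      ∑ w ∈ (Finset.univ : Finset (Path (Fin n) m)), ∑ U ∈ Q.powerset,
        ind (∀ c ∈ U.image (fun a => (Sum.inl (w, a) : Cn n m)), y2 c = 0) *
        ind (∀ a ∈ Q \ U, ∃ b : Fin n, ∀ v ∈ T,
          e (((w, a, b) : Path (Fin n) (m + 1)), v) = 0) := by
    intro y2 e
    refine (ind_exists_le Finset.univ _).trans (Finset.sum_le_sum fun w _ => ?_)
    by_cases h : ∀ a ∈ Q, y2 (Sum.inl (w, a)) = 0 ∨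
        ∃ b : Fin n, ∀ v ∈ T, e (((w, a, b) : Path (Fin n) (m + 1)), v) = 0
    · rw [ind_true h]
      refine le_trans ?_ (Finset.single_le_sum (f := fun U =>
        ind (∀ c ∈ U.image (fun a => (Sum.inl (w, a) : Cn n m)), y2 c = 0) *
        ind (∀ a ∈ Q \ U, ∃ b : Fin n, ∀ v ∈ T,
          e (((w, a, b) : Path (Fin n) (m + 1)), v) = 0))
        (fun U _ => mul_nonneg (ind_nonneg _) (ind_nonneg _))
        (Finset.mem_powerset.mpr (Finset.filter_subset (fun a => y2 (Sum.inl (w, a)) = 0) Q)))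
      rw [ind_true, ind_true]
      · norm_num
      · intro a ha
        rw [Finset.mem_sdiff, Finset.mem_filter] at ha
        rcases h a ha.1 with h1 | h1
        · exact absurd ⟨ha.1, h1⟩ ha.2
        · exact h1
      · intro c hc
        obtain ⟨a, ha, rfl⟩ := Finset.mem_image.mp hc
        exact (Finset.mem_filter.mp ha).2
    · rw [ind_false h]
      exact Finset.sum_nonneg fun U _ => mul_nonneg (ind_nonneg _) (ind_nonneg _)
  have h1 : avg (fun y2 : Cn n m → Fin N => avg (fun e : Ei n m → Fin β =>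
      ind (LastBad F T y2 e))) ≤
      ∑ w ∈ (Finset.univ : Finset (Path (Fin n) m)), ∑ U ∈ Q.powerset,
        (1 / (N : ℝ)) ^ U.card * ν ^ (Q.card - U.card) := by
    refine (avg_mono fun y2 => avg_mono (hpt y2)).trans ?_
    have h2 : ∀ y2 : Cn n m → Fin N, avg (fun e : Ei n m → Fin β =>
        ∑ w ∈ (Finset.univ : Finset (Path (Fin n) m)), ∑ U ∈ Q.powerset,
        ind (∀ c ∈ U.image (fun a => (Sum.inl (w, a) : Cn n m)), y2 c = 0) *
        ind (∀ a ∈ Q \ U, ∃ b : Fin n, ∀ v ∈ T,
          e (((w, a, b) : Path (Fin n) (m + 1)), v) = 0)) ≤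
        ∑ w ∈ (Finset.univ : Finset (Path (Fin n) m)), ∑ U ∈ Q.powerset,
        ind (∀ c ∈ U.image (fun a => (Sum.inl (w, a) : Cn n m)), y2 c = 0) *
          ν ^ (Q.card - U.card) := by
      intro y2
      rw [avg_sum]
      refine Finset.sum_le_sum fun w _ => ?_
      rw [avg_sum]
      refine Finset.sum_le_sum fun U hU => ?_
      rw [avg_const_mul]
      apply mul_le_mul_of_nonneg_left _ (ind_nonneg _)
      refine (avg_blocks w T (Q \ U)).trans_eq ?_
      rw [Finset.card_sdiff_of_subset (Finset.mem_powerset.mp hU)]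
    refine (avg_mono h2).trans ?_
    rw [avg_sum]
    refine Finset.sum_le_sum fun w _ => ?_
    rw [avg_sum]
    refine Finset.sum_le_sum fun U hU => ?_
    rw [avg_mul_const, avg_ones, Finset.card_image_of_injective]
    intro a a' h
    have := Sum.inl_injective h
    exact congrArg Prod.snd this
  refine h1.trans ?_
  rw [Finset.sum_congr rfl (fun w _ => Finset.sum_pow_mul_eq_add_pow (1 / (N : ℝ)) ν Q),
    Finset.sum_const, nsmul_eq_mul, Finset.card_univ]
  apply mul_le_mul hM _ (by positivity) (le_trans (Nat.cast_nonneg _) hM)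
  exact pow_le_pow_of_le_one (by positivity) hle (card_rw hF)

end

end Pool.Agent.H68MT
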