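import Pool.Agent.H68MT.Sparse2
import Pool.Agent.H68MT.Dense
import Pool.Agent.H68MN.Neg

set_option linter.unusedSectionVars false

/-! The dense inputs for the even levels. -/

namespace Pool.Agent.H68MT

open Finset Classical
open Pool.Agent.H592R2
open Pool.Agent.H68MN (ys mem_ys avg_zero avg_cover)

noncomputable section

section neg

variable {E : Type} [Fintype E] [DecidableEq E] {b : ℕ} [NeZero b]

lemma neg_aux2 {s r : ℕ} (A : Set (Finset E)) (W : Finset E) (hA : ∀ z ∈ A, z.card ≤ r) :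
    ∀ (j : ℕ) (K0 : Finset E), K0.card + j = s → Disjoint K0 W →
      avg (fun ω : E → Fin b => ind ((∀ e ∈ K0, ω e = 0) ∧ BadNeg s A (ys ω ∪ W))) ≤
        ((r : ℝ) / b) ^ j * (1 / (b : ℝ)) ^ K0.card := by
  have hb0 : (0 : ℝ) < b := by exact_mod_cast NeZero.pos b
  intro j
  induction j with
  | zero =>
    intro K0 _ _
    rw [pow_zero, one_mul, ← avg_zero]
    exact avg_mono fun ω => ind_mono fun h => h.1
  | succ j ih =>
    intro K0 hK0 hd
    by_cases hall : ∀ z ∈ A, ∃ e ∈ K0, e ∈ z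
    · have h0 : (fun ω : E → Fin b => ind ((∀ e ∈ K0, ω e = 0) ∧ BadNeg s A (ys ω ∪ W))) =
          fun _ => (0 : ℝ) := by
        funext ω
        apply ind_false
        rintro ⟨h1, _, h3⟩
        apply h3
        refine ⟨K0, ⟨by omega, hall⟩, ?_⟩
        intro e he hcon
        rcases Finset.mem_union.mp hcon with h4 | h4
        · exact mem_ys.mp h4 (h1 e he)
        · exact (Finset.disjoint_left.mp hd he) h4
      rw [h0]
      have : avg (fun _ : E → Fin b => (0 : ℝ)) = 0 := avg_const 0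
      rw [this]
      positivity
    · push Not at hall
      obtain ⟨z, hz, hzK⟩ := hall
      have h1 : ∀ ω : E → Fin b, ind ((∀ e ∈ K0, ω e = 0) ∧ BadNeg s A (ys ω ∪ W)) ≤
          ∑ e ∈ z \ W, ind ((∀ e' ∈ insert e K0, ω e' = 0) ∧ BadNeg s A (ys ω ∪ W)) := by
        intro ω
        refine (ind_mono ?_).trans (ind_exists_le _ _)
        rintro ⟨h2, h3⟩
        have h4 : ¬ z ⊆ ys ω ∪ W := fun hsub => h3.1 ⟨z, hz, hsub⟩
        rw [Finset.not_subset] at h4
        obtain ⟨e, he1, he2⟩ := h4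
        rw [Finset.mem_union, not_or] at he2
        refine ⟨e, Finset.mem_sdiff.mpr ⟨he1, he2.2⟩, ?_, h3⟩
        intro e' he'
        rcases Finset.mem_insert.mp he' with rfl | h
        · by_contra hne
          exact he2.1 (mem_ys.mpr hne)
        · exact h2 e' h
      refine (avg_mono h1).trans ?_
      rw [avg_sum]
      have h4 : ∀ e ∈ z \ W, avg (fun ω : E → Fin b =>
          ind ((∀ e' ∈ insert e K0, ω e' = 0) ∧ BadNeg s A (ys ω ∪ W))) ≤
          ((r : ℝ) / b) ^ j * (1 / (b : ℝ)) ^ (K0.card + 1) := by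
        intro e he
        rw [Finset.mem_sdiff] at he
        have h5 : e ∉ K0 := fun h => hzK e h he.1
        have h6 : (insert e K0).card = K0.card + 1 := Finset.card_insert_of_notMem h5
        have h7 := ih (insert e K0) (by omega) (by
          rw [Finset.disjoint_insert_left]; exact ⟨he.2, hd⟩)
        rw [h6] at h7
        exact h7
      refine (Finset.sum_le_sum h4).trans ?_
      rw [Finset.sum_const, nsmul_eq_mul]
      have h8 : ((z \ W).card : ℝ) ≤ r := by
        exact_mod_cast (Finset.card_le_card Finset.sdiff_subset).trans (hA z hz)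
      have h9 : 0 ≤ ((r : ℝ) / b) ^ j * (1 / (b : ℝ)) ^ (K0.card + 1) := by positivity
      refine (mul_le_mul_of_nonneg_right h8 h9).trans_eq ?_
      rw [pow_succ, pow_succ]
      ring

/-- **Negative lemma** for few zeros. -/
theorem neg_lemma2 {s r : ℕ} (A : Set (Finset E)) (W : Finset E) (hA : ∀ z ∈ A, z.card ≤ r) :
    avg (fun ω : E → Fin b => ind (BadNeg s A (ys ω ∪ W))) ≤ ((r : ℝ) / b) ^ s := by
  have h1 := neg_aux2 (b := b) (s := s) (r := r) A W hA s ∅ (by simp) (by simp)
  simpa using h1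

end neg

section marg

lemma avg_inj {C A : Type} [Fintype C] [DecidableEq C] [Fintype A] [DecidableEq A] {b : ℕ}
    [NeZero b] (f : A → C) (hf : Function.Injective f) (F : (A → Fin b) → ℝ) :
    avg (fun ω : C → Fin b => F (fun a => ω (f a))) = avg F :=
  avg_marg (n := b) ((Equiv.Set.sumCompl (Set.range f)).symm.trans
    (Equiv.sumCongr (Equiv.ofInjective f hf).symm (Equiv.refl _))) F

end marg

variable {m n N b : ℕ} [NeZero n] [NeZero N] [NeZero b]

/-- input bits below selected nodes -/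
def Wb2 (F : Finset (Fin n × Fin n)) (y : NegSp n N (m + 1)) : Finset (E2 n m) :=
  Finset.univ.filter (fun e => Ok F (m + 1) y e.1)

lemma mem_Wb2 {F : Finset (Fin n × Fin n)} {y : NegSp n N (m + 1)} {e : E2 n m} :
    e ∈ Wb2 F y ↔ Ok F (m + 1) y e.1 := by
  unfold Wb2
  rw [Finset.mem_filter]
  simp

/-- the clauses below the node are satisfied by the labels -/
def Open (T : Finset (Fin n)) (e : E2 n m → Fin b) (w : Path (Fin n) (m + 1)) : Prop :=
  ∀ c, ∃ v ∈ T, e (w, c, v) ≠ 0

lemma dense_unsat2 {F : Finset (Fin n × Fin n)} {T : Finset (Fin n)} {y : NegSp n N (m + 1)}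
    {e : E2 n m → Fin b} (h1 : ¬ Bd F (m + 1) y)
    (h2 : ¬ ∃ w ∈ (Finset.univ : Finset (Path (Fin n) (m + 1))), Open T e w) :
    ¬ val (m + 1) (fun w => ∀ c, ∃ v ∈ T, inp (ys e ∪ Wb2 F y) (w, c, v) = true) := by
  refine not_val (m + 1) y _ h1 (fun w hw => ?_)
  by_contra hcon
  apply h2
  refine ⟨w, Finset.mem_univ _, fun c => ?_⟩
  obtain ⟨v, hv1, hv2⟩ := hw c
  refine ⟨v, hv1, ?_⟩
  have h3 := inp_iff.mp hv2
  rw [Finset.mem_union, mem_ys] at h3
  rcases h3 with h3 | h3
  · exact h3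
  · exact absurd (mem_Wb2.mp h3) hcon

lemma avg_open (T : Finset (Fin n)) (w : Path (Fin n) (m + 1)) :
    avg (fun e : E2 n m → Fin b => ind (Open T e w)) = (1 - (1 / (b : ℝ)) ^ T.card) ^ n := by
  have h := avg_inj (b := b) (fun p : Fin n × Fin n => ((w, p) : E2 n m))
    (fun p q h => congrArg Prod.snd h) (fun g => ind (∀ i, ∃ j ∈ T, g (i, j) ≠ 0))
  rw [avg_cover] at h
  exact h

lemma avg_anyOpen {M : ℝ} (hM : (Fintype.card (Path (Fin n) (m + 1)) : ℝ) ≤ M)
    (T : Finset (Fin n)) :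
    avg (fun e : E2 n m → Fin b =>
      ind (∃ w ∈ (Finset.univ : Finset (Path (Fin n) (m + 1))), Open T e w)) ≤
      M * (1 - (1 / (b : ℝ)) ^ T.card) ^ n := by
  have hb1 : (1 : ℝ) ≤ b := by exact_mod_cast NeZero.one_le
  have hb0 : (0 : ℝ) < b := by linarith
  refine (avg_mono fun e => ind_exists_le _ _).trans ?_
  rw [avg_sum]
  simp only [avg_open]
  rw [Finset.sum_const, nsmul_eq_mul, Finset.card_univ]
  apply mul_le_mul_of_nonneg_right hM
  apply pow_nonneg
  have : (1 / (b : ℝ)) ^ T.card ≤ 1 :=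
    pow_le_one₀ (by positivity) (by rw [div_le_one hb0]; exact hb1)
  linarith

end

end Pool.Agent.H68MT
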