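import Pool.Agent.H68MT.Paths

set_option linter.unusedSectionVars false

/-! Alternating formulas over narrow clauses of nodes: what is true for a random strategy is true,
with high probability, for the random set of nodes enlarged by few nodes at depth 1. -/

namespace Pool.Agent.H68MT

open Finset Classical
open Pool.Agent.H592R2

noncomputable section

/-- value of an alternating formula over CNFs, for the set `X` of true variables -/
def FV {I V : Type} (j : ℕ) (𝒦 : Path I j → Set (Finset V)) (X : V → Prop) : Prop :=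
  val j (fun π => ∀ K ∈ 𝒦 π, ∃ w ∈ K, X w)

variable {I : Type} [Fintype I] {n N : ℕ} [NeZero n] [NeZero N]

/-- the formula is true for the strategy, but not stable -/
def Fail (N : ℕ) [NeZero N] (κ : ℕ) (θ : ℝ) (j : ℕ)
    (𝒦 : Path I j → Set (Finset (Path (Fin n) (j + 1)))) (ω : Cs n (j + 1) → Fin n) : Prop :=
  FV j 𝒦 (Pl (j + 1) Set.univ ω) ∧ ¬ ∃ F : Finset (Fin n × Fin n), F.card ≤ κ ∧
    avg (fun y : NegSp n N (j + 1) => ind (¬ FV j 𝒦 (Ok F (j + 1) y))) ≤ θ

/-- plays as points -/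
def opl (j : ℕ) (w : Path (Fin n) j) : Finset (Finset (Cs n j × Fin n)) := {rho j w}

lemma kn_opl {j : ℕ} {R : Set (Cs n j)} {ω : Cs n j → Fin n} {w : Path (Fin n) j} :
    Kn (opl j) R ω w ↔ Pl j R ω w := by
  unfold Kn opl Pl
  simp

/-- the clauses are satisfied by the plays, but not by those seen through few coordinates -/
def Rb (κ j : ℕ) (𝒦 : Set (Finset (Path (Fin n) j))) (ω : Cs n j → Fin n) : Prop :=
  (∀ K ∈ 𝒦, ∃ e ∈ K, Kn (opl j) Set.univ ω e) ∧
    ¬ ∃ R : Finset (Cs n j), R.card ≤ κ ∧ ∀ K ∈ 𝒦, ∃ e ∈ K, Kn (opl j) (↑R : Set (Cs n j)) ω e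

lemma avg_Rb {s : ℕ} (κ j : ℕ) (𝒦 : Set (Finset (Path (Fin n) j))) (hK : ∀ K ∈ 𝒦, K.card ≤ s) :
    avg (fun ω : Cs n j → Fin n => ind (Rb κ j 𝒦 ω)) ≤ ((s : ℝ) / n) ^ κ := by
  have h := reveal (C := Cs n j) (opt := opl j) (q := 1) hK (fun e => by simp [opl]) κ
  rw [mul_one] at h
  exact h

/-- the node to which a coordinate belongs -/
def att {j : ℕ} : Cn n j → Path (Fin n) j
  | Sum.inl c => c.1
  | Sum.inr c => c.1

/-- the coordinates that select all nodes in `W` -/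
def zc {j : ℕ} (W : Finset (Path (Fin n) (j + 1))) : Finset (Cn n j) :=
  W.image cnl ∪ W.image cnr

lemma zc_card {j κ : ℕ} {W : Finset (Path (Fin n) (j + 1))} (h : W.card ≤ κ) :
    (zc W).card ≤ 2 * κ := by
  unfold zc
  refine (Finset.card_union_le _ _).trans ?_
  have h1 : (W.image cnl).card ≤ W.card := Finset.card_image_le
  have h2 : (W.image cnr).card ≤ W.card := Finset.card_image_le
  omega

/-- sets of few nodes which satisfy the clauses for some `u'` -/
def zfam (κ : ℕ) {j : ℕ} (𝒦 : I → Set (Finset (Path (Fin n) (j + 1)))) : Set (Finset (Cn n j)) :=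
  {z | ∃ u' W, (W.card ≤ κ ∧ ∀ K ∈ 𝒦 u', ∃ w ∈ K, w ∈ W) ∧ z = zc W}

/-- the formula one level up -/
def upf (κ s : ℕ) {j : ℕ} (𝒦 : Path I (j + 1) → Set (Finset (Path (Fin n) (j + 2)))) :
    Path I j → Set (Finset (Path (Fin n) (j + 1))) := fun π =>
  {K' | ∃ u : I, ∃ Kc ∈ certs s (zfam κ (fun u' => 𝒦 (π, u, u'))), K' = Kc.image att}

lemma upf_card (κ s : ℕ) {j : ℕ} (𝒦 : Path I (j + 1) → Set (Finset (Path (Fin n) (j + 2))))
    (π : Path I j) : ∀ K ∈ upf κ s 𝒦 π, K.card ≤ s := by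
  rintro K ⟨u, Kc, hKc, rfl⟩
  exact Finset.card_image_le.trans hKc.1

/-- the strategy side -/
lemma upf_pos {κ s j : ℕ} {𝒦 : Path I (j + 1) → Set (Finset (Path (Fin n) (j + 2)))}
    {ω : Cs n (j + 2) → Fin n} (hg : ∀ π', ¬ Rb κ (j + 2) (𝒦 π') ω)
    (h : FV (j + 1) 𝒦 (Pl (j + 2) Set.univ ω)) :
    FV j (upf κ s 𝒦) (Pl (j + 1) Set.univ (fun c => ω (csl c))) := by
  unfold FV at h ⊢
  refine val_mono j (fun π hπ => ?_) h
  rintro K' ⟨u, Kc, hKc, rfl⟩
  obtain ⟨u', hu'⟩ := hπ u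
  have hg' := hg (π, u, u')
  unfold Rb at hg'
  rw [not_and, not_not] at hg'
  obtain ⟨R, hR1, hR2⟩ := hg' (fun K hK => by
    obtain ⟨w, hw1, hw2⟩ := hu' K hK
    exact ⟨w, hw1, kn_opl.mpr hw2⟩)
  have hW : (Finset.univ.filter (fun w => Pl (j + 2) (↑R : Set (Cs n (j + 2))) ω w)).card ≤ κ :=
    (pl_card R ω).trans hR1
  obtain ⟨c, hc1, hc2⟩ := hKc.2 (zc (Finset.univ.filter
    (fun w => Pl (j + 2) (↑R : Set (Cs n (j + 2))) ω w))) ⟨u', _, ⟨hW, fun K hK => by
      obtain ⟨w, hw1, hw2⟩ := hR2 K hK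
      exact ⟨w, hw1, Finset.mem_filter.mpr ⟨Finset.mem_univ _, kn_opl.mp hw2⟩⟩⟩, rfl⟩
  refine ⟨att c, Finset.mem_image_of_mem _ hc1, ?_⟩
  rw [zc, Finset.mem_union, Finset.mem_image, Finset.mem_image] at hc2
  rcases hc2 with ⟨w, hw, rfl⟩ | ⟨w, hw, rfl⟩
  · have := (Finset.mem_filter.mp hw).2
    exact (pl_succ.mp this).2.mono (Set.subset_univ _)
  · have := (Finset.mem_filter.mp hw).2
    exact (pl_succ.mp this).2.mono (Set.subset_univ _)

/-- coordinates that belong to selected nodes -/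
def Wd (F : Finset (Fin n × Fin n)) (j : ℕ) (y : NegSp n N j) : Finset (Cn n j) :=
  Finset.univ.filter (fun c => Ok F j y (att c))

/-- the other side -/
lemma upf_neg {κ s j : ℕ} {𝒦 : Path I (j + 1) → Set (Finset (Path (Fin n) (j + 2)))}
    {F : Finset (Fin n × Fin n)} {y1 : NegSp n N (j + 1)} {y2 : Cn n (j + 1) → Fin N}
    (hg : ∀ π : Path I j, ∀ u : I, ¬ BadNeg s (zfam κ (fun u' => 𝒦 (π, u, u')))
      (on y2 ∪ Wd F (j + 1) y1))
    (h : FV j (upf κ s 𝒦) (Ok F (j + 1) y1)) :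
    FV (j + 1) 𝒦 (Ok F (j + 2) ((y1, y2) : NegSp n N (j + 2))) := by
  unfold FV at h ⊢
  refine val_mono j (fun π hπ => ?_) h
  intro u
  have h1 : Acc (zfam κ (fun u' => 𝒦 (π, u, u'))) (on y2 ∪ Wd F (j + 1) y1) := by
    by_contra hcon
    apply hg π u
    refine ⟨hcon, ?_⟩
    rintro ⟨Kc, hKc1, hKc2⟩
    obtain ⟨w, hw1, hw2⟩ := hπ (Kc.image att) ⟨u, Kc, hKc1, rfl⟩
    rw [Finset.mem_image] at hw1
    obtain ⟨c, hc1, rfl⟩ := hw1
    apply hKc2 c hc1
    rw [Finset.mem_union]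
    right
    rw [Wd, Finset.mem_filter]
    exact ⟨Finset.mem_univ _, hw2⟩
  obtain ⟨z, ⟨u', W, ⟨_, hW⟩, rfl⟩, hz⟩ := h1
  refine ⟨u', fun K hK => ?_⟩
  obtain ⟨w, hw1, hw2⟩ := hW K hK
  refine ⟨w, hw1, ?_⟩
  have ha : cnl w ∈ on y2 ∪ Wd F (j + 1) y1 := by
    apply hz
    rw [zc, Finset.mem_union]
    exact Or.inl (Finset.mem_image_of_mem _ hw2)
  have hb : cnr w ∈ on y2 ∪ Wd F (j + 1) y1 := by
    apply hz
    rw [zc, Finset.mem_union]
    exact Or.inr (Finset.mem_image_of_mem _ hw2)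
  rw [Finset.mem_union, mem_on, Wd, Finset.mem_filter] at ha hb
  rw [ok_succ]
  rcases ha with ha | ha
  · rcases hb with hb | hb
    · exact Or.inr (Or.inl ⟨ha, hb⟩)
    · exact Or.inl hb.2
  · exact Or.inl ha.2

/-- **Stability of alternating formulas.** -/
theorem level {κ s : ℕ} {B δ η : ℝ} (hB1 : 1 ≤ B)
    (hη : η = ((s : ℝ) / n) ^ κ) (hδ : δ = (1 - (1 / (N : ℝ)) ^ (2 * κ)) ^ s) :
    ∀ (j : ℕ) (𝒦 : Path I j → Set (Finset (Path (Fin n) (j + 1)))),
      (∀ i ≤ j, (Fintype.card (Path I i) : ℝ) ≤ B) →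
      (∀ i < j, (Fintype.card (Path I i × I) : ℝ) ≤ B) →
      (∀ π, ∀ K ∈ 𝒦 π, K.card ≤ s) →
      avg (fun ω : Cs n (j + 1) → Fin n => ind (Fail N κ (j * (B * δ)) j 𝒦 ω)) ≤
        (j + 1) * (B * η) := by
  have hη0 : 0 ≤ η := by rw [hη]; positivity
  have hN1 : (1 : ℝ) ≤ N := by exact_mod_cast NeZero.one_le
  have hN0 : (0 : ℝ) < N := by linarith
  have hδ0 : 0 ≤ δ := by
    rw [hδ]
    apply pow_nonneg
    have : (1 / (N : ℝ)) ^ (2 * κ) ≤ 1 :=
      pow_le_one₀ (by positivity) (by rw [div_le_one hN0]; exact hN1)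
    linarith
  intro j
  induction j with
  | zero =>
    intro 𝒦 _ _ hK
    have h1 := avg_Rb κ 1 (𝒦 ()) (hK ())
    rw [← hη] at h1
    have h2 : avg (fun ω : Cs n (0 + 1) → Fin n => ind (Fail N κ ((0 : ℕ) * (B * δ)) 0 𝒦 ω)) ≤
        avg (fun ω : Cs n 1 → Fin n => ind (Rb κ 1 (𝒦 ()) ω)) := by
      refine avg_mono fun ω => ind_mono ?_
      rintro ⟨h3, h4⟩
      refine ⟨fun K hK => ?_, ?_⟩
      · obtain ⟨w, hw1, hw2⟩ := h3 K hK
        exact ⟨w, hw1, kn_opl.mpr hw2⟩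
      · rintro ⟨R, hR1, hR2⟩
        apply h4
        refine ⟨(Finset.univ.filter (fun w => Pl 1 (↑R : Set (Cs n 1)) ω w)).image (fun w => w.2),
          Finset.card_image_le.trans ((pl_card R ω).trans hR1), ?_⟩
        have h5 : (fun y : NegSp n N (0 + 1) => ind (¬ FV 0 𝒦 (Ok ((Finset.univ.filter
            (fun w => Pl 1 (↑R : Set (Cs n 1)) ω w)).image (fun w => w.2)) (0 + 1) y))) =
            fun _ => (0 : ℝ) := by
          funext y
          apply ind_false
          rw [not_not]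
          intro K hK
          obtain ⟨w, hw1, hw2⟩ := hR2 K hK
          refine ⟨w, hw1, ?_⟩
          refine Or.inr (Or.inr ⟨rfl, ?_⟩)
          exact Finset.mem_image_of_mem _ (Finset.mem_filter.mpr ⟨Finset.mem_univ _, kn_opl.mp hw2⟩)
        rw [h5]
        have h00 : avg (fun _ : NegSp n N (0 + 1) => (0 : ℝ)) = 0 := avg_const 0
        rw [h00]
        simp
    refine h2.trans (h1.trans ?_)
    simp only [Nat.cast_zero, zero_add, one_mul]
    nlinarith
  | succ j ih =>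
    intro 𝒦 hc1 hc2 hK
    have hIH := ih (upf κ s 𝒦) (fun i hi => hc1 i (by omega)) (fun i hi => hc2 i (by omega))
      (upf_card κ s 𝒦)
    have hmain : ∀ ω : Cs n (j + 2) → Fin n,
        ind (Fail N κ (((j + 1 : ℕ) : ℝ) * (B * δ)) (j + 1) 𝒦 ω) ≤
        (∑ π' ∈ (Finset.univ : Finset (Path I (j + 1))), ind (Rb κ (j + 2) (𝒦 π') ω)) +
          ind (Fail N κ (j * (B * δ)) j (upf κ s 𝒦) (fun c => ω (csl c))) := by
      intro ω
      refine le_trans (ind_mono ?_) ((ind_or_le _ _).trans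
        (add_le_add (ind_exists_le Finset.univ (fun π' => Rb κ (j + 2) (𝒦 π') ω)) le_rfl))
      rintro ⟨h3, h4⟩
      by_cases hRb : ∃ π' ∈ (Finset.univ : Finset (Path I (j + 1))), Rb κ (j + 2) (𝒦 π') ω
      · exact Or.inl hRb
      · right
        push Not at hRb
        have hRb' : ∀ π', ¬ Rb κ (j + 2) (𝒦 π') ω := fun π' => hRb π' (Finset.mem_univ _)
        refine ⟨upf_pos hRb' h3, ?_⟩
        rintro ⟨F, hF1, hF2⟩
        apply h4
        refine ⟨F, hF1, ?_⟩
        -- average over the sample space of the random set of nodes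
        have hpt : ∀ (y1 : NegSp n N (j + 1)) (y2 : Cn n (j + 1) → Fin N),
            ind (¬ FV (j + 1) 𝒦 (Ok F (j + 2) ((y1, y2) : NegSp n N (j + 2)))) ≤
            ind (¬ FV j (upf κ s 𝒦) (Ok F (j + 1) y1)) +
            ∑ q ∈ (Finset.univ : Finset (Path I j × I)),
              ind (BadNeg s (zfam κ (fun u' => 𝒦 (q.1, q.2, u'))) (on y2 ∪ Wd F (j + 1) y1)) := by
          intro y1 y2
          refine le_trans (ind_mono ?_) ((ind_or_le _ _).trans
            (add_le_add le_rfl (ind_exists_le Finset.univ (fun q : Path I j × I =>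
              BadNeg s (zfam κ (fun u' => 𝒦 (q.1, q.2, u'))) (on y2 ∪ Wd F (j + 1) y1)))))
          intro h5
          by_contra hcon
          rw [not_or, not_not] at hcon
          obtain ⟨h6, h7⟩ := hcon
          push Not at h7
          exact h5 (upf_neg (fun π u => h7 (π, u) (Finset.mem_univ _)) h6)
        have hprod := avg_prod (Equiv.refl (NegSp n N (j + 2)) :
            NegSp n N (j + 2) ≃ NegSp n N (j + 1) × (Cn n (j + 1) → Fin N))
          (fun y1 y2 => ind (¬ FV (j + 1) 𝒦 (Ok F (j + 2) ((y1, y2) : NegSp n N (j + 2)))))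
        have hprod' : avg (fun y : NegSp n N (j + 2) => ind (¬ FV (j + 1) 𝒦 (Ok F (j + 2) y))) =
            avg (fun y1 : NegSp n N (j + 1) => avg (fun y2 : Cn n (j + 1) → Fin N =>
              ind (¬ FV (j + 1) 𝒦 (Ok F (j + 2) ((y1, y2) : NegSp n N (j + 2)))))) := hprod
        refine hprod'.trans_le ?_
        have hin : ∀ y1 : NegSp n N (j + 1), avg (fun y2 : Cn n (j + 1) → Fin N =>
              ind (¬ FV (j + 1) 𝒦 (Ok F (j + 2) ((y1, y2) : NegSp n N (j + 2))))) ≤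
            ind (¬ FV j (upf κ s 𝒦) (Ok F (j + 1) y1)) + B * δ := by
          intro y1
          refine (avg_mono (hpt y1)).trans ?_
          rw [avg_add, avg_const, avg_sum]
          apply add_le_add le_rfl
          have h8 : ∀ q ∈ (Finset.univ : Finset (Path I j × I)),
              avg (fun y2 : Cn n (j + 1) → Fin N => ind (BadNeg s
                (zfam κ (fun u' => 𝒦 (q.1, q.2, u'))) (on y2 ∪ Wd F (j + 1) y1))) ≤ δ := by
            intro q _
            rw [hδ]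
            apply neg_lemma
            rintro z ⟨u', W, ⟨hW, _⟩, rfl⟩
            exact (Finset.card_le_card Finset.sdiff_subset).trans (zc_card hW)
          refine (Finset.sum_le_sum h8).trans ?_
          rw [Finset.sum_const, nsmul_eq_mul, Finset.card_univ]
          exact mul_le_mul_of_nonneg_right (hc2 j (by omega)) hδ0
        refine (avg_mono hin).trans ?_
        rw [avg_add, avg_const]
        push_cast
        linarith
    refine (avg_mono hmain).trans ?_
    rw [avg_add, avg_sum]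
    have h9 : ∑ π' ∈ (Finset.univ : Finset (Path I (j + 1))),
        avg (fun ω : Cs n (j + 2) → Fin n => ind (Rb κ (j + 2) (𝒦 π') ω)) ≤ B * η := by
      have h10 : ∀ π' ∈ (Finset.univ : Finset (Path I (j + 1))),
          avg (fun ω : Cs n (j + 2) → Fin n => ind (Rb κ (j + 2) (𝒦 π') ω)) ≤ η := by
        intro π' _
        rw [hη]
        exact avg_Rb κ (j + 2) (𝒦 π') (hK π')
      refine (Finset.sum_le_sum h10).trans ?_
      rw [Finset.sum_const, nsmul_eq_mul, Finset.card_univ]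
      exact mul_le_mul_of_nonneg_right (hc1 (j + 1) le_rfl) hη0
    have h11 := avg_marg (Equiv.refl (Cs n (j + 2)) :
        Cs n (j + 2) ≃ Cs n (j + 1) ⊕ (Asq n (j + 1) × Fin n))
      (fun ω1 : Cs n (j + 1) → Fin n => ind (Fail N κ (j * (B * δ)) j (upf κ s 𝒦) ω1))
    have h12 : avg (fun ω : Cs n (j + 2) → Fin n =>
        ind (Fail N κ (j * (B * δ)) j (upf κ s 𝒦) (fun c => ω (csl c)))) =
        avg (fun ω1 : Cs n (j + 1) → Fin n => ind (Fail N κ (j * (B * δ)) j (upf κ s 𝒦) ω1)) := h11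
    refine (add_le_add h9 (h12.trans_le hIH)).trans_eq ?_
    push_cast
    ring

end

end Pool.Agent.H68MT
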