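import Pool.Agent.H68MT.AllDefs
import Pool.Agent.H68MN.Final

/-! The lowest level. -/

namespace Pool.Agent.H68MT.All

open Finset Classical

noncomputable section

section trans

variable {E E' : Type} {S N : ℕ}

/-- translation of a gate -/
def tg (φ : E' → E) {i : ℕ} : Gate E' i → H68MN.Gate E i
  | .input e => .input (φ e)
  | .const v => .const v
  | .and a b => .and a b
  | .or a b => .or a b

/-- a circuit followed by an oracle gate -/
def tc (φ : E' → E) (C : Circuit E' S) (w : ℕ) (out : Finset (Fin N × Bool) → Fin S) :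
    H68MN.Circuit E (S + 1) := fun i =>
  if h : i.val < S then tg φ (C ⟨i.val, h⟩)
  else .query N w (fun cl => ⟨(out cl).val, lt_of_lt_of_le (out cl).2 (not_lt.mp h)⟩)

lemma eval_tc (φ : E' → E) (C : Circuit E' S) (w d : ℕ) (out : Finset (Fin N × Bool) → Fin S)
    (x : E → Bool) (i : Fin S) :
    (tc φ C w out).eval d x ⟨i.val, i.2.trans (Nat.lt_succ_self S)⟩ =
      C.eval (fun e => x (φ e)) i := by
  obtain ⟨i, hi⟩ := i
  induction i using Nat.strong_induction_on with
  | _ i ih =>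
    rw [H68MN.Circuit.eval, Circuit.eval]
    have ht : tc φ C w out ⟨i, hi.trans (Nat.lt_succ_self S)⟩ = tg φ (C ⟨i, hi⟩) := by
      unfold tc
      simp only [hi, dif_pos]
    rw [ht]
    rcases hC : C ⟨i, hi⟩ with e | v | ⟨a, b⟩ | ⟨a, b⟩
    · rfl
    · rfl
    · have ha := ih a a.2 (a.2.trans hi)
      have hb := ih b b.2 (b.2.trans hi)
      simp only [tg]
      exact congrArg₂ _ ha hb
    · have ha := ih a a.2 (a.2.trans hi)
      have hb := ih b b.2 (b.2.trans hi)
      simp only [tg]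
      exact congrArg₂ _ ha hb

lemma eval_tc_last (φ : E' → E) (C : Circuit E' S) (w d : ℕ)
    (out : Finset (Fin N × Bool) → Fin S) (x : E → Bool) :
    (tc φ C w out).eval d x ⟨S, Nat.lt_succ_self S⟩ = true ↔
      H68MN.WSat w {cl | cl.card ≤ d ∧ C.eval (fun e => x (φ e)) (out cl) = false} := by
  rw [H68MN.Circuit.eval]
  have ht : tc φ C w out ⟨S, Nat.lt_succ_self S⟩ = .query N w
      (fun cl => ⟨(out cl).val, (out cl).2⟩) := by
    unfold tc
    simp only [lt_irrefl, dif_neg, not_false_eq_true]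
  rw [ht]
  simp only [decide_eq_true_eq]
  have he : ∀ cl, (tc φ C w out).eval d x ⟨(out cl).val, (out cl).2.trans (Nat.lt_succ_self S)⟩ =
      C.eval (fun e => x (φ e)) (out cl) := fun cl => eval_tc φ C w d out x (out cl)
  simp only [he]

end trans

lemma source_zero {n k : ℕ} (x : Fin n × Fin n → Bool) :
    Source (l := 0 + 1) k (fun e : Seq (Fin n) (0 + 1) × Fin n => x (e.1.2, e.2)) ↔
      ∃ T : Finset (Fin n), T.card = k ∧ ∀ i, ∃ j ∈ T, x (i, j) = true := by
  unfold Source
  have h : ¬ Even (0 + 1) := by decide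
  simp only [h, if_false]
  refine exists_congr fun T => and_congr_right fun _ => ?_
  show Alt 0 (fun π : Seq (Fin n) 0 => if Even 0 then ∀ u, ∃ v ∈ T, x (u, v) = true
    else ∃ u, ∃ v ∈ T, x (u, v) = true) ↔ _
  simp only [Even.zero, if_true]
  exact Iff.rfl

lemma target_zero {N L d k : ℕ} (occ : Seq (Fin L) 0 → Finset (Fin N × Bool) → Bool) :
    Target d k occ ↔ H68MN.WSat k {cl | cl.card ≤ d ∧ occ () cl = false} := by
  unfold Target H68MN.WSat
  simp only [Even.zero, if_true]
  refine exists_congr fun T => and_congr_right fun _ => ?_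
  show (∀ cl : Finset (Fin N × Bool), cl.card ≤ d → occ () cl = false →
      ∃ a ∈ cl, (a.1 ∈ T ↔ a.2 = true)) ↔ _
  simp only [Set.mem_ofPred_eq, and_imp]

theorem no_reduction_zero (d : ℕ) (h : ℕ → ℕ) : ¬ Reduction 0 d h := by
  rintro ⟨c, f, g, hR⟩
  refine H68MN.no_mono_ge h d ⟨c, fun k => f k + 1, g, fun k n hkn => ?_⟩
  obtain ⟨S, N, L, w, C, out, h1, h2, h3, h4, h5⟩ := hR k n
  have hone : 1 ≤ (n + 1) ^ c := Nat.one_le_pow _ _ (by omega)
  refine ⟨S + 1, tc (fun e => (e.1.2, e.2)) C w (out ()), ⟨S, Nat.lt_succ_self S⟩, ?_, ?_, ?_⟩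
  · rw [Nat.add_mul, one_mul]
    omega
  · intro i N' w' out' heq
    by_cases hi : i.val < S
    · exfalso
      have ht : tc (fun e : Seq (Fin n) (0 + 1) × Fin n => (e.1.2, e.2)) C w (out ()) i =
          tg (fun e : Seq (Fin n) (0 + 1) × Fin n => (e.1.2, e.2)) (C ⟨i.val, hi⟩) := by
        unfold tc
        simp only [hi, dif_pos]
      rw [ht] at heq
      revert heq
      rcases C ⟨i.val, hi⟩ with e | v | ⟨a, b⟩ | ⟨a, b⟩ <;> intro heq <;> simp [tg] at heq
    · have ht : tc (fun e : Seq (Fin n) (0 + 1) × Fin n => (e.1.2, e.2)) C w (out ()) i =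
          .query N w (fun cl => ⟨(out () cl).val,
            lt_of_lt_of_le (out () cl).2 (not_lt.mp hi)⟩) := by
        unfold tc
        simp only [hi, dif_neg, not_false_eq_true]
      rw [ht] at heq
      injection heq with e1 e2 e3
      subst e1 e2
      refine ⟨?_, h4⟩
      rw [Nat.add_mul, one_mul]
      omega
  · intro x
    have h6 := h5 (fun e => x (e.1.2, e.2))
    rw [target_zero, source_zero, source_zero] at h6
    rw [eval_tc_last]
    refine ⟨fun hx => h6.1 ?_, fun hx => ?_⟩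
    · obtain ⟨T, hT1, hT2⟩ := hx
      obtain ⟨T', hTT', hT'⟩ := Finset.exists_superset_card_eq (α := Fin n) hT1 (by simpa using hkn)
      refine ⟨T', hT', fun i => ?_⟩
      obtain ⟨j, hj1, hj2⟩ := hT2 i
      exact ⟨j, hTT' hj1, hj2⟩
    · obtain ⟨T, hT1, hT2⟩ := h6.2 hx
      exact ⟨T, hT1.le, hT2⟩

end

end Pool.Agent.H68MT.All
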