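import Pool.Agent.H592R2.Prob
import Pool.Agent.H68MT.Approx

set_option linter.unusedSectionVars false

/-! Random sets: a DNF with small terms that is false has a small certificate. -/

namespace Pool.Agent.H68MT

open Finset Classical
open Pool.Agent.H592R2

noncomputable section

variable {C : Type} [Fintype C] [DecidableEq C] {N : ℕ} [NeZero N]

/-- the coordinates with label 0 -/
def on (ω : C → Fin N) : Finset C := Finset.univ.filter (fun c => ω c = 0)

lemma mem_on {ω : C → Fin N} {c : C} : c ∈ on ω ↔ ω c = 0 := by simp [on]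

/-- probability of prescribed zeros and ones -/
lemma avg_zo (K O : Finset C) (hd : Disjoint K O) :
    avg (fun ω : C → Fin N => ind ((∀ c ∈ K, ω c ≠ 0) ∧ ∀ c ∈ O, ω c = 0)) =
      (1 - 1 / (N : ℝ)) ^ K.card * (1 / (N : ℝ)) ^ O.card := by
  have hN0 : (N : ℝ) ≠ 0 := by exact_mod_cast NeZero.ne N
  have h1 := avg_box (C := C) (T := fun _ => Fin N) (K ∪ O)
    (fun c => if c ∈ K then Finset.univ \ {0} else {0})
  have h2 : (fun ω : C → Fin N => ind ((∀ c ∈ K, ω c ≠ 0) ∧ ∀ c ∈ O, ω c = 0)) =
      fun ω : C → Fin N => ind (∀ c ∈ K ∪ O,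
        ω c ∈ (if c ∈ K then Finset.univ \ {0} else {0} : Finset (Fin N))) := by
    funext ω
    congr 1
    apply propext
    constructor
    · rintro ⟨h3, h4⟩ c hc
      by_cases hcK : c ∈ K
      · rw [if_pos hcK]
        simpa using h3 c hcK
      · rw [if_neg hcK]
        rcases Finset.mem_union.mp hc with h5 | h5
        · exact absurd h5 hcK
        · simpa using h4 c h5
    · intro h3
      constructor
      · intro c hc
        have := h3 c (Finset.mem_union_left _ hc)
        rw [if_pos hc] at this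
        simpa using this
      · intro c hc
        have hcK : c ∉ K := fun h => (Finset.disjoint_left.mp hd h) hc
        have := h3 c (Finset.mem_union_right _ hc)
        rw [if_neg hcK] at this
        simpa using this
  rw [h2, h1, Finset.prod_union hd]
  congr 1
  · rw [Finset.prod_congr rfl (g := fun _ => 1 - 1 / (N : ℝ))]
    · rw [Finset.prod_const]
    · intro c hc
      rw [if_pos hc, Finset.card_sdiff_of_subset (Finset.subset_univ _), Finset.card_univ,
        Fintype.card_fin, Finset.card_singleton, Nat.cast_sub (NeZero.one_le), Nat.cast_one]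
      field_simp
  · rw [Finset.prod_congr rfl (g := fun _ => 1 / (N : ℝ))]
    · rw [Finset.prod_const]
    · intro c hc
      have hcK : c ∉ K := fun h => (Finset.disjoint_left.mp hd h) hc
      rw [if_neg hcK]
      simp

lemma neg_aux {s r : ℕ} (A : Set (Finset C)) (W : Finset C) (hA : ∀ z ∈ A, (z \ W).card ≤ r) :
    ∀ (j : ℕ) (K O : Finset C), K.card + j = s → Disjoint K O → Disjoint K W →
      avg (fun ω : C → Fin N => ind (((∀ c ∈ K, ω c ≠ 0) ∧ ∀ c ∈ O, ω c = 0) ∧
        BadNeg s A (on ω ∪ W))) ≤
        (1 - 1 / (N : ℝ)) ^ K.card * (1 / (N : ℝ)) ^ O.card * (1 - (1 / (N : ℝ)) ^ r) ^ j := by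
  have hN1 : (1 : ℝ) ≤ N := by exact_mod_cast NeZero.one_le
  have hN0 : (0 : ℝ) < N := by linarith
  have hp0 : (0 : ℝ) ≤ 1 / N := by positivity
  have hp1 : 1 / (N : ℝ) ≤ 1 := by rw [div_le_one hN0]; exact hN1
  have hpr : (0 : ℝ) ≤ 1 - (1 / (N : ℝ)) ^ r := by
    have : (1 / (N : ℝ)) ^ r ≤ 1 := pow_le_one₀ hp0 hp1
    linarith
  have hq0 : (0 : ℝ) ≤ 1 - 1 / N := by linarith
  intro j
  induction j with
  | zero =>
    intro K O _ hd _
    rw [pow_zero, mul_one, ← avg_zo K O hd]
    exact avg_mono fun ω => ind_mono fun h => h.1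
  | succ j ih =>
    intro K O hK hd hdW
    by_cases hall : ∀ z ∈ A, ∃ e ∈ K, e ∈ z
    · have h0 : (fun ω : C → Fin N => ind (((∀ c ∈ K, ω c ≠ 0) ∧ ∀ c ∈ O, ω c = 0) ∧
          BadNeg s A (on ω ∪ W))) = fun _ => (0 : ℝ) := by
        funext ω
        apply ind_false
        rintro ⟨⟨h1, _⟩, _, h3⟩
        apply h3
        refine ⟨K, ⟨by omega, hall⟩, ?_⟩
        intro e he hcon
        rcases Finset.mem_union.mp hcon with h4 | h4
        · exact h1 e he (mem_on.mp h4)
        · exact (Finset.disjoint_left.mp hdW he) h4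
      have h00 : avg (fun _ : C → Fin N => (0 : ℝ)) = 0 := avg_const 0
      rw [h0, h00]
      positivity
    · push Not at hall
      obtain ⟨z, hz, hzK⟩ := hall
      -- reveal the elements of `U` one by one
      have hinner : ∀ (U : Finset C), ∀ O' : Finset C, Disjoint K O' → Disjoint U K →
          Disjoint U O' → Disjoint U W →
          avg (fun ω : C → Fin N => ind (((∀ c ∈ K, ω c ≠ 0) ∧ ∀ c ∈ O', ω c = 0) ∧
            (∃ c ∈ U, ω c ≠ 0) ∧ BadNeg s A (on ω ∪ W))) ≤
          (1 - 1 / (N : ℝ)) ^ K.card * (1 / (N : ℝ)) ^ O'.card * (1 - (1 / (N : ℝ)) ^ U.card) *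
            (1 - (1 / (N : ℝ)) ^ r) ^ j := by
        intro U
        induction U using Finset.induction_on with
        | empty =>
          intro O' _ _ _ _
          have h0 : (fun ω : C → Fin N => ind (((∀ c ∈ K, ω c ≠ 0) ∧ ∀ c ∈ O', ω c = 0) ∧
              (∃ c ∈ (∅ : Finset C), ω c ≠ 0) ∧ BadNeg s A (on ω ∪ W))) = fun _ => (0 : ℝ) := by
            funext ω
            apply ind_false
            rintro ⟨_, ⟨c, hc, _⟩, _⟩
            exact absurd hc (Finset.notMem_empty c)
          have h00 : avg (fun _ : C → Fin N => (0 : ℝ)) = 0 := avg_const 0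
          rw [h0, h00]
          simp
        | insert c U hcU ihU =>
          intro O' hd' hUK hUO hUW
          rw [Finset.disjoint_insert_left] at hUK hUO hUW
          have hsplit : ∀ ω : C → Fin N, ind (((∀ c ∈ K, ω c ≠ 0) ∧ ∀ c ∈ O', ω c = 0) ∧
              (∃ c' ∈ insert c U, ω c' ≠ 0) ∧ BadNeg s A (on ω ∪ W)) ≤
              ind (((∀ c' ∈ insert c K, ω c' ≠ 0) ∧ ∀ c ∈ O', ω c = 0) ∧ BadNeg s A (on ω ∪ W)) +
              ind (((∀ c ∈ K, ω c ≠ 0) ∧ ∀ c' ∈ insert c O', ω c' = 0) ∧
                (∃ c' ∈ U, ω c' ≠ 0) ∧ BadNeg s A (on ω ∪ W)) := by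
            intro ω
            refine le_trans (ind_mono ?_) (ind_or_le _ _)
            rintro ⟨⟨h1, h2⟩, ⟨c', hc', hne⟩, h3⟩
            by_cases hc0 : ω c = 0
            · right
              refine ⟨⟨h1, ?_⟩, ?_, h3⟩
              · intro c'' hc''
                rcases Finset.mem_insert.mp hc'' with rfl | h
                · exact hc0
                · exact h2 _ h
              · rcases Finset.mem_insert.mp hc' with rfl | h
                · exact absurd hc0 hne
                · exact ⟨c', h, hne⟩
            · left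
              refine ⟨⟨?_, h2⟩, h3⟩
              intro c'' hc''
              rcases Finset.mem_insert.mp hc'' with rfl | h
              · exact hc0
              · exact h1 _ h
          refine (avg_mono hsplit).trans ?_
          rw [avg_add]
          have e1 := ih (insert c K) O' (by
            rw [Finset.card_insert_of_notMem hUK.1]; omega) (by
            rw [Finset.disjoint_insert_left]; exact ⟨hUO.1, hd'⟩) (by
            rw [Finset.disjoint_insert_left]; exact ⟨hUW.1, hdW⟩)
          have e2 := ihU (insert c O') (by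
            rw [Finset.disjoint_insert_right]; exact ⟨hUK.1, hd'⟩) hUK.2 (by
            rw [Finset.disjoint_insert_right]; exact ⟨hcU, hUO.2⟩) hUW.2
          rw [Finset.card_insert_of_notMem hUK.1] at e1
          rw [Finset.card_insert_of_notMem hUO.1] at e2
          rw [Finset.card_insert_of_notMem hcU]
          refine (add_le_add e1 e2).trans_eq ?_
          rw [pow_succ, pow_succ, pow_succ]
          ring
      set U : Finset C := (z \ W) \ O with hU
      have hUcard : U.card ≤ r := (Finset.card_le_card Finset.sdiff_subset).trans (hA z hz)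
      have hfin := hinner U O hd (by
        rw [Finset.disjoint_left]
        intro c hc hcK
        rw [hU, Finset.mem_sdiff, Finset.mem_sdiff] at hc
        exact hzK c hcK hc.1.1) (by
        rw [Finset.disjoint_left]
        intro c hc hcO
        rw [hU, Finset.mem_sdiff] at hc
        exact hc.2 hcO) (by
        rw [Finset.disjoint_left]
        intro c hc hcW
        rw [hU, Finset.mem_sdiff, Finset.mem_sdiff] at hc
        exact hc.1.2 hcW)
      have hfirst : avg (fun ω : C → Fin N => ind (((∀ c ∈ K, ω c ≠ 0) ∧ ∀ c ∈ O, ω c = 0) ∧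
          BadNeg s A (on ω ∪ W))) ≤
          avg (fun ω : C → Fin N => ind (((∀ c ∈ K, ω c ≠ 0) ∧ ∀ c ∈ O, ω c = 0) ∧
            (∃ c ∈ U, ω c ≠ 0) ∧ BadNeg s A (on ω ∪ W))) := by
        refine avg_mono fun ω => ind_mono ?_
        rintro ⟨⟨h1, h2⟩, h3⟩
        refine ⟨⟨h1, h2⟩, ?_, h3⟩
        by_contra hcon
        push Not at hcon
        apply h3.1
        refine ⟨z, hz, ?_⟩
        intro c hc
        rw [Finset.mem_union]
        by_cases hcW : c ∈ W
        · exact Or.inr hcW
        · left
          rw [mem_on]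
          by_cases hcO : c ∈ O
          · exact h2 c hcO
          · exact hcon c (by
              rw [hU, Finset.mem_sdiff, Finset.mem_sdiff]
              exact ⟨⟨hc, hcW⟩, hcO⟩)
      refine hfirst.trans (hfin.trans ?_)
      have hpU : (1 / (N : ℝ)) ^ r ≤ (1 / (N : ℝ)) ^ U.card :=
        pow_le_pow_of_le_one hp0 hp1 hUcard
      have h7 : (1 - 1 / (N : ℝ)) ^ K.card * (1 / (N : ℝ)) ^ O.card *
          (1 - (1 / (N : ℝ)) ^ U.card) * (1 - (1 / (N : ℝ)) ^ r) ^ j ≤
          (1 - 1 / (N : ℝ)) ^ K.card * (1 / (N : ℝ)) ^ O.card *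
          (1 - (1 / (N : ℝ)) ^ r) * (1 - (1 / (N : ℝ)) ^ r) ^ j := by
        apply mul_le_mul_of_nonneg_right _ (pow_nonneg hpr _)
        apply mul_le_mul_of_nonneg_left _ (by positivity)
        linarith
      refine h7.trans_eq ?_
      rw [pow_succ]
      ring

/-- **Negative lemma.** -/
theorem neg_lemma {s r : ℕ} (A : Set (Finset C)) (W : Finset C)
    (hA : ∀ z ∈ A, (z \ W).card ≤ r) :
    avg (fun ω : C → Fin N => ind (BadNeg s A (on ω ∪ W))) ≤ (1 - (1 / (N : ℝ)) ^ r) ^ s := by
  have h1 := neg_aux (N := N) (s := s) (r := r) A W hA s ∅ ∅ (by simp) (by simp) (by simp)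
  simpa using h1

end

end Pool.Agent.H68MT
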