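import Pool.Agent.H68MT.Reveal
import Pool.Agent.H68MT.Neg

set_option linter.unusedSectionVars false

/-! Strategies for alternating quantifiers, and random sets of nodes. -/

namespace Pool.Agent.H68MT

open Finset Classical
open Pool.Agent.H592R2

noncomputable section

instance instFtPath {I : Type} [Fintype I] : ∀ j, Fintype (Path I j)
  | 0 => inferInstanceAs (Fintype Unit)
  | j + 1 =>
      let _ := instFtPath (I := I) j
      inferInstanceAs (Fintype (Path I j × I × I))

instance instDecPath {I : Type} [DecidableEq I] : ∀ j, DecidableEq (Path I j)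
  | 0 => inferInstanceAs (DecidableEq Unit)
  | j + 1 =>
      let _ := instDecPath (I := I) j
      inferInstanceAs (DecidableEq (Path I j × I × I))

lemma card_path {I : Type} [Fintype I] (j : ℕ) :
    Fintype.card (Path I j) = Fintype.card I ^ (2 * j) := by
  induction j with
  | zero =>
    show Fintype.card Unit = _
    simp
  | succ j ih =>
    show Fintype.card (Path I j × I × I) = _
    rw [Fintype.card_prod, Fintype.card_prod, ih]
    ring

lemma val_mono {I : Type} : ∀ (j : ℕ) {P Q : Path I j → Prop}, (∀ π, P π → Q π) → val j P → val j Q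
  | 0, _, _, h, hP => h () hP
  | j + 1, _, _, h, hP => by
      refine val_mono j (fun π hπ u => ?_) hP
      obtain ⟨u', hu'⟩ := hπ u
      exact ⟨u', h _ hu'⟩

/-- sequences of `j` elements -/
def Asq (n : ℕ) : ℕ → Type
  | 0 => Unit
  | j + 1 => Asq n j × Fin n

instance instFtAsq {n : ℕ} : ∀ j, Fintype (Asq n j)
  | 0 => inferInstanceAs (Fintype Unit)
  | j + 1 =>
      let _ := instFtAsq (n := n) j
      inferInstanceAs (Fintype (Asq n j × Fin n))

instance instDecAsq {n : ℕ} : ∀ j, DecidableEq (Asq n j)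
  | 0 => inferInstanceAs (DecidableEq Unit)
  | j + 1 =>
      let _ := instDecAsq (n := n) j
      inferInstanceAs (DecidableEq (Asq n j × Fin n))

/-- coordinates of a strategy: an answer to every sequence of at most `j` moves -/
def Cs (n : ℕ) : ℕ → Type
  | 0 => Empty
  | j + 1 => Cs n j ⊕ (Asq n j × Fin n)

instance instFtCs {n : ℕ} : ∀ j, Fintype (Cs n j)
  | 0 => inferInstanceAs (Fintype Empty)
  | j + 1 =>
      let _ := instFtCs (n := n) j
      inferInstanceAs (Fintype (Cs n j ⊕ (Asq n j × Fin n)))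

instance instDecCs {n : ℕ} : ∀ j, DecidableEq (Cs n j)
  | 0 => inferInstanceAs (DecidableEq Empty)
  | j + 1 =>
      let _ := instDecCs (n := n) j
      inferInstanceAs (DecidableEq (Cs n j ⊕ (Asq n j × Fin n)))

/-- the coordinates of level at most `j` -/
def csl {n j : ℕ} (c : Cs n j) : Cs n (j + 1) := Sum.inl c

/-- the coordinates of level `j + 1` -/
def csr {n j : ℕ} (a : Asq n j) (b : Fin n) : Cs n (j + 1) := Sum.inr (a, b)

lemma csr_inj {n j : ℕ} {a a' : Asq n j} {b b' : Fin n} (h : csr a b = csr a' b') :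
    a = a' ∧ b = b' := by
  have h1 : (a, b) = (a', b') := Sum.inr_injective h
  exact ⟨congrArg Prod.fst h1, congrArg Prod.snd h1⟩

/-- the moves of the first player on a path -/
def mv {n : ℕ} : (j : ℕ) → Path (Fin n) j → Asq n j
  | 0, _ => ()
  | j + 1, w => (mv j w.1, w.2.1)

/-- the coordinates of the strategy which have to be fixed for a path to be a play -/
def rho {n : ℕ} : (j : ℕ) → Path (Fin n) j → Finset (Cs n j × Fin n)
  | 0, _ => ∅
  | j + 1, w => {(csr (mv j w.1) w.2.1, w.2.2)} ∪ (rho j w.1).image (fun p => (csl p.1, p.2))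

/-- the path is a play of the strategy `ω`, seen through the coordinates in `R` -/
def Pl {n : ℕ} (j : ℕ) (R : Set (Cs n j)) (ω : Cs n j → Fin n) (w : Path (Fin n) j) : Prop :=
  ∀ p ∈ rho j w, p.1 ∈ R ∧ ω p.1 = p.2

lemma pl_succ {n : ℕ} {j : ℕ} {R : Set (Cs n (j + 1))} {ω : Cs n (j + 1) → Fin n}
    {w : Path (Fin n) (j + 1)} :
    Pl (j + 1) R ω w ↔ ((csr (mv j w.1) w.2.1 ∈ R ∧ ω (csr (mv j w.1) w.2.1) = w.2.2) ∧
      Pl j {c | csl c ∈ R} (fun c => ω (csl c)) w.1) := by
  unfold Pl
  rw [rho]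
  simp only [Finset.mem_union, Finset.mem_singleton, Finset.mem_image]
  constructor
  · intro h
    refine ⟨h _ (Or.inl rfl), ?_⟩
    intro p hp
    exact h _ (Or.inr ⟨p, hp, rfl⟩)
  · rintro ⟨h1, h2⟩ p (rfl | ⟨q, hq, rfl⟩)
    · exact h1
    · exact h2 q hq

lemma Pl.mono {n j : ℕ} {R R' : Set (Cs n j)} {ω : Cs n j → Fin n} {w : Path (Fin n) j}
    (h : Pl j R ω w) (hR : R ⊆ R') : Pl j R' ω w := fun p hp => ⟨hR (h p hp).1, (h p hp).2⟩

lemma pl_inj {n : ℕ} : ∀ (j : ℕ) {ω : Cs n j → Fin n} {w w' : Path (Fin n) j},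
    Pl j Set.univ ω w → Pl j Set.univ ω w' → mv j w = mv j w' → w = w'
  | 0, _, w, w', _, _, _ => rfl
  | j + 1, ω, w, w', h, h', hm => by
      rw [pl_succ] at h h'
      have hm' : (mv j w.1, w.2.1) = (mv j w'.1, w'.2.1) := hm
      have h1 : mv j w.1 = mv j w'.1 := congrArg Prod.fst hm'
      have h2 : w.2.1 = w'.2.1 := congrArg Prod.snd hm'
      have h3 : w.1 = w'.1 := pl_inj j (h.2.mono (Set.subset_univ _)) (h'.2.mono (Set.subset_univ _)) h1
      have h4 : w.2.2 = w'.2.2 := by rw [← h.1.2, ← h'.1.2, h1, h2]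
      exact Prod.ext h3 (Prod.ext h2 h4)

/-- few coordinates show few plays -/
lemma pl_card {n j : ℕ} (R : Finset (Cs n (j + 1))) (ω : Cs n (j + 1) → Fin n) :
    (Finset.univ.filter (fun w => Pl (j + 1) (↑R : Set (Cs n (j + 1))) ω w)).card ≤ R.card := by
  refine Finset.card_le_card_of_injOn (fun w => csr (mv j w.1) w.2.1) ?_ ?_
  · intro w hw
    rw [Finset.coe_filter] at hw
    exact (pl_succ.mp hw.2).1.1
  · intro w hw w' hw' h
    rw [Finset.coe_filter] at hw hw'
    refine pl_inj (j + 1) (hw.2.mono (Set.subset_univ _)) (hw'.2.mono (Set.subset_univ _)) ?_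
    obtain ⟨h1, h2⟩ := csr_inj h
    exact Prod.ext h1 h2

section neg

/-- coordinates for the random choices below the nodes at depth `j` -/
abbrev Cn (n j : ℕ) : Type :=
  (Path (Fin n) j × Fin n) ⊕ (Path (Fin n) j × Fin n × Fin n)

/-- sample space for the random set of nodes -/
def NegSp (n N : ℕ) : ℕ → Type
  | 0 => Unit
  | j + 1 => NegSp n N j × (Cn n j → Fin N)

instance instFtNeg {n N : ℕ} : ∀ j, Fintype (NegSp n N j)
  | 0 => inferInstanceAs (Fintype Unit)
  | j + 1 =>
      let _ := instFtNeg (n := n) (N := N) j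
      inferInstanceAs (Fintype (NegSp n N j × (Cn n j → Fin N)))

instance instNeNeg {n N : ℕ} [NeZero N] : ∀ j, Nonempty (NegSp n N j)
  | 0 => inferInstanceAs (Nonempty Unit)
  | j + 1 =>
      let _ := instNeNeg (n := n) (N := N) j
      inferInstanceAs (Nonempty (NegSp n N j × (Cn n j → Fin N)))

/-- the coordinates that decide whether a node is selected -/
def cnl {n j : ℕ} (w : Path (Fin n) (j + 1)) : Cn n j := Sum.inl (w.1, w.2.1)
def cnr {n j : ℕ} (w : Path (Fin n) (j + 1)) : Cn n j := Sum.inr (w.1, w.2)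

/-- the nodes that are selected, or below a selected node; `F` is a set of nodes at depth 1 -/
def Ok {n N : ℕ} [NeZero N] (F : Finset (Fin n × Fin n)) :
    (j : ℕ) → NegSp n N j → Path (Fin n) j → Prop
  | 0, _, _ => False
  | j + 1, y, w => Ok F j y.1 w.1 ∨ (y.2 (cnl w) = 0 ∧ y.2 (cnr w) = 0) ∨ (j = 0 ∧ w.2 ∈ F)

lemma ok_succ {n N j : ℕ} [NeZero N] {F : Finset (Fin n × Fin n)} {y1 : NegSp n N j}
    {y2 : Cn n j → Fin N} {w : Path (Fin n) (j + 1)} :
    Ok F (j + 1) ((y1, y2) : NegSp n N (j + 1)) w ↔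
      (Ok F j y1 w.1 ∨ (y2 (cnl w) = 0 ∧ y2 (cnr w) = 0) ∨ (j = 0 ∧ w.2 ∈ F)) := Iff.rfl

end neg

section averages

variable {n : ℕ} [NeZero n]

lemma avg_prod {D A B : Type} [Fintype D] [Fintype A] [Fintype B] (e : D ≃ A × B)
    (f : A → B → ℝ) :
    avg (fun d : D => f (e d).1 (e d).2) = avg (fun a => avg (fun b => f a b)) := by
  unfold avg
  rw [Fintype.sum_equiv e _ (fun p => f p.1 p.2) (fun d => rfl), Fintype.sum_prod_type,
    Fintype.card_congr e, Fintype.card_prod, ← Finset.sum_div, div_div]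
  push_cast
  rw [mul_comm (Fintype.card A : ℝ)]

lemma avg_marg {C A B : Type} [Fintype C] [DecidableEq C] [Fintype A] [DecidableEq A] [Fintype B]
    [DecidableEq B] (e : C ≃ A ⊕ B) (F : (A → Fin n) → ℝ) :
    avg (fun ω : C → Fin n => F (fun a => ω (e.symm (Sum.inl a)))) = avg F := by
  let e' : (C → Fin n) ≃ (A → Fin n) × (B → Fin n) :=
    (e.arrowCongr (Equiv.refl (Fin n))).trans (Equiv.sumArrowEquivProdArrow A B (Fin n))
  have h := avg_prod e' (fun a _ => F a)
  have h1 : (fun ω : C → Fin n => F (fun a => ω (e.symm (Sum.inl a)))) =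
      fun ω => F (e' ω).1 := by
    funext ω
    rfl
  rw [h1, h]
  congr 1
  funext a
  exact avg_const _

end averages

end

end Pool.Agent.H68MT
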