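import Pool.Agent.H68MN.Pos
import Pool.Agent.H68MT.Approx

set_option linter.unusedSectionVars false

/-! Random functions with large and small ranges: satisfied narrow CNFs have short certificates. -/

namespace Pool.Agent.H68MT

open Finset Classical
open Pool.Agent.H592R2
open Pool.Agent.H68MN (eps eps_nonneg eps_le)

noncomputable section

section fix

variable {C : Type} [Fintype C] [DecidableEq C] {T : C → Type} [∀ c, Fintype (T c)]
  [∀ c, Nonempty (T c)] [∀ c, DecidableEq (T c)]

/-- fixing one more coordinate -/
lemma avg_fix' {R : Set C} {c : C} (hc : c ∉ R) (a : ∀ c, T c) (v : T c)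
    (P : (∀ c, T c) → Prop) :
    avg (fun b : ∀ c, T c => ind (b c = v ∧ P (mix R a b))) =
      (1 / (Fintype.card (T c) : ℝ)) *
        avg (fun b : ∀ c, T c => ind (P (mix (insert c R) (Function.update a c v) b))) := by
  have h1 := avg_mix ({c} : Set C)
    (fun b : ∀ c, T c => ind (b c = v ∧ P (mix R a b)))
  rw [← h1]
  have h2 : ∀ a' b : ∀ c, T c,
      ind ((mix ({c} : Set C) a' b) c = v ∧ P (mix R a (mix ({c} : Set C) a' b))) =
      ind (a' c = v) * ind (P (mix (insert c R) (Function.update a c v) b)) := by
    intro a' b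
    have hcc : (mix ({c} : Set C) a' b) c = a' c := mix_mem (Set.mem_singleton c)
    rw [hcc]
    by_cases h : a' c = v
    · have h3 : mix R a (mix ({c} : Set C) a' b) =
          mix (insert c R) (Function.update a c v) b := by
        funext x
        by_cases hx : x = c
        · subst hx
          rw [mix_not_mem hc, hcc, mix_mem (Set.mem_insert _ _), Function.update_self, h]
        · by_cases hxR : x ∈ R
          · rw [mix_mem hxR, mix_mem (Set.mem_insert_of_mem _ hxR), Function.update_of_ne hx]
          · rw [mix_not_mem hxR, mix_not_mem (by simpa using hx), mix_not_mem (by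
              simp only [Set.mem_insert_iff, not_or]; exact ⟨hx, hxR⟩)]
      rw [h3]
      by_cases hP : P (mix (insert c R) (Function.update a c v) b)
      · rw [ind_true (⟨h, hP⟩ : _ ∧ _), ind_true h, ind_true hP]; norm_num
      · rw [ind_false (fun hh => hP hh.2), ind_false hP]; ring
    · rw [ind_false (fun hh => h hh.1), ind_false h]; ring
  simp only [h2]
  have h4 : ∀ a' : ∀ c, T c, avg (fun b : ∀ c, T c =>
      ind (a' c = v) * ind (P (mix (insert c R) (Function.update a c v) b))) =
      ind (a' c = v) *
        avg (fun b : ∀ c, T c => ind (P (mix (insert c R) (Function.update a c v) b))) :=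
    fun a' => avg_const_mul _ _
  simp only [h4]
  rw [avg_mul_const]
  congr 1
  have h5 := avg_box (C := C) (T := T) {c}
    (fun c' => if h : c' = c then {h ▸ v} else Finset.univ)
  have h6 : (fun ω : ∀ c, T c => ind (∀ c' ∈ ({c} : Finset C),
      ω c' ∈ (if h : c' = c then ({h ▸ v} : Finset (T c')) else Finset.univ))) =
      fun ω : ∀ c, T c => ind (ω c = v) := by
    funext ω
    congr 1
    simp
  rw [h6] at h5
  rw [h5]
  simp

end fix

variable {C1 C2 E : Type} [Fintype C1] [DecidableEq C1] [Fintype C2] [DecidableEq C2] [Fintype E]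
  {k n : ℕ} [NeZero k] [NeZero n]

/-- sizes of the coordinate spaces -/
abbrev Sz2 (C1 C2 : Type) (k n : ℕ) : C1 ⊕ C2 → ℕ
  | Sum.inl _ => n
  | Sum.inr _ => k

/-- sample space: elements of `Fin n` for the coordinates in `C1`, of `Fin k` for those in `C2` -/
abbrev Om2 (C1 C2 : Type) (k n : ℕ) : Type := ∀ c : C1 ⊕ C2, Fin (Sz2 C1 C2 k n c)

instance instNeSz2 : ∀ c : C1 ⊕ C2, Nonempty (Fin (Sz2 C1 C2 k n c))
  | Sum.inl _ => ⟨⟨0, NeZero.pos n⟩⟩
  | Sum.inr _ => ⟨⟨0, NeZero.pos k⟩⟩

/-- how a point `e` is produced: by the index `j` chosen in its row and the partial assignment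
`pa e j`, which contains the column `col j` -/
structure Mod (C1 C2 E : Type) (k n : ℕ) where
  row : E → C2
  pa : E → Fin k → Finset (C1 × Fin n)
  col : Fin k → C1
  hcol : Function.Injective col
  hpa : ∀ e j, ∃ v, (col j, v) ∈ pa e j

/-- the point `e` is present -/
def One (M : Mod C1 C2 E k n) (ω : Om2 C1 C2 k n) (e : E) : Prop :=
  ∀ p ∈ M.pa e (ω (Sum.inr (M.row e))), ω (Sum.inl p.1) = p.2

/-- the point `e` is known from the coordinates in `R` -/
def Kno (M : Mod C1 C2 E k n) (R : Set (C1 ⊕ C2)) (ω : Om2 C1 C2 k n) (e : E) : Prop :=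
  Sum.inr (M.row e) ∈ R ∧ ∀ p ∈ M.pa e (ω (Sum.inr (M.row e))),
    Sum.inl p.1 ∈ R ∧ ω (Sum.inl p.1) = p.2

/-- the points present -/
def xsG (M : Mod C1 C2 E k n) (ω : Om2 C1 C2 k n) : Finset E :=
  Finset.univ.filter (fun e => One M ω e)

/-- the points known -/
def zKG (M : Mod C1 C2 E k n) (R : Set (C1 ⊕ C2)) (ω : Om2 C1 C2 k n) : Finset E :=
  Finset.univ.filter (fun e => Kno M R ω e)

/-- number of revealed rows -/
def rws (R : Set (C1 ⊕ C2)) : ℕ := (Finset.univ.filter (fun i : C2 => Sum.inr i ∈ R)).card

/-- number of revealed coordinates in `C1` -/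
def cls (R : Set (C1 ⊕ C2)) : ℕ := (Finset.univ.filter (fun a : C1 => Sum.inl a ∈ R)).card

/-- different points present are in different rows -/
def Inj (M : Mod C1 C2 E k n) : Prop :=
  ∀ ω e e', One M ω e → One M ω e' → M.row e = M.row e' → e = e'

variable {M : Mod C1 C2 E k n}

lemma zKG_card (hM : Inj M) (R : Set (C1 ⊕ C2)) (ω : Om2 C1 C2 k n) : (zKG M R ω).card ≤ rws R := by
  unfold zKG rws
  refine Finset.card_le_card_of_injOn (fun e => M.row e) ?_ ?_
  · intro e he
    rw [Finset.coe_filter] at he ⊢
    exact ⟨Finset.mem_univ _, he.2.1⟩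
  · intro e he e' he' h
    rw [Finset.coe_filter] at he he'
    exact hM ω e e' (fun p hp => (he.2.2 p hp).2) (fun p hp => (he'.2.2 p hp).2) h

lemma zKG_sub (R : Set (C1 ⊕ C2)) (a b : Om2 C1 C2 k n) : zKG M R a ⊆ xsG M (mix R a b) := by
  intro e he
  simp only [zKG, xsG, Finset.mem_filter, Finset.mem_univ, true_and] at he ⊢
  intro p hp
  rw [mix_mem (a := a) (b := b) he.1] at hp
  rw [mix_mem (a := a) (b := b) (he.2 p hp).1]
  exact (he.2 p hp).2

/-- coordinates of the rows of `K` -/
def rowsOf (M : Mod C1 C2 E k n) (K : Finset E) : Finset (C1 ⊕ C2) :=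
  K.image (fun e => Sum.inr (M.row e))

lemma rws_union (R : Set (C1 ⊕ C2)) (K : Finset E) :
    rws (R ∪ ↑(rowsOf M K)) ≤ rws R + K.card := by
  unfold rws
  refine le_trans (Finset.card_le_card (?_ : _ ⊆ (Finset.univ.filter (fun i : C2 =>
    (Sum.inr i : C1 ⊕ C2) ∈ R)) ∪ K.image (fun e => M.row e))) ?_
  · intro i hi
    simp only [Finset.mem_filter, Finset.mem_univ, true_and, Set.mem_union, Finset.mem_coe,
      rowsOf, Finset.mem_image, Finset.mem_union] at hi ⊢
    rcases hi with hi | ⟨e, he, hei⟩
    · exact Or.inl hi
    · exact Or.inr ⟨e, he, Sum.inr_injective hei⟩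
  · refine (Finset.card_union_le _ _).trans ?_
    exact Nat.add_le_add_left Finset.card_image_le _

lemma cls_union (R : Set (C1 ⊕ C2)) (K : Finset E) : cls (R ∪ ↑(rowsOf M K)) = cls R := by
  unfold cls
  congr 1
  ext a
  simp [rowsOf]

lemma rws_insert_inl (R : Set (C1 ⊕ C2)) (a : C1) : rws (insert (Sum.inl a) R) = rws R := by
  unfold rws
  congr 1
  ext i
  simp

lemma cls_insert_inl (R : Set (C1 ⊕ C2)) (a : C1) : cls (insert (Sum.inl a) R) ≤ cls R + 1 := by
  unfold cls
  refine le_trans (Finset.card_le_card (?_ : _ ⊆ insert a (Finset.univ.filter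
    (fun a' : C1 => (Sum.inl a' : C1 ⊕ C2) ∈ R)))) (Finset.card_insert_le _ _)
  intro a' ha'
  simp only [Finset.mem_filter, Finset.mem_univ, true_and, Set.mem_insert_iff,
    Finset.mem_insert] at ha' ⊢
  rcases ha' with h | h
  · exact Or.inl (Sum.inl_injective h)
  · exact Or.inr h

theorem posG_main (hM : Inj M) (𝒦 : Set (Finset E)) {s r u : ℕ} (hs : ∀ K ∈ 𝒦, K.card ≤ s) :
    ∀ (l v : ℕ) (R : Set (C1 ⊕ C2)) (a : Om2 C1 C2 k n), cls R + l ≤ k →
      (l = 0 ∨ rws R + s * v + s * u * (l - 1) ≤ r) →
      avg (fun b : Om2 C1 C2 k n => ind (BadPos r 𝒦 (xsG M (mix R a b)))) ≤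
        eps ((1 / (k : ℝ)) ^ s) ((s : ℝ) / n) u l v := by
  have hk0 : (0 : ℝ) < k := by exact_mod_cast NeZero.pos k
  have hn0 : (0 : ℝ) < n := by exact_mod_cast NeZero.pos n
  have hk1 : (1 : ℝ) ≤ k := by exact_mod_cast NeZero.pos k
  have hδ1 : (1 / (k : ℝ)) ^ s ≤ 1 :=
    pow_le_one₀ (by positivity) (by rw [div_le_one hk0]; exact hk1)
  have hq0 : (0 : ℝ) ≤ (s : ℝ) / n := by positivity
  intro l
  induction l with
  | zero =>
    intro v R a _ _
    simp only [eps]
    exact avg_le_of_le fun _ => ind_le_one _
  | succ l ihl =>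
    intro v
    induction v with
    | zero =>
      intro R a _ _
      simp only [eps]
      exact avg_le_of_le fun _ => ind_le_one _
    | succ v ihv =>
      intro R a hc hr
      have hr' : rws R + s * (v + 1) + s * u * l ≤ r := by
        rcases hr with h | h
        · omega
        · simpa using h
      have hepsn : ∀ l v, 0 ≤ eps ((1 / (k : ℝ)) ^ s) ((s : ℝ) / n) u l v :=
        eps_nonneg hδ1 hq0 u
      by_cases hall : Hit 𝒦 (zKG M R a)
      · -- a certificate is already known
        have h0 : (fun b : Om2 C1 C2 k n => ind (BadPos r 𝒦 (xsG M (mix R a b)))) =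
            fun _ => (0 : ℝ) := by
          funext b
          apply ind_false
          rintro ⟨_, h2⟩
          exact h2 ⟨zKG M R a, zKG_sub R a b, (zKG_card hM R a).trans (by omega), hall⟩
        rw [h0, avg_const]
        exact hepsn _ _
      · unfold Hit at hall
        push Not at hall
        obtain ⟨K, hK, hKz⟩ := hall
        have hKs := hs K hK
        set R' : Set (C1 ⊕ C2) := R ∪ ↑(rowsOf M K) with hR'
        have hsub : R ⊆ R' := Set.subset_union_left
        rw [avg_tower hsub a (fun ω : Om2 C1 C2 k n => ind (BadPos r 𝒦 (xsG M ω)))]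
        have hrow' : rws R' ≤ rws R + s := (rws_union R K).trans (by omega)
        have hcol' : cls R' = cls R := cls_union R K
        have hinl : ∀ c : C1, (Sum.inl c : C1 ⊕ C2) ∈ R' → (Sum.inl c : C1 ⊕ C2) ∈ R := by
          intro c hc
          rcases hc with h | h
          · exact h
          · simp [rowsOf] at h
        -- a column index that is not yet revealed
        obtain ⟨α, hα⟩ : ∃ α : Fin k, Sum.inl (M.col α) ∉ R := by
          by_contra hcon
          push Not at hcon
          have : k ≤ cls R := by
            unfold cls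
            calc k = (Finset.univ.image M.col).card := by
                  rw [Finset.card_image_of_injective _ M.hcol, Finset.card_univ, Fintype.card_fin]
              _ ≤ _ := by
                  apply Finset.card_le_card
                  intro c hc
                  obtain ⟨j, _, rfl⟩ := Finset.mem_image.mp hc
                  exact Finset.mem_filter.mpr ⟨Finset.mem_univ _, hcon j⟩
          omega
        set F : Finset (C1 ⊕ C2) := (rowsOf M K).filter (fun c => c ∉ R) with hF
        set Dead : Om2 C1 C2 k n → Prop := fun b' => ∀ c ∈ F,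
          b' c ∈ (match c with
            | Sum.inl _ => Finset.univ
            | Sum.inr _ => {α} : Finset (Fin (Sz2 C1 C2 k n c))) with hDead
        have hpt : ∀ b' : Om2 C1 C2 k n,
            avg (fun b : Om2 C1 C2 k n => ind (BadPos r 𝒦 (xsG M (mix R' (mix R a b') b)))) ≤
              (1 - ind (Dead b')) * eps ((1 / (k : ℝ)) ^ s) ((s : ℝ) / n) u (l + 1) v +
                (s : ℝ) / n * eps ((1 / (k : ℝ)) ^ s) ((s : ℝ) / n) u l u := by
          intro b'
          set a' := mix R a b' with ha'
          by_cases hhit : ∃ e ∈ K, e ∈ zKG M R' a'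
          · -- the clause is satisfied
            have hnd : ¬ Dead b' := by
              intro hd
              obtain ⟨e, heK, hez⟩ := hhit
              simp only [zKG, Finset.mem_filter, Finset.mem_univ, true_and] at hez
              obtain ⟨h1, h2⟩ := hez
              by_cases h4 : (Sum.inr (M.row e) : C1 ⊕ C2) ∈ R
              · apply hKz e heK
                have h5 : a' (Sum.inr (M.row e)) = a (Sum.inr (M.row e)) := mix_mem h4
                simp only [zKG, Finset.mem_filter, Finset.mem_univ, true_and]
                refine ⟨h4, fun p hp => ?_⟩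
                rw [← h5] at hp
                have h6 := h2 p hp
                have h7 := hinl _ h6.1
                refine ⟨h7, ?_⟩
                rw [← h6.2]
                exact (mix_mem (a := a) (b := b') h7).symm
              · have h5 : (Sum.inr (M.row e) : C1 ⊕ C2) ∈ F := by
                  simp only [hF, Finset.mem_filter]
                  exact ⟨Finset.mem_image_of_mem _ heK, h4⟩
                have h6 := hd _ h5
                simp only [Finset.mem_singleton] at h6
                have h7 : a' (Sum.inr (M.row e)) = b' (Sum.inr (M.row e)) := mix_not_mem h4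
                rw [h7, h6] at h2
                obtain ⟨v', hv'⟩ := M.hpa e α
                exact hα (hinl _ (h2 _ hv').1)
            have h8 := ihv R' a' (by omega) (Or.inr (by
              have h9 : s * (v + 1) = s * v + s := by ring
              simp only [Nat.add_sub_cancel]
              omega))
            rw [ind_false hnd]
            have h10 : 0 ≤ (s : ℝ) / n * eps ((1 / (k : ℝ)) ^ s) ((s : ℝ) / n) u l u :=
              mul_nonneg hq0 (hepsn _ _)
            linarith
          · -- the clause is dead for the revealed columns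
            push Not at hhit
            have hone : ∀ e ∈ K, avg (fun b : Om2 C1 C2 k n =>
                ind (One M (mix R' a' b) e ∧ BadPos r 𝒦 (xsG M (mix R' a' b)))) ≤
                (1 / (n : ℝ)) * eps ((1 / (k : ℝ)) ^ s) ((s : ℝ) / n) u l u := by
              intro e heK
              have h2 : (Sum.inr (M.row e) : C1 ⊕ C2) ∈ R' :=
                Or.inr (Finset.mem_coe.mpr (Finset.mem_image_of_mem _ heK))
              by_cases hex : ∃ p ∈ M.pa e (a' (Sum.inr (M.row e))), (Sum.inl p.1 : C1 ⊕ C2) ∉ R'
              · obtain ⟨p, hp1, hp2⟩ := hex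
                calc avg (fun b : Om2 C1 C2 k n =>
                      ind (One M (mix R' a' b) e ∧ BadPos r 𝒦 (xsG M (mix R' a' b)))) ≤
                      avg (fun b : Om2 C1 C2 k n => ind (b (Sum.inl p.1) = p.2 ∧
                        BadPos r 𝒦 (xsG M (mix R' a' b)))) := by
                      refine avg_mono fun b => ind_mono ?_
                      rintro ⟨h3, h4⟩
                      refine ⟨?_, h4⟩
                      have h5 := h3 p (by rw [mix_mem h2]; exact hp1)
                      rwa [mix_not_mem hp2] at h5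
                  _ = (1 / (Fintype.card (Fin (Sz2 C1 C2 k n (Sum.inl p.1))) : ℝ)) *
                      avg (fun b : Om2 C1 C2 k n => ind (BadPos r 𝒦 (xsG M
                        (mix (insert (Sum.inl p.1) R') (Function.update a' (Sum.inl p.1) p.2) b)))) :=
                      avg_fix' hp2 a' p.2 (fun ω => BadPos r 𝒦 (xsG M ω))
                  _ ≤ _ := by
                      rw [Fintype.card_fin]
                      refine mul_le_mul_of_nonneg_left ?_ (by positivity)
                      apply ihl u
                      · have := cls_insert_inl R' p.1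
                        omega
                      · rw [rws_insert_inl]
                        by_cases hl : l = 0
                        · exact Or.inl hl
                        · right
                          obtain ⟨l', rfl⟩ := Nat.exists_eq_succ_of_ne_zero hl
                          have h9 : s * (v + 1) = s * v + s := by ring
                          have h10 : s * u * (l' + 1) = s * u * l' + s * u := by ring
                          simp only [Nat.succ_eq_add_one, Nat.add_sub_cancel] at hr' ⊢
                          omega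
              · push Not at hex
                have h0 : (fun b : Om2 C1 C2 k n => ind (One M (mix R' a' b) e ∧
                    BadPos r 𝒦 (xsG M (mix R' a' b)))) = fun _ => (0 : ℝ) := by
                  funext b
                  apply ind_false
                  rintro ⟨h3, _⟩
                  apply hhit e heK
                  simp only [zKG, Finset.mem_filter, Finset.mem_univ, true_and]
                  refine ⟨h2, fun p hp => ?_⟩
                  have h5 := h3 p (by rw [mix_mem h2]; exact hp)
                  have h6 := hex p hp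
                  rw [mix_mem h6] at h5
                  exact ⟨h6, h5⟩
                rw [h0, avg_const]
                exact mul_nonneg (by positivity) (hepsn _ _)
            have h1 : ∀ b : Om2 C1 C2 k n, ind (BadPos r 𝒦 (xsG M (mix R' a' b))) ≤
                ∑ e ∈ K, ind (One M (mix R' a' b) e ∧ BadPos r 𝒦 (xsG M (mix R' a' b))) := by
              intro b
              refine (ind_mono ?_).trans (ind_exists_le _ _)
              intro hbad
              obtain ⟨e, heK, hex⟩ := hbad.1 K hK
              simp only [xsG, Finset.mem_filter, Finset.mem_univ, true_and] at hex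
              exact ⟨e, heK, hex, hbad⟩
            refine (avg_mono h1).trans ?_
            rw [avg_sum]
            refine (Finset.sum_le_sum hone).trans ?_
            rw [Finset.sum_const, nsmul_eq_mul]
            have h5 : (K.card : ℝ) ≤ s := by exact_mod_cast hKs
            have h6 : 0 ≤ (1 / (n : ℝ)) * eps ((1 / (k : ℝ)) ^ s) ((s : ℝ) / n) u l u :=
              mul_nonneg (by positivity) (hepsn _ _)
            have h7 := mul_le_mul_of_nonneg_right h5 h6
            have h8 : (s : ℝ) * ((1 / (n : ℝ)) * eps ((1 / (k : ℝ)) ^ s) ((s : ℝ) / n) u l u) =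
                (s : ℝ) / n * eps ((1 / (k : ℝ)) ^ s) ((s : ℝ) / n) u l u := by ring
            have h9 : 0 ≤ (1 - ind (Dead b')) *
                eps ((1 / (k : ℝ)) ^ s) ((s : ℝ) / n) u (l + 1) v :=
              mul_nonneg (by linarith [ind_le_one (Dead b')]) (hepsn _ _)
            linarith
        refine (avg_mono hpt).trans ?_
        rw [avg_add, avg_const, avg_mul_const, avg_sub, avg_const]
        have hbox : (1 / (k : ℝ)) ^ s ≤ avg (fun b' : Om2 C1 C2 k n => ind (Dead b')) := by
          have h1 := avg_box (C := C1 ⊕ C2) (T := fun c => Fin (Sz2 C1 C2 k n c)) F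
            (fun c => match c with
            | Sum.inl _ => Finset.univ
            | Sum.inr _ => {α})
          have h2 : (fun ω : Om2 C1 C2 k n => ind (∀ c ∈ F, ω c ∈ (match c with
            | Sum.inl _ => Finset.univ
            | Sum.inr _ => {α} : Finset (Fin (Sz2 C1 C2 k n c))))) = fun ω => ind (Dead ω) := rfl
          rw [h2] at h1
          rw [h1]
          have h3 : ∀ c ∈ F, (((match c with
            | Sum.inl _ => Finset.univ
            | Sum.inr _ => {α} : Finset (Fin (Sz2 C1 C2 k n c))).card : ℝ) /
              (Fintype.card (Fin (Sz2 C1 C2 k n c)) : ℝ)) = 1 / k := by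
            intro c hc
            simp only [hF, rowsOf, Finset.mem_filter, Finset.mem_image] at hc
            obtain ⟨⟨e, _, rfl⟩, _⟩ := hc
            simp
          rw [Finset.prod_congr rfl h3, Finset.prod_const]
          apply pow_le_pow_of_le_one (by positivity) (by rw [div_le_one hk0]; exact hk1)
          exact (Finset.card_filter_le _ _).trans (Finset.card_image_le.trans hKs)
        simp only [eps]
        have h11 : (1 - avg (fun b' : Om2 C1 C2 k n => ind (Dead b'))) *
            eps ((1 / (k : ℝ)) ^ s) ((s : ℝ) / n) u (l + 1) v ≤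
            (1 - (1 / (k : ℝ)) ^ s) * eps ((1 / (k : ℝ)) ^ s) ((s : ℝ) / n) u (l + 1) v :=
          mul_le_mul_of_nonneg_right (by linarith) (hepsn _ _)
        linarith

/-- **Positive lemma.** -/
theorem posG (hM : Inj M) (𝒦 : Set (Finset E)) {s r u : ℕ} (hs : ∀ K ∈ 𝒦, K.card ≤ s)
    (hr : s * u * k ≤ r) (hq : (s : ℝ) * (k : ℝ) ^ s / n ≤ 1) :
    avg (fun ω : Om2 C1 C2 k n => ind (BadPos r 𝒦 (xsG M ω))) ≤
      ((s : ℝ) * (k : ℝ) ^ s / n) ^ k + k * (1 - (1 / (k : ℝ)) ^ s) ^ u := by
  have hk0 : (0 : ℝ) < k := by exact_mod_cast NeZero.pos k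
  have hk1 : (1 : ℝ) ≤ k := by exact_mod_cast NeZero.pos k
  have hkN : 0 < k := NeZero.pos k
  obtain ⟨a⟩ : Nonempty (Om2 C1 C2 k n) := inferInstance
  have hcols : cls (∅ : Set (C1 ⊕ C2)) = 0 := by simp [cls]
  have hrows : rws (∅ : Set (C1 ⊕ C2)) = 0 := by simp [rws]
  have h1 := posG_main hM 𝒦 (s := s) (r := r) (u := u) hs k u ∅ a (by rw [hcols]; omega)
    (Or.inr (by
      rw [hrows]
      have : s * u + s * u * (k - 1) = s * u * k := by
        obtain ⟨k', hk'⟩ := Nat.exists_eq_succ_of_ne_zero hkN.ne'
        rw [hk']
        simp only [Nat.succ_eq_add_one, Nat.add_sub_cancel]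
        ring
      omega))
  have h2 : ∀ b : Om2 C1 C2 k n, mix (∅ : Set (C1 ⊕ C2)) a b = b := by
    intro b
    funext c
    exact mix_not_mem (Set.notMem_empty c)
  simp only [h2] at h1
  refine h1.trans ?_
  have hδ0 : 0 < (1 / (k : ℝ)) ^ s := by positivity
  have hδ1 : (1 / (k : ℝ)) ^ s ≤ 1 :=
    pow_le_one₀ (by positivity) (by rw [div_le_one hk0]; exact hk1)
  have h3 : (s : ℝ) / n / (1 / (k : ℝ)) ^ s = (s : ℝ) * (k : ℝ) ^ s / n := by
    rw [one_div_pow]
    field_simp
  have h4 := eps_le hδ0 hδ1 (by positivity : (0 : ℝ) ≤ (s : ℝ) / n) (by rw [h3]; exact hq) u k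
  rw [h3] at h4
  exact h4

end

end Pool.Agent.H68MT
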