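import Pool.Agent.H592R2.Prob

set_option linter.unusedSectionVars false

/-! Random functions: a narrow CNF that is satisfied has a certificate with few coordinates. -/

namespace Pool.Agent.H68MT

open Finset Classical
open Pool.Agent.H592R2

noncomputable section

variable {C E : Type} [Fintype C] [DecidableEq C] {n : ℕ} [NeZero n]

/-- fixing one more coordinate -/
lemma avg_fix {R : Set C} {c : C} (hc : c ∉ R) (a : C → Fin n) (v : Fin n)
    (P : (C → Fin n) → Prop) :
    avg (fun b : C → Fin n => ind (b c = v ∧ P (mix R a b))) =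
      (1 / (n : ℝ)) *
        avg (fun b : C → Fin n => ind (P (mix (insert c R) (Function.update a c v) b))) := by
  have h1 := avg_mix (T := fun _ : C => Fin n) ({c} : Set C)
    (fun b : C → Fin n => ind (b c = v ∧ P (mix R a b)))
  rw [← h1]
  have h2 : ∀ a' b : C → Fin n,
      ind ((mix ({c} : Set C) a' b) c = v ∧ P (mix R a (mix ({c} : Set C) a' b))) =
      ind (a' c = v) * ind (P (mix (insert c R) (Function.update a c v) b)) := by
    intro a' b
    have hcc : (mix ({c} : Set C) a' b) c = a' c := mix_mem (Set.mem_singleton c)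
    rw [hcc]
    by_cases h : a' c = v
    · have h3 : mix R a (mix ({c} : Set C) a' b) =
          mix (insert c R) (Function.update a c v) b := by
        funext x
        by_cases hx : x = c
        · subst hx
          rw [mix_not_mem hc, hcc, mix_mem (Set.mem_insert _ _), Function.update_self, h]
        · by_cases hxR : x ∈ R
          · rw [mix_mem hxR, mix_mem (Set.mem_insert_of_mem _ hxR), Function.update_of_ne hx]
          · rw [mix_not_mem hxR, mix_not_mem (by simpa using hx), mix_not_mem (by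
              simp only [Set.mem_insert_iff, not_or]; exact ⟨hx, hxR⟩)]
      rw [h3]
      by_cases hP : P (mix (insert c R) (Function.update a c v) b)
      · rw [ind_true (⟨h, hP⟩ : _ ∧ _), ind_true h, ind_true hP]; norm_num
      · rw [ind_false (fun hh => hP hh.2), ind_false hP]; ring
    · rw [ind_false (fun hh => h hh.1), ind_false h]; ring
  simp only [h2]
  have h4 : ∀ a' : C → Fin n, avg (fun b : C → Fin n =>
      ind (a' c = v) * ind (P (mix (insert c R) (Function.update a c v) b))) =
      ind (a' c = v) *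
        avg (fun b : C → Fin n => ind (P (mix (insert c R) (Function.update a c v) b))) :=
    fun a' => avg_const_mul _ _
  simp only [h4]
  rw [avg_mul_const]
  congr 1
  have h5 := avg_box (C := C) (T := fun _ => Fin n) {c} (fun _ => {v})
  have h6 : (fun ω : C → Fin n => ind (∀ c' ∈ ({c} : Finset C), ω c' ∈ ({v} : Finset (Fin n)))) =
      fun ω : C → Fin n => ind (ω c = v) := by
    funext ω
    congr 1
    simp
  rw [h6] at h5
  rw [h5]
  simp

/-- the points known from the coordinates in `R`; `opt e` are the partial assignments that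
produce the point `e` -/
def Kn (opt : E → Finset (Finset (C × Fin n))) (R : Set C) (ω : C → Fin n) (e : E) : Prop :=
  ∃ ρ ∈ opt e, ∀ p ∈ ρ, p.1 ∈ R ∧ ω p.1 = p.2

lemma Kn.mono {opt : E → Finset (Finset (C × Fin n))} {R R' : Set C} {ω : C → Fin n} {e : E}
    (h : Kn opt R ω e) (hR : R ⊆ R') : Kn opt R' ω e := by
  obtain ⟨ρ, h1, h2⟩ := h
  exact ⟨ρ, h1, fun p hp => ⟨hR (h2 p hp).1, (h2 p hp).2⟩⟩

/-- all clauses are satisfied, but not by the points known from few coordinates -/
def RevBad (opt : E → Finset (Finset (C × Fin n))) (𝒦 : Set (Finset E)) (u : ℕ) (R : Finset C)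
    (ω : C → Fin n) : Prop :=
  (∀ K ∈ 𝒦, ∃ e ∈ K, Kn opt Set.univ ω e) ∧
    ¬ ∃ R' : Finset C, R ⊆ R' ∧ R'.card ≤ R.card + u ∧ ∀ K ∈ 𝒦, ∃ e ∈ K, Kn opt (↑R' : Set C) ω e

lemma reveal_aux {opt : E → Finset (Finset (C × Fin n))} {𝒦 : Set (Finset E)} {s q : ℕ}
    (hK : ∀ K ∈ 𝒦, K.card ≤ s) (hopt : ∀ e, (opt e).card ≤ q) :
    ∀ (u : ℕ) (R : Finset C) (a : C → Fin n),
      avg (fun b : C → Fin n => ind (RevBad opt 𝒦 u R (mix (↑R : Set C) a b))) ≤
        (((s * q : ℕ) : ℝ) / n) ^ u := by
  have hn0 : (0 : ℝ) < n := by exact_mod_cast NeZero.pos n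
  intro u
  induction u with
  | zero =>
    intro R a
    rw [pow_zero]
    exact avg_le_of_le fun b => ind_le_one _
  | succ u ih =>
    intro R a
    have hsame : ∀ b e, Kn opt (↑R : Set C) (mix (↑R : Set C) a b) e ↔ Kn opt (↑R : Set C) a e := by
      intro b e
      unfold Kn
      constructor
      · rintro ⟨ρ, h1, h2⟩
        refine ⟨ρ, h1, fun p hp => ⟨(h2 p hp).1, ?_⟩⟩
        have h3 := (h2 p hp).2
        rwa [mix_mem (h2 p hp).1] at h3
      · rintro ⟨ρ, h1, h2⟩
        refine ⟨ρ, h1, fun p hp => ⟨(h2 p hp).1, ?_⟩⟩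
        rw [mix_mem (h2 p hp).1]
        exact (h2 p hp).2
    by_cases hall : ∀ K ∈ 𝒦, ∃ e ∈ K, Kn opt (↑R : Set C) a e
    · have h0 : (fun b : C → Fin n => ind (RevBad opt 𝒦 (u + 1) R (mix (↑R : Set C) a b))) =
          fun _ => (0 : ℝ) := by
        funext b
        apply ind_false
        rintro ⟨_, h2⟩
        apply h2
        refine ⟨R, subset_rfl, by omega, fun K hK => ?_⟩
        obtain ⟨e, he1, he2⟩ := hall K hK
        exact ⟨e, he1, (hsame b e).2 he2⟩
      rw [h0, avg_const]
      positivity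
    · push Not at hall
      obtain ⟨K, hK1, hK2⟩ := hall
      have hone : ∀ ρ : Finset (C × Fin n), avg (fun b : C → Fin n =>
          ind (((∀ p ∈ ρ, (mix (↑R : Set C) a b) p.1 = p.2) ∧ ∃ p ∈ ρ, p.1 ∉ R) ∧
            RevBad opt 𝒦 (u + 1) R (mix (↑R : Set C) a b))) ≤
          (1 / (n : ℝ)) * (((s * q : ℕ) : ℝ) / n) ^ u := by
        intro ρ
        by_cases h : ∃ p ∈ ρ, p.1 ∉ R
        · obtain ⟨p, hp1, hp2⟩ := h
          have hp2' : p.1 ∉ (↑R : Set C) := by simpa using hp2
          calc avg (fun b : C → Fin n =>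
                ind (((∀ p ∈ ρ, (mix (↑R : Set C) a b) p.1 = p.2) ∧ ∃ p ∈ ρ, p.1 ∉ R) ∧
                  RevBad opt 𝒦 (u + 1) R (mix (↑R : Set C) a b))) ≤
                avg (fun b : C → Fin n => ind (b p.1 = p.2 ∧
                  RevBad opt 𝒦 (u + 1) R (mix (↑R : Set C) a b))) := by
                refine avg_mono fun b => ind_mono ?_
                rintro ⟨⟨h1, _⟩, h2⟩
                refine ⟨?_, h2⟩
                have h3 := h1 p hp1
                rwa [mix_not_mem hp2'] at h3
            _ = (1 / (n : ℝ)) * avg (fun b : C → Fin n => ind (RevBad opt 𝒦 (u + 1) R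
                  (mix (insert p.1 (↑R : Set C)) (Function.update a p.1 p.2) b))) :=
                avg_fix hp2' a p.2 _
            _ ≤ _ := by
                apply mul_le_mul_of_nonneg_left _ (by positivity)
                refine le_trans (avg_mono fun b => ind_mono ?_)
                  (ih (insert p.1 R) (Function.update a p.1 p.2))
                rw [Finset.coe_insert]
                rintro ⟨h1, h2⟩
                refine ⟨h1, ?_⟩
                rintro ⟨R', hR1, hR2, hR3⟩
                apply h2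
                refine ⟨R', (Finset.subset_insert _ _).trans hR1, ?_, hR3⟩
                rw [Finset.card_insert_of_notMem hp2] at hR2
                omega
        · have h0 : (fun b : C → Fin n =>
                ind (((∀ p ∈ ρ, (mix (↑R : Set C) a b) p.1 = p.2) ∧ ∃ p ∈ ρ, p.1 ∉ R) ∧
                  RevBad opt 𝒦 (u + 1) R (mix (↑R : Set C) a b))) = fun _ => (0 : ℝ) := by
            funext b
            exact ind_false fun hh => h hh.1.2
          rw [h0, avg_const]
          positivity
      have hsum : ∀ b : C → Fin n, ind (RevBad opt 𝒦 (u + 1) R (mix (↑R : Set C) a b)) ≤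
          ∑ e ∈ K, ∑ ρ ∈ opt e,
            ind (((∀ p ∈ ρ, (mix (↑R : Set C) a b) p.1 = p.2) ∧ ∃ p ∈ ρ, p.1 ∉ R) ∧
              RevBad opt 𝒦 (u + 1) R (mix (↑R : Set C) a b)) := by
        intro b
        refine le_trans ?_ (Finset.sum_le_sum fun e _ => ind_exists_le (opt e) _)
        refine le_trans (ind_mono ?_) (ind_exists_le K _)
        intro hb
        obtain ⟨e, he1, ρ, hρ1, hρ2⟩ := hb.1 K hK1
        refine ⟨e, he1, ρ, hρ1, ⟨fun p hp => (hρ2 p hp).2, ?_⟩, hb⟩
        by_contra hcon
        push Not at hcon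
        apply hK2 e he1
        refine ⟨ρ, hρ1, fun p hp => ⟨by simpa using hcon p hp, ?_⟩⟩
        have h3 := (hρ2 p hp).2
        rwa [mix_mem (by simpa using hcon p hp)] at h3
      refine (avg_mono hsum).trans ?_
      rw [avg_sum]
      have h5 : ∀ e ∈ K, avg (fun b : C → Fin n => ∑ ρ ∈ opt e,
            ind (((∀ p ∈ ρ, (mix (↑R : Set C) a b) p.1 = p.2) ∧ ∃ p ∈ ρ, p.1 ∉ R) ∧
              RevBad opt 𝒦 (u + 1) R (mix (↑R : Set C) a b))) ≤
          q * ((1 / (n : ℝ)) * (((s * q : ℕ) : ℝ) / n) ^ u) := by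
        intro e _
        rw [avg_sum]
        refine (Finset.sum_le_sum fun ρ _ => hone ρ).trans ?_
        rw [Finset.sum_const, nsmul_eq_mul]
        exact mul_le_mul_of_nonneg_right (by exact_mod_cast hopt e) (by positivity)
      refine (Finset.sum_le_sum h5).trans ?_
      rw [Finset.sum_const, nsmul_eq_mul]
      have h6 : (K.card : ℝ) ≤ s := by exact_mod_cast hK K hK1
      refine (mul_le_mul_of_nonneg_right h6 (by positivity)).trans_eq ?_
      rw [pow_succ]
      push_cast
      field_simp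

/-- **Reveal lemma.** -/
theorem reveal {opt : E → Finset (Finset (C × Fin n))} {𝒦 : Set (Finset E)} {s q : ℕ}
    (hK : ∀ K ∈ 𝒦, K.card ≤ s) (hopt : ∀ e, (opt e).card ≤ q) (u : ℕ) :
    avg (fun ω : C → Fin n => ind ((∀ K ∈ 𝒦, ∃ e ∈ K, Kn opt Set.univ ω e) ∧
      ¬ ∃ R : Finset C, R.card ≤ u ∧ ∀ K ∈ 𝒦, ∃ e ∈ K, Kn opt (↑R : Set C) ω e)) ≤
        (((s * q : ℕ) : ℝ) / n) ^ u := by
  refine le_trans (avg_mono fun ω => ind_mono ?_)
    (reveal_aux hK hopt u ∅ (fun _ => ⟨0, NeZero.pos n⟩))
  have h1 : mix (↑(∅ : Finset C) : Set C) (fun _ => (⟨0, NeZero.pos n⟩ : Fin n)) ω = ω := by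
    funext c
    exact mix_not_mem (by simp)
  rw [h1]
  rintro ⟨h2, h3⟩
  refine ⟨h2, ?_⟩
  rintro ⟨R, _, hR2, hR3⟩
  exact h3 ⟨R, by simpa using hR2, hR3⟩

end

end Pool.Agent.H68MT
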