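import Pool.Agent.H68MT.Level

set_option linter.unusedSectionVars false

/-! The sparse inputs: a random strategy together with `k` random variables. -/

namespace Pool.Agent.H68MT

open Finset Classical
open Pool.Agent.H592R2

noncomputable section

lemma val_of_pl {n : ℕ} : ∀ (j : ℕ) (ω : Cs n j → Fin n) (P : Path (Fin n) j → Prop),
    (∀ w, Pl j Set.univ ω w → P w) → val j P
  | 0, ω, P, h => h () (by intro p hp; exact absurd hp (Finset.notMem_empty _))
  | j + 1, ω, P, h => by
      refine val_of_pl j (fun c => ω (csl c)) _ (fun w hw a => ?_)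
      refine ⟨ω (csr (mv j w) a), h _ ?_⟩
      exact pl_succ.mpr ⟨⟨Set.mem_univ _, rfl⟩, hw⟩

variable {m k n : ℕ} [NeZero n]

/-- input bits -/
abbrev Ei (n m : ℕ) : Type := Path (Fin n) (m + 1) × Fin n

/-- coordinates: a strategy and `k` variables -/
abbrev Co (n m k : ℕ) : Type := Cs n (m + 1) ⊕ Fin k

/-- the partial assignments that produce a one -/
def opx (e : Ei n m) : Finset (Finset (Co n m k × Fin n)) :=
  Finset.univ.image (fun j : Fin k => ({((Sum.inr j : Co n m k), e.2)} : Finset _) ∪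
    (rho (m + 1) e.1).image (fun p => ((Sum.inl p.1 : Co n m k), p.2)))

lemma opx_card (e : Ei n m) : (opx (k := k) e).card ≤ k :=
  Finset.card_image_le.trans (by simp)

lemma kn_opx {R : Set (Co n m k)} {ω : Co n m k → Fin n} {e : Ei n m} :
    Kn opx R ω e ↔ (Pl (m + 1) {c | (Sum.inl c : Co n m k) ∈ R} (fun c => ω (Sum.inl c)) e.1 ∧
      ∃ j : Fin k, (Sum.inr j : Co n m k) ∈ R ∧ ω (Sum.inr j) = e.2) := by
  unfold Kn opx Pl
  simp only [Finset.mem_image, Finset.mem_univ, true_and]
  constructor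
  · rintro ⟨ρ, ⟨j, rfl⟩, h⟩
    refine ⟨fun p hp => ?_, j, ?_⟩
    · exact h _ (Finset.mem_union_right _ (Finset.mem_image_of_mem _ hp))
    · exact h _ (Finset.mem_union_left _ (Finset.mem_singleton_self _))
  · rintro ⟨h1, j, h2⟩
    refine ⟨_, ⟨j, rfl⟩, ?_⟩
    intro p hp
    rcases Finset.mem_union.mp hp with h3 | h3
    · rw [Finset.mem_singleton] at h3
      rw [h3]
      exact h2
    · obtain ⟨q, hq, rfl⟩ := Finset.mem_image.mp h3
      exact h1 q hq

/-- the set of ones -/
def xs (ω : Co n m k → Fin n) : Finset (Ei n m) :=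
  Finset.univ.filter (fun e => Kn opx Set.univ ω e)

lemma mem_xs {ω : Co n m k → Fin n} {e : Ei n m} : e ∈ xs ω ↔
    (Pl (m + 1) Set.univ (fun c => ω (Sum.inl c)) e.1 ∧ ∃ j : Fin k, ω (Sum.inr j) = e.2) := by
  unfold xs
  rw [Finset.mem_filter, kn_opx]
  simp

/-- few coordinates show few ones -/
lemma kn_card (R : Finset (Co n m k)) (ω : Co n m k → Fin n) :
    (Finset.univ.filter (fun e : Ei n m => Kn opx (↑R : Set (Co n m k)) ω e)).card ≤
      R.card * R.card := by
  have h1 : (Finset.univ.filter (fun e : Ei n m => Kn opx (↑R : Set (Co n m k)) ω e)) ⊆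
      (Finset.univ.filter (fun w => Pl (m + 1)
        (↑(Finset.univ.filter (fun c : Cs n (m + 1) => (Sum.inl c : Co n m k) ∈ R)) :
          Set (Cs n (m + 1))) (fun c => ω (Sum.inl c)) w)) ×ˢ
      ((Finset.univ.filter (fun j : Fin k => (Sum.inr j : Co n m k) ∈ R)).image
        (fun j => ω (Sum.inr j))) := by
    intro e he
    rw [Finset.mem_filter, kn_opx] at he
    rw [Finset.mem_product, Finset.mem_filter, Finset.mem_image]
    refine ⟨⟨Finset.mem_univ _, ?_⟩, ?_⟩
    · refine he.2.1.mono ?_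
      intro c hc
      rw [Finset.coe_filter]
      exact ⟨Finset.mem_univ _, hc⟩
    · obtain ⟨j, hj1, hj2⟩ := he.2.2
      exact ⟨j, Finset.mem_filter.mpr ⟨Finset.mem_univ _, hj1⟩, hj2⟩
  refine (Finset.card_le_card h1).trans ?_
  rw [Finset.card_product]
  apply Nat.mul_le_mul
  · refine (pl_card _ _).trans ?_
    refine Finset.card_le_card_of_injOn (fun c => (Sum.inl c : Co n m k)) ?_ ?_
    · intro c hc
      rw [Finset.coe_filter] at hc
      exact hc.2
    · intro c _ c' _ h
      exact Sum.inl_injective h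
  · refine Finset.card_image_le.trans ?_
    refine Finset.card_le_card_of_injOn (fun j => (Sum.inr j : Co n m k)) ?_ ?_
    · intro c hc
      rw [Finset.coe_filter] at hc
      exact hc.2
    · intro c _ c' _ h
      exact Sum.inr_injective h

/-- probability of an error -/
lemma avg_badPos {s u : ℕ} (𝒦 : Set (Finset (Ei n m))) (hK : ∀ K ∈ 𝒦, K.card ≤ s) :
    avg (fun ω : Co n m k → Fin n => ind (BadPos (u * u) 𝒦 (xs ω))) ≤
      (((s * k : ℕ) : ℝ) / n) ^ u := by
  refine le_trans (avg_mono fun ω => ind_mono ?_)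
    (reveal (C := Co n m k) (opt := opx) (q := k) hK opx_card u)
  rintro ⟨h1, h2⟩
  refine ⟨fun K hK => ?_, ?_⟩
  · obtain ⟨e, he1, he2⟩ := h1 K hK
    exact ⟨e, he1, (Finset.mem_filter.mp he2).2⟩
  · rintro ⟨R, hR1, hR2⟩
    apply h2
    refine ⟨Finset.univ.filter (fun e : Ei n m => Kn opx (↑R : Set (Co n m k)) ω e), ?_, ?_, ?_⟩
    · intro e he
      rw [xs, Finset.mem_filter]
      exact ⟨Finset.mem_univ _, (Finset.mem_filter.mp he).2.mono (Set.subset_univ _)⟩
    · exact (kn_card R ω).trans (Nat.mul_le_mul hR1 hR1)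
    · intro K hK
      obtain ⟨e, he1, he2⟩ := hR2 K hK
      exact ⟨e, he1, Finset.mem_filter.mpr ⟨Finset.mem_univ _, he2⟩⟩

/-- two coordinates have equal values -/
lemma avg_eq {C : Type} [Fintype C] [DecidableEq C] {c c' : C} (h : c ≠ c') :
    avg (fun ω : C → Fin n => ind (ω c = ω c')) ≤ 1 / n := by
  have hn0 : (0 : ℝ) < n := by exact_mod_cast NeZero.pos n
  have h1 : ∀ ω : C → Fin n, ind (ω c = ω c') ≤
      ∑ v : Fin n, ind (∀ x ∈ ({c, c'} : Finset C), ω x ∈ ({v} : Finset (Fin n))) := by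
    intro ω
    refine le_trans (ind_mono ?_) (ind_exists_le Finset.univ _)
    intro heq
    refine ⟨ω c, Finset.mem_univ _, ?_⟩
    intro x hx
    rw [Finset.mem_insert, Finset.mem_singleton] at hx
    rcases hx with rfl | rfl
    · simp
    · simp [heq]
  refine (avg_mono h1).trans ?_
  rw [avg_sum]
  have h2 : ∀ v : Fin n, avg (fun ω : C → Fin n =>
      ind (∀ x ∈ ({c, c'} : Finset C), ω x ∈ ({v} : Finset (Fin n)))) = (1 / (n : ℝ)) ^ 2 := by
    intro v
    rw [avg_box (C := C) (T := fun _ => Fin n) {c, c'} (fun _ => {v}), Finset.prod_const,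
      Finset.card_pair h]
    simp
  simp only [h2]
  rw [Finset.sum_const, nsmul_eq_mul, Finset.card_univ, Fintype.card_fin]
  apply le_of_eq
  field_simp

/-- the variables are usually distinct -/
lemma avg_not_inj : avg (fun ω : Co n m k → Fin n =>
    ind (¬ Function.Injective (fun j : Fin k => ω (Sum.inr j)))) ≤ ((k * k : ℕ) : ℝ) / n := by
  have hn0 : (0 : ℝ) < n := by exact_mod_cast NeZero.pos n
  have h1 : ∀ ω : Co n m k → Fin n, ind (¬ Function.Injective (fun j : Fin k => ω (Sum.inr j))) ≤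
      ∑ q ∈ (Finset.univ : Finset (Fin k × Fin k)).filter (fun q => q.1 ≠ q.2),
        ind (ω (Sum.inr q.1) = ω (Sum.inr q.2)) := by
    intro ω
    refine le_trans (ind_mono ?_) (ind_exists_le _ _)
    intro h
    unfold Function.Injective at h
    push Not at h
    obtain ⟨a, b, hab, hne⟩ := h
    exact ⟨(a, b), Finset.mem_filter.mpr ⟨Finset.mem_univ _, hne⟩, hab⟩
  refine (avg_mono h1).trans ?_
  rw [avg_sum]
  have h2 : ∀ q ∈ (Finset.univ : Finset (Fin k × Fin k)).filter (fun q => q.1 ≠ q.2),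
      avg (fun ω : Co n m k → Fin n => ind (ω (Sum.inr q.1) = ω (Sum.inr q.2))) ≤ 1 / n := by
    intro q hq
    have hne := (Finset.mem_filter.mp hq).2
    exact avg_eq (fun h => hne (Sum.inr_injective h))
  refine (Finset.sum_le_sum h2).trans ?_
  rw [Finset.sum_const, nsmul_eq_mul]
  have h3 : (((Finset.univ : Finset (Fin k × Fin k)).filter (fun q => q.1 ≠ q.2)).card : ℝ) ≤
      ((k * k : ℕ) : ℝ) := by
    have h4 := Finset.card_filter_le (Finset.univ : Finset (Fin k × Fin k)) (fun q => q.1 ≠ q.2)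
    rw [Finset.card_univ, Fintype.card_prod, Fintype.card_fin] at h4
    exact_mod_cast h4
  calc _ ≤ ((k * k : ℕ) : ℝ) * (1 / n) := mul_le_mul_of_nonneg_right h3 (by positivity)
    _ = _ := by ring

/-- the sparse inputs are satisfiable -/
lemma sat_xs {ω : Co n m k → Fin n} (h : Function.Injective (fun j : Fin k => ω (Sum.inr j))) :
    Sat1 k (inp (xs ω)) := by
  refine ⟨Finset.univ.image (fun j : Fin k => ω (Sum.inr j)), ?_, ?_⟩
  · rw [Finset.card_image_of_injective _ h, Finset.card_univ, Fintype.card_fin]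
  · apply val_of_pl (m + 1) (fun c => ω (Sum.inl c))
    intro w hw v hv
    obtain ⟨j, _, rfl⟩ := Finset.mem_image.mp hv
    exact inp_iff.mpr (mem_xs.mpr ⟨hw, j, rfl⟩)

end

end Pool.Agent.H68MT
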