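import Pool.Agent.H68MT.PosGen
import Pool.Agent.H68MT.Sparse

set_option linter.unusedSectionVars false

/-! The sparse inputs for the even levels. -/

namespace Pool.Agent.H68MT

open Finset Classical
open Pool.Agent.H592R2

noncomputable section

/-- input bits -/
abbrev E2 (n m : ℕ) : Type := Path (Fin n) (m + 1) × Fin n × Fin n

/-- rows -/
abbrev Rs (n m : ℕ) : Type := Asq n (m + 1) × Fin n

/-- `k`-satisfiability of a formula with positive literals and `2 * m + 4` levels -/
def Sat2 {n m : ℕ} (k : ℕ) (x : E2 n m → Bool) : Prop :=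
  ∃ T : Finset (Fin n), T.card = k ∧ val (m + 1) (fun w => ∀ c, ∃ v ∈ T, x (w, c, v) = true)

variable {m k n : ℕ} [NeZero n] [NeZero k]

/-- a strategy, `k` variables, and for every row the index of one of them -/
def mdl (n m k : ℕ) : Mod (Co n m k) (Rs n m) (E2 n m) k n where
  row := fun e => (mv (m + 1) e.1, e.2.1)
  pa := fun e j => {((Sum.inr j : Co n m k), e.2.2)} ∪
    (rho (m + 1) e.1).image (fun p => ((Sum.inl p.1 : Co n m k), p.2))
  col := fun j => Sum.inr j
  hcol := Sum.inr_injective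
  hpa := fun e j => ⟨e.2.2, Finset.mem_union_left _ (Finset.mem_singleton_self _)⟩

/-- the sample space -/
abbrev Os (n m k : ℕ) : Type := Om2 (Co n m k) (Rs n m) k n

lemma one_iff {ω : Os n m k} {e : E2 n m} : One (mdl n m k) ω e ↔
    (Pl (m + 1) Set.univ (fun c => (show Fin n from ω (Sum.inl (Sum.inl c)))) e.1 ∧
      ω (Sum.inl (Sum.inr (ω (Sum.inr (mv (m + 1) e.1, e.2.1))))) = e.2.2) := by
  unfold One Pl mdl
  constructor
  · intro h
    refine ⟨fun p hp => ⟨Set.mem_univ _, ?_⟩, ?_⟩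
    · exact h (Sum.inl p.1, p.2) (Finset.mem_union_right _ (Finset.mem_image_of_mem _ hp))
    · exact h (Sum.inr _, e.2.2) (Finset.mem_union_left _ (Finset.mem_singleton_self _))
  · rintro ⟨h1, h2⟩ p hp
    rcases Finset.mem_union.mp hp with h3 | h3
    · rw [Finset.mem_singleton] at h3
      rw [h3]
      exact h2
    · obtain ⟨q, hq, rfl⟩ := Finset.mem_image.mp h3
      exact (h1 q hq).2

lemma mdl_inj : Inj (mdl n m k) := by
  intro ω e e' h h' hr
  rw [one_iff] at h h'
  have hr' : (mv (m + 1) e.1, e.2.1) = (mv (m + 1) e'.1, e'.2.1) := hr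
  have h1 : mv (m + 1) e.1 = mv (m + 1) e'.1 := congrArg Prod.fst hr'
  have h2 : e.2.1 = e'.2.1 := congrArg Prod.snd hr'
  have h3 : e.1 = e'.1 := pl_inj (m + 1) h.1 h'.1 h1
  have h4 : e.2.2 = e'.2.2 := by rw [← h.2, ← h'.2, h1, h2]
  exact Prod.ext h3 (Prod.ext h2 h4)

lemma avg_marg2 (F : (Co n m k → Fin n) → ℝ) :
    avg (fun ω : Os n m k => F (fun c => ω (Sum.inl c))) = avg F := by
  have h := avg_prod (Equiv.sumPiEquivProdPi
    (fun c : Co n m k ⊕ Rs n m => Fin (Sz2 (Co n m k) (Rs n m) k n c)))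
    (fun (a : Co n m k → Fin n) (_ : Rs n m → Fin k) => F a)
  refine Eq.trans ?_ (h.trans ?_)
  · rfl
  · congr 1
    funext a
    exact avg_const _

/-- the sparse inputs are satisfiable -/
lemma sat_xs2 {ω : Os n m k}
    (h : Function.Injective (fun j : Fin k => (show Fin n from ω (Sum.inl (Sum.inr j))))) :
    Sat2 k (inp (xsG (mdl n m k) ω)) := by
  refine ⟨Finset.univ.image (fun j : Fin k => (show Fin n from ω (Sum.inl (Sum.inr j)))), ?_, ?_⟩
  · rw [Finset.card_image_of_injective _ h, Finset.card_univ, Fintype.card_fin]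
  · apply val_of_pl (m + 1) (fun c => (show Fin n from ω (Sum.inl (Sum.inl c))))
    intro w hw c
    refine ⟨ω (Sum.inl (Sum.inr (ω (Sum.inr (mv (m + 1) w, c))))),
      Finset.mem_image.mpr ⟨_, Finset.mem_univ _, rfl⟩, ?_⟩
    refine inp_iff.mpr ?_
    unfold xsG
    rw [Finset.mem_filter]
    exact ⟨Finset.mem_univ _, one_iff.mpr ⟨hw, rfl⟩⟩

end

end Pool.Agent.H68MT
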